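import Pool.Agent.K6.H19.GI.Liou

/-!
# Theta functions which are invariant under the fourth roots of unity
-/

set_option autoImplicit false

namespace Pool.Agent.K6.H19.GI

open Complex Filter Topology Asymptotics

/-- The even function `sig (w - a) sig (- w - a)`. -/
noncomputable def Bt (a w : ℂ) : ℂ := sig (w - a) * sig (-w - a)

theorem Bt_entire (a : ℂ) : Differentiable ℂ (Bt a) := by
  unfold Bt
  have h1 : Differentiable ℂ fun w : ℂ => w - a := by fun_prop
  have h2 : Differentiable ℂ fun w : ℂ => -w - a := by fun_prop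
  exact (sig_entire.comp h1).mul (sig_entire.comp h2)

theorem Bt_neg (a w : ℂ) : Bt a (-w) = Bt a w := by
  unfold Bt
  rw [neg_neg, mul_comm]

theorem Bt_add (a w : ℂ) {l : ℂ} (hl : IsGau l) : Bt a (w + l) =
    exp (2 * (Real.pi * kap * (w * (starRingEnd ℂ) l + l * (starRingEnd ℂ) l / 2))) * Bt a w := by
  obtain ⟨ε, h1, h2, h3⟩ := exists_good hl
  unfold Bt
  have e1 : w + l - a = (w - a) + l := by ring
  have e2 : -(w + l) - a = (-w - a) + -l := by ring
  rw [e1, e2, h2, h3, map_neg]
  have h4 : exp (Real.pi * kap * ((w - a) * (starRingEnd ℂ) l + l * (starRingEnd ℂ) l / 2)) *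
      exp (Real.pi * kap * ((-w - a) * -(starRingEnd ℂ) l + -l * -(starRingEnd ℂ) l / 2)) =
      exp (2 * (Real.pi * kap * (w * (starRingEnd ℂ) l + l * (starRingEnd ℂ) l / 2))) := by
    rw [← exp_add]
    congr 1
    ring
  linear_combination (ε * ε * sig (w - a) * sig (-w - a)) * h4 +
    (exp (2 * (Real.pi * kap * (w * (starRingEnd ℂ) l + l * (starRingEnd ℂ) l / 2))) *
      (sig (w - a) * sig (-w - a))) * h1

theorem Bt_ne {a w : ℂ} (h1 : ¬IsGau (w - a)) (h2 : ¬IsGau (-w - a)) : Bt a w ≠ 0 :=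
  mul_ne_zero (sig_ne h1) (sig_ne h2)

/-- The theta function `∏ sig (ζ w - a)`, the product over the fourth roots of unity. -/
noncomputable def th (a w : ℂ) : ℂ := Bt a w * Bt a (om * w)

theorem th_entire (a : ℂ) : Differentiable ℂ (th a) := by
  unfold th
  have h1 : Differentiable ℂ fun w : ℂ => om * w := by fun_prop
  exact (Bt_entire a).mul ((Bt_entire a).comp h1)

theorem om_conj : om * (starRingEnd ℂ) om = 1 := by
  rw [conj_om]
  have := om_sq
  linear_combination -this

theorem th_add (a w : ℂ) {l : ℂ} (hl : IsGau l) : th a (w + l) =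
    exp (4 * (Real.pi * kap * (w * (starRingEnd ℂ) l + l * (starRingEnd ℂ) l / 2))) * th a w := by
  unfold th
  have e1 : om * (w + l) = om * w + om * l := by ring
  rw [e1, Bt_add a w hl, Bt_add a (om * w) (IsGau.omega.mul hl)]
  have ho := om_conj
  have e3 : om * w * (starRingEnd ℂ) (om * l) + om * l * (starRingEnd ℂ) (om * l) / 2 =
      w * (starRingEnd ℂ) l + l * (starRingEnd ℂ) l / 2 := by
    rw [map_mul]
    linear_combination (w * (starRingEnd ℂ) l + l * (starRingEnd ℂ) l / 2) * ho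
  rw [e3]
  have e5 : exp (4 * (Real.pi * kap * (w * (starRingEnd ℂ) l + l * (starRingEnd ℂ) l / 2))) =
      exp (2 * (Real.pi * kap * (w * (starRingEnd ℂ) l + l * (starRingEnd ℂ) l / 2))) *
      exp (2 * (Real.pi * kap * (w * (starRingEnd ℂ) l + l * (starRingEnd ℂ) l / 2))) := by
    rw [← exp_add]
    congr 1
    ring
  rw [e5]
  ring

theorem th_om (a w : ℂ) : th a (om * w) = th a w := by
  unfold th
  have h1 : om * (om * w) = -w := by
    have := om_sq
    linear_combination w * this
  rw [h1, Bt_neg, mul_comm]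

theorem th_neg (a w : ℂ) : th a (-w) = th a w := by
  unfold th
  have h1 : om * -w = -(om * w) := by ring
  rw [h1, Bt_neg, Bt_neg]

theorem four_cases {z : ℂ} (h : z ^ 4 = 1) : z = 1 ∨ z = -1 ∨ z = om ∨ z = -om := by
  have hom := om_sq
  have h1 : (z - 1) * (z + 1) * ((z - om) * (z + om)) = 0 := by
    linear_combination h - (z * z - 1) * hom
  rcases mul_eq_zero.1 h1 with h3 | h3
  · rcases mul_eq_zero.1 h3 with h4 | h4
    · exact Or.inl (sub_eq_zero.1 h4)
    · exact Or.inr (Or.inl (eq_neg_of_add_eq_zero_left h4))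
  · rcases mul_eq_zero.1 h3 with h4 | h4
    · exact Or.inr (Or.inr (Or.inl (sub_eq_zero.1 h4)))
    · exact Or.inr (Or.inr (Or.inr (eq_neg_of_add_eq_zero_left h4)))

theorem th_rot (a w : ℂ) {z : ℂ} (h : z ^ 4 = 1) : th a (z * w) = th a w := by
  rcases four_cases h with rfl | rfl | rfl | rfl
  · rw [one_mul]
  · rw [neg_one_mul, th_neg]
  · rw [th_om]
  · rw [neg_mul, th_neg, th_om]

theorem eis_of_om {w : ℂ} (h : IsGau (om * w)) : IsGau w := by
  have h1 := (IsGau.omega.mul h).neg
  have h2 : -(om * (om * w)) = w := by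
    have := om_sq
    linear_combination (-w) * this
  rwa [h2] at h1

theorem th_zero_ne {w : ℂ} (h : ¬IsGau w) : th 0 w ≠ 0 := by
  have h1 : ∀ {w : ℂ}, ¬IsGau w → Bt 0 w ≠ 0 := by
    intro w h
    refine Bt_ne (by rwa [sub_zero]) ?_
    rw [sub_zero]
    intro h'
    have := h'.neg
    rw [neg_neg] at this
    exact h this
  unfold th
  exact mul_ne_zero (h1 h) (h1 fun h' => h (eis_of_om h'))

theorem countable_eis : {z : ℂ | IsGau z}.Countable := by
  have h1 : {z : ℂ | IsGau z} = Set.range fun p : ℤ × ℤ => (p.1 : ℂ) + p.2 * om := by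
    ext z
    constructor
    · rintro ⟨a, b, rfl⟩
      exact ⟨(a, b), rfl⟩
    · rintro ⟨p, rfl⟩
      exact ⟨p.1, p.2, rfl⟩
  rw [h1]
  exact Set.countable_range _

/-- For every point there is a theta function which does not vanish there. -/
theorem exists_th_ne (w : ℂ) : ∃ a, th a w ≠ 0 := by
  by_contra hcon
  push Not at hcon
  have h1 : (Set.univ : Set ℂ) ⊆ ⋃ y ∈ ({w, -w, om * w, -(om * w)} : Set ℂ), {a | IsGau (y - a)} := by
    intro a _
    have h2 := hcon a
    unfold th Bt at h2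
    have h3 : ∀ z, sig z = 0 → IsGau z := fun z hz => by
      by_contra h
      exact sig_ne h hz
    simp only [Set.mem_iUnion]
    rcases mul_eq_zero.1 h2 with h | h
    · rcases mul_eq_zero.1 h with h | h
      · exact ⟨w, by simp, h3 _ h⟩
      · exact ⟨-w, by simp, h3 _ h⟩
    · rcases mul_eq_zero.1 h with h | h
      · exact ⟨om * w, by simp, h3 _ h⟩
      · exact ⟨-(om * w), by simp, h3 _ h⟩
  have h2 : (⋃ y ∈ ({w, -w, om * w, -(om * w)} : Set ℂ), {a | IsGau (y - a)}).Countable := by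
    refine Set.Countable.biUnion (Set.Finite.countable (by simp)) fun y _ => ?_
    have h3 : {a | IsGau (y - a)} = (fun z => y - z) '' {z : ℂ | IsGau z} := by
      ext a
      constructor
      · intro h
        exact ⟨y - a, h, by ring⟩
      · rintro ⟨z, hz, rfl⟩
        show IsGau (y - (y - z))
        rw [sub_sub_cancel]
        exact hz
    rw [h3]
    exact countable_eis.image _
  exact not_countable_complex (h2.mono h1)

/-- The order of vanishing of `th 0` at `0`. -/
theorem th_zero_lim {c : ℂ} (hc : c ≠ 0) : ∃ d : ℂ, d ≠ 0 ∧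
    Tendsto (fun t : ℂ => th 0 (t * c) / t ^ 4) (𝓝[≠] 0) (𝓝 d) := by
  obtain ⟨c₀, hc₀, hd⟩ := sig_deriv
  have h1 : ∀ y : ℂ, Tendsto (fun t : ℂ => sig (t * y) / t) (𝓝[≠] 0) (𝓝 (c₀ * y)) := by
    intro y
    have h2 : HasDerivAt (fun t : ℂ => sig (t * y)) (c₀ * y) 0 := by
      have h3 : HasDerivAt (fun t : ℂ => t * y) y 0 := by
        simpa using (hasDerivAt_id (0 : ℂ)).mul_const y
      have h4 : HasDerivAt sig c₀ ((fun t : ℂ => t * y) 0) := by simpa using hd
      exact h4.comp 0 h3
    have h5 := h2.tendsto_slope_zero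
    refine h5.congr fun t => ?_
    rw [zero_add, zero_mul, sig_zero, sub_zero, smul_eq_mul, div_eq_inv_mul]
  have h2 : ∀ t : ℂ, th 0 (t * c) / t ^ 4 = (sig (t * c) / t) * (sig (t * -c) / t) *
      ((sig (t * (om * c)) / t) * (sig (t * -(om * c)) / t)) := by
    intro t
    unfold th Bt
    have e1 : t * -c = -(t * c) := by ring
    have e2 : t * (om * c) = om * (t * c) := by ring
    have e3 : t * -(om * c) = -(om * (t * c)) := by ring
    rw [e1, e2, e3]
    simp only [sub_zero]
    by_cases ht : t = 0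
    · rw [ht]; simp
    · field_simp
  refine ⟨(c₀ * c) * (c₀ * -c) * ((c₀ * (om * c)) * (c₀ * -(om * c))), ?_, ?_⟩
  · have ho := om_ne_zero
    simp only [ne_eq, mul_eq_zero, neg_eq_zero, hc, hc₀, ho, or_self, not_false_eq_true]
  · simp only [h2]
    exact ((h1 _).mul (h1 _)).mul ((h1 _).mul (h1 _))

theorem th_zero_O : th 0 =O[𝓝 0] fun w : ℂ => ‖w‖ ^ 4 := by
  have h1 : sig =O[𝓝 0] fun w : ℂ => w := by
    have h2 := sig_deriv
    obtain ⟨c, -, hd⟩ := h2
    have h3 := hd.isBigO_sub
    rw [sig_zero] at h3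
    simpa using h3
  have h2 : ∀ y : ℂ, (fun w : ℂ => sig (y * w)) =O[𝓝 0] fun w : ℂ => ‖w‖ := by
    intro y
    have h3 : Tendsto (fun w : ℂ => y * w) (𝓝 0) (𝓝 0) := by
      have : Continuous fun w : ℂ => y * w := by fun_prop
      simpa using this.tendsto 0
    have h4 := h1.comp_tendsto h3
    refine h4.trans ?_
    refine (IsBigO.of_bound ‖y‖ (Eventually.of_forall fun w => ?_))
    simp
  have h3 := ((h2 1).mul (h2 (-1))).mul ((h2 om).mul (h2 (-om)))
  refine (h3.congr (fun w => ?_) (fun w => ?_))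
  · unfold th Bt
    have e1 : (1 : ℂ) * w = w := by ring
    have e2 : -1 * w = -w := by ring
    have e3 : -om * w = -(om * w) := by ring
    rw [e1, e2, e3]
    simp only [sub_zero]
  · ring

end Pool.Agent.K6.H19.GI
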