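import Pool.Agent.K6.H19.GI.Defs
import Pool.Agent.K6.H19.GI.Th
import Pool.Agent.W594.SYZ.TQ2
import Pool.Agent.Y167.Dom

/-!
# Line bundles and sections given by theta functions
-/

set_option autoImplicit false

namespace Pool.Agent.K6.H19.GI

open Pool.Agent.R895 (act BlBundle IsClass N1s N1 form coef integral semiample effective span nefCone
  effCone Normalizes IsPullback)

open Complex Filter Topology Asymptotics
open Matrix hiding IsHermitian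
open Pool.Agent.W594.SYZ2 (IsHermitian)
open Pool.Agent.W594.SYZ2.TQ (h_add_right h_smul_right h_zero_left h_zero_right h_neg_left
  h_sub_left h_re_symm)
open Pool.Agent.Y167 (AffGrp)

variable {ι : Type*} [Fintype ι] {m : ℕ}

theorem kum_spec (γ : kum ι m) : ∃ (ζ : ℂ) (l : ι → ℂ), ζ ^ m = 1 ∧ ζ ^ 4 = 1 ∧ Lat l ∧
    ∀ v, (γ : (ι → ℂ) ≃ᵃ[ℂ] (ι → ℂ)) v = ζ • v + l := γ.2

/-- The factor of automorphy with Chern form `4 κ h`. -/
noncomputable def thE (h : (ι → ℂ) → (ι → ℂ) → ℂ) (γ : kum ι m) (v : ι → ℂ) : ℂ :=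
  exp (4 * (Real.pi * kap * (h ((γ : (ι → ℂ) ≃ᵃ[ℂ] (ι → ℂ)) v) ((γ : (ι → ℂ) ≃ᵃ[ℂ] (ι → ℂ)) 0) -
    h ((γ : (ι → ℂ) ≃ᵃ[ℂ] (ι → ℂ)) 0) ((γ : (ι → ℂ) ≃ᵃ[ℂ] (ι → ℂ)) 0) / 2)))

variable {h : (ι → ℂ) → (ι → ℂ) → ℂ}

theorem herm_real (hh : IsHermitian h) (v : ι → ℂ) : h v v = ((h v v).re : ℂ) :=
  (Complex.conj_eq_iff_re.1 (hh.symm v v).symm).symm

theorem thE_eq (hh : IsHermitian h) {γ : kum ι m} {ζ : ℂ} {l : ι → ℂ}
    (hγ : ∀ v, (γ : (ι → ℂ) ≃ᵃ[ℂ] (ι → ℂ)) v = ζ • v + l) (v : ι → ℂ) :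
    thE h γ v = exp (4 * (Real.pi * kap * (ζ * h v l + h l l / 2))) := by
  unfold thE
  rw [hγ, hγ, smul_zero, zero_add, hh.add_left, hh.smul_left]
  congr 3
  ring

theorem exp_int_shift {z : ℂ} (hz : IsGau z) (X : ℂ) :
    exp (4 * (Real.pi * kap * (X - I * (z.im : ℂ)))) = exp (4 * (Real.pi * kap * X)) := by
  obtain ⟨n, hn⟩ := kap_im hz
  rw [exp_eq_exp_iff_exists_int]
  refine ⟨-(2 * n), ?_⟩
  have h1 : (kap : ℂ) * (z.im : ℂ) = n := by
    rw [← ofReal_mul, hn, ofReal_intCast]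
  push_cast
  linear_combination (-4 * Real.pi * I) * h1

theorem kap_om : (kap : ℂ) * om = I := by
  rw [kap_eq, om]
  simp

theorem thE_mul (hh : IsHermitian h) (hint : ∀ u w, Lat u → Lat w → IsGau (h u w))
    (γ δ : kum ι m) (v : ι → ℂ) :
    thE h (γ * δ) v = thE h γ ((δ : (ι → ℂ) ≃ᵃ[ℂ] (ι → ℂ)) v) * thE h δ v := by
  obtain ⟨ζ, l, h1, h2, h3, h4⟩ := kum_spec γ
  obtain ⟨ξ, k, h5, h6, h7, h8⟩ := kum_spec δ
  have h9 : ∀ v, ((γ * δ : kum ι m) : (ι → ℂ) ≃ᵃ[ℂ] (ι → ℂ)) v = (ζ * ξ) • v + (ζ • k + l) := by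
    intro v
    have : ((γ * δ : kum ι m) : (ι → ℂ) ≃ᵃ[ℂ] (ι → ℂ)) v =
      (γ : (ι → ℂ) ≃ᵃ[ℂ] (ι → ℂ)) ((δ : (ι → ℂ) ≃ᵃ[ℂ] (ι → ℂ)) v) := rfl
    rw [this, h8, h4, smul_add, smul_smul, add_assoc]
  rw [thE_eq hh h9, thE_eq hh h4, thE_eq hh h8, h8]
  have hlk : Lat (ζ • k) := fun i => (IsGau.of_pow_four h2).mul (h7 i)
  have hz := hint (ζ • k) l hlk h3
  have hzn : ζ * (starRingEnd ℂ) ζ = 1 := by
    rw [Complex.mul_conj]
    have h10 : ‖ζ‖ ^ 4 = 1 := by rw [← norm_pow, h2, norm_one]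
    have h11 : ‖ζ‖ = 1 := (pow_eq_one_iff_of_nonneg (norm_nonneg _) (by norm_num)).1 h10
    rw [normSq_eq_norm_sq, h11]; norm_num
  rw [← exp_add]
  have hX : exp (4 * (Real.pi * kap * (ζ * h (ξ • v + k) l + h l l / 2))
      + 4 * (Real.pi * kap * (ξ * h v k + h k k / 2))) =
      exp (4 * (Real.pi * kap * (ζ * h (ξ • v + k) l + h l l / 2 + (ξ * h v k + h k k / 2)))) := by
    congr 1; ring
  rw [hX, ← exp_int_shift hz (ζ * h (ξ • v + k) l + h l l / 2 + (ξ * h v k + h k k / 2))]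
  congr 3
  have e1 : h l (ζ • k) = (starRingEnd ℂ) (h (ζ • k) l) := hh.symm _ _
  have e2 : h (ζ • k) l - (starRingEnd ℂ) (h (ζ • k) l) = 2 * ((h (ζ • k) l).im : ℂ) * I := by
    rw [Complex.sub_conj]; push_cast; ring
  have e3 : h v (ζ • k) = (starRingEnd ℂ) ζ * h v k := h_smul_right hh _ _ _
  have e4 : h (ζ • k) (ζ • k) = h k k := by
    rw [hh.smul_left, h_smul_right hh]
    linear_combination h k k * hzn
  have e5 : h (ζ • k + l) (ζ • k + l) = h k k + h (ζ • k) l + (starRingEnd ℂ) (h (ζ • k) l)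
      + h l l := by
    rw [hh.add_left, h_add_right hh, h_add_right hh, e1, e4]; ring
  have e6 : h v (ζ • k + l) = (starRingEnd ℂ) ζ * h v k + h v l := by
    rw [h_add_right hh, e3]
  have e7 : h (ξ • v + k) l = ξ * h v l + h k l := by rw [hh.add_left, hh.smul_left]
  have e8 : h (ζ • k) l = ζ * h k l := hh.smul_left _ _ _
  rw [e5, e6, e7]
  rw [e8] at e2 ⊢
  linear_combination (ξ * h v k) * hzn + (1 / 2 : ℂ) * (-e2)

theorem thE_one (hh : IsHermitian h) {γ : kum ι m} (hγ : (γ : (ι → ℂ) ≃ᵃ[ℂ] (ι → ℂ)) 0 = 0)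
    (v : ι → ℂ) : thE h γ v = 1 := by
  unfold thE
  rw [hγ, h_zero_right hh, h_zero_right hh]
  simp

/-- The stabilisers of all points act trivially. -/
theorem thE_stab (hh : IsHermitian h) (hint : ∀ u w, Lat u → Lat w → IsGau (h u w))
    (γ : kum ι m) (v : ι → ℂ) (hv : (γ : (ι → ℂ) ≃ᵃ[ℂ] (ι → ℂ)) v = v) : thE h γ v = 1 := by
  obtain ⟨ζ, l, h1, h2, h3, h4⟩ := kum_spec γ
  rw [thE_eq hh h4]
  have hl : l = (1 - ζ) • v := by
    rw [h4] at hv
    rw [sub_smul, one_smul]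
    exact eq_sub_of_add_eq' hv
  have e1 : h v l = (starRingEnd ℂ) (1 - ζ) * h v v := by rw [hl, h_smul_right hh]
  have e2 : h l l = (1 - ζ) * ((starRingEnd ℂ) (1 - ζ) * h v v) := by
    conv_lhs => rw [hl]
    rw [hh.smul_left, h_smul_right hh]
  obtain ⟨n, hn⟩ := (hint l l h3 h3).real (by rw [herm_real hh l, ofReal_im])
  have hom := om_sq
  have hk := kap_om
  have hcom := conj_om
  rw [e1]
  rcases four_cases h2 with rfl | rfl | rfl | rfl
  · rw [e2]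
    simp
  · rw [e2]
    have : (starRingEnd ℂ) (1 - -1 : ℂ) = 2 := by
      rw [map_sub, map_neg, map_one]; norm_num
    rw [this]
    have : (4 : ℂ) * (Real.pi * kap * (-1 * (2 * h v v) + (1 - -1) * (2 * h v v) / 2)) = 0 := by
      ring
    rw [this, exp_zero]
  · have hc : (starRingEnd ℂ) (1 - om) = 1 + om := by
      rw [map_sub, map_one, hcom]; ring
    rw [hc] at e2 ⊢
    have ht : h v v = n / 2 := by
      rw [hn] at e2
      have : (1 - om) * ((1 + om) * h v v) = 2 * h v v := by linear_combination (-h v v) * hom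
      rw [this] at e2
      rw [e2]
      ring
    rw [hn, ht, exp_eq_one_iff]
    refine ⟨n, ?_⟩
    linear_combination (2 * Real.pi * kap * n) * hom + (2 * Real.pi * n) * hk
  · have hc : (starRingEnd ℂ) (1 - -om) = 1 - om := by
      rw [map_sub, map_neg, map_one, hcom]; ring
    rw [hc] at e2 ⊢
    have ht : h v v = n / 2 := by
      rw [hn] at e2
      have : (1 - -om) * ((1 - om) * h v v) = 2 * h v v := by linear_combination (-h v v) * hom
      rw [this] at e2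
      rw [e2]
      ring
    rw [hn, ht, exp_eq_one_iff]
    refine ⟨-n, ?_⟩
    push_cast
    linear_combination (2 * Real.pi * kap * n) * hom - (2 * Real.pi * n) * hk

end Pool.Agent.K6.H19.GI
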