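import Pool.Agent.K6.H19.GI.Bun

/-!
# Line bundles and sections given by theta functions, continued
-/

set_option autoImplicit false

namespace Pool.Agent.K6.H19.GI

open Pool.Agent.R895 (act BlBundle IsClass N1s N1 form coef integral semiample effective span nefCone
  effCone Normalizes IsPullback)

open Complex Filter Topology Asymptotics
open Matrix hiding IsHermitian
open Pool.Agent.W594.SYZ2 (IsHermitian)
open Pool.Agent.W594.SYZ2.TQ (h_add_right h_smul_right h_zero_left h_zero_right h_neg_left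
  h_sub_left h_re_symm)
open Pool.Agent.Y167 (AffGrp)

variable {ι : Type*} [Fintype ι] {m : ℕ} {h : (ι → ℂ) → (ι → ℂ) → ℂ}

theorem herm_differentiable (hh : IsHermitian h) (w : ι → ℂ) : Differentiable ℂ fun v => h v w := by
  let L : (ι → ℂ) →ₗ[ℂ] ℂ :=
    { toFun := fun v => h v w
      map_add' := fun u v => hh.add_left u v w
      map_smul' := fun a v => hh.smul_left a v w }
  exact (LinearMap.toContinuousLinearMap L).differentiable

/-- The line bundle with Chern form `4 κ h` and coefficient `4 b`. -/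
noncomputable def thB [Nonempty ι] (m : ℕ) (hh : IsHermitian h)
    (hint : ∀ u w, Lat u → Lat w → IsGau (h u w)) (b : ℕ) : BlBundle (kum ι m) where
  e := thE h
  k := 4 * b
  holo := fun γ => by
    obtain ⟨ζ, l, -, -, -, h4⟩ := kum_spec γ
    have h5 : thE h γ = fun v => exp (4 * (Real.pi * kap * (ζ * h v l + h l l / 2))) :=
      funext fun v => thE_eq hh h4 v
    rw [h5]
    have h6 := herm_differentiable hh l
    fun_prop
  ne_zero := fun γ v => exp_ne_zero _
  mul := thE_mul hh hint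
  stab := fun γ v hv _ => thE_stab hh hint γ v hv
  exc := fun γ ζ hγ' => by
    have hγ : ∀ v, (γ : (ι → ℂ) ≃ᵃ[ℂ] (ι → ℂ)) v = ζ • v := hγ'
    have h0 : (γ : (ι → ℂ) ≃ᵃ[ℂ] (ι → ℂ)) 0 = 0 := by rw [hγ, smul_zero]
    rw [thE_one hh h0]
    obtain ⟨ξ, l, -, h2, -, h4⟩ := kum_spec γ
    have hl : l = 0 := by
      have := h4 0
      rw [h0, smul_zero, zero_add] at this
      exact this.symm
    have hz : ζ = ξ := by
      have h5 := hγ (fun _ => 1)
      rw [h4, hl, add_zero] at h5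
      have h6 := congrFun h5 (Classical.arbitrary ι)
      simpa using h6.symm
    have h7 : (4 * b : ℤ) = ((4 * b : ℕ) : ℤ) := by push_cast; ring
    rw [h7, zpow_natCast, pow_mul, hz, h2, one_pow]

theorem norm_root {ζ : ℂ} (h : ζ ^ 4 = 1) : ζ * (starRingEnd ℂ) ζ = 1 := by
  rw [Complex.mul_conj]
  have h10 : ‖ζ‖ ^ 4 = 1 := by rw [← norm_pow, h, norm_one]
  have h11 : ‖ζ‖ = 1 := (pow_eq_one_iff_of_nonneg (norm_nonneg _) (by norm_num)).1 h10
  rw [normSq_eq_norm_sq, h11]; norm_num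

theorem thB_chern [Nonempty ι] (m : ℕ) (hh : IsHermitian h)
    (hint : ∀ u w, Lat u → Lat w → IsGau (h u w)) (b : ℕ) :
    (thB m hh hint b).IsChern fun u w => 4 * kap * h u w := by
  refine ⟨⟨fun u v w => ?_, fun a v w => ?_, fun v w => ?_⟩, fun _ => 0, differentiable_const _,
    fun γ v => ?_⟩
  · rw [hh.add_left]; ring
  · rw [hh.smul_left]; ring
  · rw [map_mul, map_mul, conj_ofReal, ← hh.symm]
    congr 2
    exact (Complex.conj_natCast 4).symm
  · obtain ⟨ζ, l, -, h2, -, h4⟩ := kum_spec γ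
    have h5 : (thB m hh hint b).e γ v =
        exp (4 * (Real.pi * kap * (ζ * h v l + h l l / 2))) := thE_eq hh h4 v
    have h4 : ∀ v, act γ v = ζ • v + l := h4
    rw [h5, norm_exp, ← Real.exp_nat_mul, h4]
    congr 1
    beta_reduce
    have hzn := norm_root h2
    have e1 : h (ζ • v + l) (ζ • v + l) = h v v + ζ * h v l +
        (starRingEnd ℂ) (ζ * h v l) + h l l := by
      have e2 : h l v = (starRingEnd ℂ) (h v l) := hh.symm _ _
      rw [hh.add_left, h_add_right hh, h_add_right hh, hh.smul_left, hh.smul_left,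
        h_smul_right hh, h_smul_right hh, e2, map_mul]
      linear_combination h v v * hzn
    rw [e1]
    have e3 : ∀ z : ℂ, (4 * (kap : ℂ) * z).re = 4 * kap * z.re := by
      intro z
      have : (4 * (kap : ℂ) * z) = ((4 * kap : ℝ) : ℂ) * z := by push_cast; ring
      rw [this, re_ofReal_mul]
    have e4 : (4 * (Real.pi * kap * (ζ * h v l + h l l / 2)) : ℂ).re =
        4 * (Real.pi * kap * ((ζ * h v l).re + (h l l).re / 2)) := by
      have : (4 * (Real.pi * kap * (ζ * h v l + h l l / 2)) : ℂ) =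
          ((4 * (Real.pi * kap) : ℝ) : ℂ) * (ζ * h v l + h l l / 2) := by push_cast; ring
      rw [this, re_ofReal_mul, add_re]
      have : (h l l / 2).re = (h l l).re / 2 := by
        rw [← Complex.div_ofNat_re]
      rw [this]
      ring
    rw [e3, e3, e4, add_re, add_re, add_re, conj_re]
    push_cast
    simp only [zero_re]
    ring

/-- The product of theta functions given by the linear functions `l i`: those in `T` vanish at the
lattice points. -/
noncomputable def sec {M : ℕ} (l : Fin M → ι → ℂ) (T : Finset (Fin M)) (a : Fin M → ℂ)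
    (v : ι → ℂ) : ℂ := (∏ i ∈ T, th 0 (l i ⬝ᵥ v)) * ∏ i ∈ Tᶜ, th (a i) (l i ⬝ᵥ v)

theorem sec_eq {M : ℕ} (l : Fin M → ι → ℂ) (T : Finset (Fin M)) (a : Fin M → ℂ) (v : ι → ℂ) :
    sec l T a v = ∏ i, th (if i ∈ T then 0 else a i) (l i ⬝ᵥ v) := by
  unfold sec
  rw [← Finset.prod_mul_prod_compl T]
  congr 1
  · exact Finset.prod_congr rfl fun i hi => by rw [if_pos hi]
  · exact Finset.prod_congr rfl fun i hi => by rw [if_neg (Finset.mem_compl.1 hi)]

theorem lat_dot {l v : ι → ℂ} (hl : Lat l) (hv : Lat v) : IsGau (l ⬝ᵥ v) :=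
  IsGau.dotProduct hl hv

theorem dot_differentiable (l : ι → ℂ) : Differentiable ℂ fun v : ι → ℂ => l ⬝ᵥ v := by
  unfold dotProduct
  fun_prop

theorem prod_differentiable {κ : Type*} (T : Finset κ) (f : κ → (ι → ℂ) → ℂ)
    (hf : ∀ i, Differentiable ℂ (f i)) : Differentiable ℂ fun v => ∏ i ∈ T, f i v := by
  classical
  induction T using Finset.induction_on with
  | empty => simp
  | insert i s hi ih =>
    have h1 : (fun v => ∏ j ∈ insert i s, f j v) = fun v => f i v * ∏ j ∈ s, f j v :=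
      funext fun v => Finset.prod_insert hi
    rw [h1]
    exact (hf i).mul ih

theorem sec_differentiable {M : ℕ} (l : Fin M → ι → ℂ) (T : Finset (Fin M)) (a : Fin M → ℂ) :
    Differentiable ℂ (sec l T a) := by
  have h1 : ∀ (a : ℂ) (l : ι → ℂ), Differentiable ℂ fun v : ι → ℂ => th a (l ⬝ᵥ v) :=
    fun a l => (th_entire a).comp (dot_differentiable l)
  unfold sec
  refine Differentiable.mul ?_ ?_
  · exact prod_differentiable T _ fun i => h1 0 (l i)
  · exact prod_differentiable Tᶜ _ fun i => h1 (a i) (l i)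

theorem prod_O {κ : Type*} (T : Finset κ) (f : κ → (ι → ℂ) → ℂ)
    (hf : ∀ i ∈ T, f i =O[𝓝 0] fun v : ι → ℂ => ‖v‖ ^ 4) :
    (fun v => ∏ i ∈ T, f i v) =O[𝓝 0] fun v : ι → ℂ => ‖v‖ ^ (4 * T.card) := by
  classical
  induction T using Finset.induction_on with
  | empty =>
    simp only [Finset.prod_empty, Finset.card_empty, mul_zero, pow_zero]
    exact isBigO_of_le _ fun v => by simp
  | insert i s hi ih =>
    have h1 := (hf i (Finset.mem_insert_self _ _)).mul
      (ih fun j hj => hf j (Finset.mem_insert_of_mem hj))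
    refine h1.congr (fun v => ?_) (fun v => ?_)
    · rw [Finset.prod_insert hi]
    · rw [Finset.card_insert_of_notMem hi]
      ring

theorem sec_O {M : ℕ} (l : Fin M → ι → ℂ) (T : Finset (Fin M)) (a : Fin M → ℂ) :
    sec l T a =O[𝓝 0] fun v => ‖v‖ ^ (4 * T.card) := by
  have h1 : ∀ l : ι → ℂ, (fun v : ι → ℂ => th 0 (l ⬝ᵥ v)) =O[𝓝 0] fun v => ‖v‖ ^ 4 := by
    intro l
    have h2 : Tendsto (fun v : ι → ℂ => l ⬝ᵥ v) (𝓝 0) (𝓝 0) := by
      have := (dot_differentiable l).continuous.tendsto 0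
      simpa using this
    have h3 := th_zero_O.comp_tendsto h2
    refine h3.trans ?_
    have h4 : (fun v : ι → ℂ => l ⬝ᵥ v) =O[𝓝 0] fun v => v := by
      have h5 := ((dot_differentiable l) 0).hasFDerivAt.isBigO_sub
      simpa using h5
    exact (h4.norm_norm).pow 4
  have h2 := prod_O T (fun i v => th 0 (l i ⬝ᵥ v)) fun i _ => h1 (l i)
  have h3 : (fun v : ι → ℂ => ∏ i ∈ Tᶜ, th (a i) (l i ⬝ᵥ v)) =O[𝓝 0] fun _ => (1 : ℝ) := by
    have h4 : Differentiable ℂ fun v : ι → ℂ => ∏ i ∈ Tᶜ, th (a i) (l i ⬝ᵥ v) :=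
      prod_differentiable Tᶜ _ fun i => (th_entire (a i)).comp (dot_differentiable (l i))
    exact h4.continuous.continuousAt.isBigO_one ℝ
  have h4 := h2.mul h3
  simp only [mul_one] at h4
  exact h4

/-- The product of theta functions is a section. -/
theorem sec_isSection [Nonempty ι] (hh : IsHermitian h)
    (hint : ∀ u w, Lat u → Lat w → IsGau (h u w)) (b N : ℕ) {M : ℕ} (l : Fin M → ι → ℂ)
    (hl : ∀ i, Lat (l i)) (hsum : ∀ u w, N * h u w = ∑ i, (l i ⬝ᵥ u) * (starRingEnd ℂ) (l i ⬝ᵥ w))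
    (T : Finset (Fin M)) (hT : T.card = N * b) (a : Fin M → ℂ) :
    ((thB m hh hint b).pow N).IsSection (sec l T a) := by
  refine ⟨sec_differentiable l T a, fun γ v => ?_, ?_⟩
  · obtain ⟨ζ, k, -, h2, h3, h4⟩ := kum_spec γ
    have h5 : ((thB m hh hint b).pow N).e γ v =
        exp (4 * (Real.pi * kap * (ζ * h v k + h k k / 2))) ^ N := by
      rw [← thE_eq hh h4 v]; rfl
    have h4 : ∀ v, act γ v = ζ • v + k := h4
    rw [h5, h4, sec_eq, sec_eq]
    have h6 : ∀ i, th (if i ∈ T then 0 else a i) (l i ⬝ᵥ (ζ • v + k)) =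
        exp (4 * (Real.pi * kap * (ζ * ((l i ⬝ᵥ v) * (starRingEnd ℂ) (l i ⬝ᵥ k)) +
          (l i ⬝ᵥ k) * (starRingEnd ℂ) (l i ⬝ᵥ k) / 2))) *
          th (if i ∈ T then 0 else a i) (l i ⬝ᵥ v) := by
      intro i
      rw [dotProduct_add, dotProduct_smul, smul_eq_mul, th_add _ _ (lat_dot (hl i) h3),
        th_rot _ _ h2, mul_assoc ζ]
    rw [Finset.prod_congr rfl fun i _ => h6 i, Finset.prod_mul_distrib, ← exp_sum, ← exp_nat_mul]
    congr 2
    rw [← Finset.mul_sum, ← Finset.mul_sum, Finset.sum_add_distrib, ← Finset.mul_sum,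
      ← Finset.sum_div, ← hsum, ← hsum]
    ring
  · have h1 : ((thB m hh hint b).pow N).k.toNat = 4 * T.card := by
      have h2 : ((thB m hh hint b).pow N).k = N * (4 * b) := rfl
      rw [h2, hT]
      have : (N * (4 * b) : ℤ) = ((4 * (N * b) : ℕ) : ℤ) := by push_cast; ring
      rw [this, Int.toNat_natCast]
    rw [h1]
    exact sec_O l T a

theorem sec_nonvanishing [Nonempty ι] (hh : IsHermitian h)
    (hint : ∀ u w, Lat u → Lat w → IsGau (h u w)) (b N : ℕ) {M : ℕ} (l : Fin M → ι → ℂ)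
    (T : Finset (Fin M)) (hT : T.card = N * b) (a : Fin M → ℂ) (ha : ∀ i, th (a i) 0 ≠ 0)
    {u : ι → ℂ} (hu : ∀ i ∈ T, l i ⬝ᵥ u ≠ 0) :
    ((thB m hh hint b).pow N).NonvanishingAt (sec l T a) u := by
  have h1 : ((thB m hh hint b).pow N).k = ((4 * T.card : ℕ) : ℤ) := by
    have h2 : ((thB m hh hint b).pow N).k = N * (4 * b) := rfl
    rw [h2, hT]
    push_cast
    ring
  choose! d hd1 hd2 using fun i (hi : i ∈ T) => th_zero_lim (hu i hi)
  refine ⟨(∏ i ∈ T, d i) * ∏ i ∈ Tᶜ, th (a i) 0, ?_, ?_⟩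
  · exact mul_ne_zero (Finset.prod_ne_zero_iff.2 fun i hi => hd1 i hi)
      (Finset.prod_ne_zero_iff.2 fun i _ => ha i)
  · rw [h1]
    have h2 : ∀ t : ℂ, sec l T a (t • u) / t ^ ((4 * T.card : ℕ) : ℤ) =
        (∏ i ∈ T, (th 0 (t * (l i ⬝ᵥ u)) / t ^ 4)) * ∏ i ∈ Tᶜ, th (a i) (t * (l i ⬝ᵥ u)) := by
      intro t
      unfold sec
      rw [Finset.prod_div_distrib, Finset.prod_const, zpow_natCast, pow_mul]
      simp only [dotProduct_smul, smul_eq_mul]
      ring
    simp only [h2]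
    refine Tendsto.mul (tendsto_finsetProd _ fun i hi => hd2 i hi) (tendsto_finsetProd _ fun i _ => ?_)
    have h3 : Continuous fun t : ℂ => th (a i) (t * (l i ⬝ᵥ u)) := by
      have h4 : Continuous fun t : ℂ => t * (l i ⬝ᵥ u) := by fun_prop
      exact (th_entire (a i)).continuous.comp h4
    have h5 := h3.tendsto 0
    rw [zero_mul] at h5
    exact h5.mono_left nhdsWithin_le_nhds

/-- An integral multiple of `h` is a sum of squares of integral linear functions such that `b` of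
them (relative to the multiple) are not in `J`. -/
def Dec (h : (ι → ℂ) → (ι → ℂ) → ℂ) (b : ℕ) (J : Set (ι → ℂ)) : Prop :=
  ∃ (N M : ℕ) (l : Fin M → ι → ℂ), 1 ≤ N ∧ (∀ i, Lat (l i)) ∧
    (∀ u w, N * h u w = ∑ i, (l i ⬝ᵥ u) * (starRingEnd ℂ) (l i ⬝ᵥ w)) ∧
      ∃ T : Finset (Fin M), T.card = N * b ∧ ∀ i ∈ T, l i ∉ J

theorem mem_kum_trans {v : ι → ℂ} (hv : Lat v) : AffineEquiv.constVAdd ℂ (ι → ℂ) v ∈ kum ι m :=
  ⟨1, v, one_pow _, one_pow _, hv, fun w => by
    rw [one_smul, AffineEquiv.constVAdd_apply, vadd_eq_add, add_comm]⟩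

theorem semiample_of_dec [Nonempty ι] (hh : IsHermitian h)
    (hint : ∀ u w, Lat u → Lat w → IsGau (h u w)) (b : ℕ)
    (h1 : ∀ v, ¬Lat v → Dec h b {l | IsGau (l ⬝ᵥ v)})
    (h2 : ∀ u : ι → ℂ, u ≠ 0 → Dec h b {l | l ⬝ᵥ u = 0}) : (thB m hh hint b).IsSemiample := by
  refine ⟨fun v hv => ?_, fun u hu => ?_⟩
  · have hv' : ¬Lat v := by
      intro h
      apply hv ⟨_, mem_kum_trans h⟩
      show AffineEquiv.constVAdd ℂ (ι → ℂ) v 0 = v
      rw [AffineEquiv.constVAdd_apply, vadd_eq_add, add_zero]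
    obtain ⟨N, M, l, hN, hl, hsum, T, hT, hTJ⟩ := h1 v hv'
    choose a ha using fun i => exists_th_ne (l i ⬝ᵥ v)
    refine ⟨N, hN, sec l T a, sec_isSection hh hint b N l hl hsum T hT a, ?_⟩
    unfold sec
    exact mul_ne_zero (Finset.prod_ne_zero_iff.2 fun i hi => th_zero_ne (hTJ i hi))
      (Finset.prod_ne_zero_iff.2 fun i _ => ha i)
  · obtain ⟨N, M, l, hN, hl, hsum, T, hT, hTJ⟩ := h2 u hu
    obtain ⟨a, ha⟩ := exists_th_ne 0
    exact ⟨N, hN, sec l T fun _ => a, sec_isSection hh hint b N l hl hsum T hT _,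
      sec_nonvanishing hh hint b N l T hT _ (fun _ => ha) hTJ⟩

/-- There is a section which is not zero. -/
theorem section_of_dec [Nonempty ι] (hh : IsHermitian h)
    (hint : ∀ u w, Lat u → Lat w → IsGau (h u w)) (b : ℕ) (h1 : Dec h b {0}) :
    ∃ N : ℕ, 1 ≤ N ∧ ∃ s, ((thB m hh hint b).pow N).IsSection s ∧ ∃ v, s v ≠ 0 := by
  obtain ⟨N, M, l, hN, hl, hsum, T, hT, hTJ⟩ := h1
  obtain ⟨a, ha⟩ := exists_th_ne 0
  -- a vector on which the functions in `T` do not vanish
  obtain ⟨u, hu⟩ : ∃ u : ι → ℂ, ∀ i ∈ T, l i ⬝ᵥ u ≠ 0 := by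
    let sub : Fin M → Submodule ℚ (ι → ℂ) := fun i =>
      { carrier := {u | l i ⬝ᵥ u = 0}
        add_mem' := fun {u w} hu hw => by
          show l i ⬝ᵥ (u + w) = 0
          have hu' : l i ⬝ᵥ u = 0 := hu
          have hw' : l i ⬝ᵥ w = 0 := hw
          rw [dotProduct_add, hu', hw', add_zero]
        zero_mem' := dotProduct_zero _
        smul_mem' := fun c u hu => by
          show l i ⬝ᵥ (c • u) = 0
          have hu' : l i ⬝ᵥ u = 0 := hu
          rw [dotProduct_smul, hu', smul_zero] }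
    obtain ⟨u, hu⟩ := Pool.Agent.Y167.avoid T sub fun i hi htop => by
      apply hTJ i hi
      show l i = 0
      ext k
      classical
      have h2 : (Pi.single k 1 : ι → ℂ) ∈ sub i := by rw [htop]; exact Submodule.mem_top
      have h3 : l i ⬝ᵥ (Pi.single k 1) = 0 := h2
      rwa [dotProduct_single, mul_one] at h3
    exact ⟨u, fun i hi h => hu i hi h⟩
  obtain ⟨c, hc, hlim⟩ := sec_nonvanishing (m := m) hh hint b N l T hT (fun _ => a) (fun _ => ha) hu
  refine ⟨N, hN, sec l T fun _ => a, sec_isSection hh hint b N l hl hsum T hT _, ?_⟩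
  by_contra hcon
  push Not at hcon
  apply hc
  refine tendsto_nhds_unique hlim ?_
  simp only [hcon, zero_div]
  exact tendsto_const_nhds

end Pool.Agent.K6.H19.GI
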