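import Pool.Agent.K6.H19.GI.Lift

/-!
# Classes of line bundles: existence and bounds
-/

set_option autoImplicit false

namespace Pool.Agent.K6.H19.GI

open Pool.Agent.R895 (act BlBundle IsClass N1s N1 form coef integral semiample effective span nefCone
  effCone Normalizes IsPullback)

open Matrix hiding IsHermitian
open Filter Topology
open Pool.Agent.W594.SYZ2 (IsHermitian)
open Pool.Agent.W594.SYZ2.TQ (h_add_right h_smul_right h_zero_left h_zero_right)

variable {ι : Type*} [Fintype ι] {r m : ℕ} {ρ : Fin r → ι} {h : (Fin r → ℂ) → (Fin r → ℂ) → ℂ}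

/-- The data of an integral hermitian form. -/
structure Dat (h : (Fin r → ℂ) → (Fin r → ℂ) → ℂ) : Prop where
  herm : IsHermitian h
  int : ∀ u w, Lat u → Lat w → IsGau (h u w)

namespace Dat

theorem val (D : Dat h) {v : Fin r → ℂ} (hv : Lat v) : ∃ n : ℤ, (h v v).re = n := by
  obtain ⟨n, hn⟩ := (D.int v v hv hv).real (by rw [herm_real D.herm]; simp)
  exact ⟨n, by rw [hn]; simp⟩

theorem pd (D : Dat h) (hp : ∀ v, v ≠ 0 → 0 < (h v v).re) : Pd (Matrix.of (mx h)) :=
  ⟨mx_herm D.herm, fun v hv => by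
    rw [mx_q D.herm]
    exact hp _ (by rwa [star_ne_zero])⟩

theorem psd (D : Dat h) (hp : ∀ v, 0 ≤ (h v v).re) : Psd (Matrix.of (mx h)) :=
  ⟨mx_herm D.herm, fun v => by
    rw [mx_q D.herm]
    exact hp _⟩

end Dat

theorem exists_single {v : Fin r → ℂ} (hv : ¬Lat v) : ∃ l : Fin r → ℂ, IsLat l ∧ ¬IsGau (l ⬝ᵥ v) := by
  unfold Lat at hv
  push Not at hv
  obtain ⟨a, ha⟩ := hv
  exact ⟨Pi.single a 1, lat_single a, by rwa [single_dot]⟩

theorem exists_single' {v : Fin r → ℂ} (hv : v ≠ 0) : ∃ l : Fin r → ℂ, IsLat l ∧ l ⬝ᵥ v ≠ 0 := by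
  obtain ⟨a, ha⟩ := Function.ne_iff.1 hv
  exact ⟨Pi.single a 1, lat_single a, by rwa [single_dot]⟩

theorem isSub_eis (v : Fin r → ℂ) : IsSub {l : Fin r → ℂ | IsGau (l ⬝ᵥ v)} where
  zero := by
    show IsGau (0 ⬝ᵥ v)
    rw [zero_dotProduct]
    exact IsGau.zero
  add x hx y hy := by
    show IsGau ((x + y) ⬝ᵥ v)
    rw [add_dotProduct]
    exact IsGau.add hx hy
  smul a ha x hx := by
    show IsGau ((a • x) ⬝ᵥ v)
    rw [smul_dotProduct]
    exact ha.mul hx

theorem isSub_zero (v : Fin r → ℂ) : IsSub {l : Fin r → ℂ | l ⬝ᵥ v = 0} where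
  zero := zero_dotProduct v
  add x hx y hy := by
    have hx' : x ⬝ᵥ v = 0 := hx
    have hy' : y ⬝ᵥ v = 0 := hy
    show (x + y) ⬝ᵥ v = 0
    rw [add_dotProduct, hx', hy', add_zero]
  smul a _ x hx := by
    have hx' : x ⬝ᵥ v = 0 := hx
    show (a • x) ⬝ᵥ v = 0
    rw [smul_dotProduct, hx', smul_zero]

/-- The line bundle given by a form which is large on the lattice is semiample. -/
theorem semiample_thB [Nonempty ι] (hr : r = 3) (D : Dat h) (b : ℕ)
    (hp : ∀ v, v ≠ 0 → 0 < (h v v).re) (hb : ∀ v, Lat v → v ≠ 0 → (b : ℝ) < (h v v).re) :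
    (thB m (exH_herm (ρ := ρ) D.herm b) (exH_int D.int b) b).IsSemiample := by
  classical
  have hpsd : Psd (Matrix.of (mx h)) := (D.pd hp).psd
  have hmin : ∀ w, IsLat w → w ≠ 0 → (b : ℝ) + 1 ≤ q (Matrix.of (mx h)) w := by
    intro w hw hw0
    rw [mx_q D.herm]
    obtain ⟨n, hn⟩ := D.val (lat_star hw)
    have h1 := hb (star w) (lat_star hw) (by rwa [star_ne_zero])
    rw [hn] at h1 ⊢
    have h2 : (b : ℤ) < n := by exact_mod_cast h1
    have h3 : (b : ℤ) + 1 ≤ n := h2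
    exact_mod_cast h3
  have key1 : ∀ {J : Set (ι → ℂ)} {J' : Set (Fin r → ℂ)}, IsSub J' →
      (∃ l : Fin r → ℂ, IsLat l ∧ l ∉ J') → (∀ l, ext ρ l ∈ J → l ∈ J') →
      Dec (exH ρ b h) b J := by
    intro J J' hJ' hne hJ
    refine dec_of_RC (exA_mem_of b (RC.lift (J' := J') ?_ hJ)) (exH_eq D.herm b)
    exact RC_of_lt hr (D.pd hp) (mx_eis D.int) (Nat.cast_nonneg b) (lt_add_one _) hmin hJ' hne
  have key2 : ∀ {J : Set (ι → ℂ)} {i : ι}, i ∈ co ρ → Pi.single i 1 ∉ J →
      Dec (exH ρ b h) b J := by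
    intro J i hi hJ
    refine dec_of_RC (exA_mem_of' le_rfl (RC.lift (J' := Set.univ) ?_ fun _ _ => Set.mem_univ _)
      hi ?_) (exH_eq D.herm b)
    · exact RC_psd hpsd (mx_eis D.int)
    · convert hJ
  refine semiample_of_dec _ _ b (fun v hv => ?_) fun u hu => ?_
  · by_cases h1 : Lat (v ∘ ρ)
    · obtain ⟨i, hi⟩ : ∃ i, ¬IsGau (v i) := by
        by_contra hcon
        push Not at hcon
        exact hv hcon
      refine key2 (i := i) ?_ ?_
      · rw [mem_co]
        rintro a rfl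
        exact hi (h1 a)
      · show ¬IsGau (Pi.single i 1 ⬝ᵥ v)
        rwa [single_dot]
    · refine key1 (isSub_eis (v ∘ ρ)) ?_ fun l hl => ?_
      · obtain ⟨l, hl1, hl2⟩ := exists_single h1
        exact ⟨l, hl1, hl2⟩
      · have : IsGau (ext ρ l ⬝ᵥ v) := hl
        rw [ext_dot] at this
        exact this
  · by_cases h1 : u ∘ ρ = 0
    · obtain ⟨i, hi⟩ := Function.ne_iff.1 hu
      refine key2 (i := i) ?_ ?_
      · rw [mem_co]
        rintro a rfl
        exact hi (congrFun h1 a)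
      · show ¬(Pi.single i 1 ⬝ᵥ u = 0)
        rw [single_dot]
        exact hi
    · refine key1 (isSub_zero (u ∘ ρ)) ?_ fun l hl => ?_
      · obtain ⟨l, hl1, hl2⟩ := exists_single' h1
        exact ⟨l, hl1, hl2⟩
      · have : ext ρ l ⬝ᵥ u = 0 := hl
        rw [ext_dot] at this
        exact this

theorem section_thB [Nonempty ι] (hρ : Function.Injective ρ) (hr : r = 3)
    (D : Dat h) (b : ℕ)
    (hp : ∀ v, v ≠ 0 → 0 < (h v v).re) (hb : ∀ v, Lat v → v ≠ 0 → (b : ℝ) ≤ (h v v).re) :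
    ∃ N : ℕ, 1 ≤ N ∧ ∃ s,
      ((thB m (exH_herm (ρ := ρ) D.herm b) (exH_int D.int b) b).pow N).IsSection s ∧
        ∃ v, s v ≠ 0 := by
  refine section_of_dec _ _ b (dec_of_RC (exA_mem_of b (RC.lift (J' := {0}) ?_ ?_))
    (exH_eq D.herm b))
  · rcases Nat.eq_zero_or_pos b with rfl | hb0
    · rw [Nat.cast_zero]
      exact RC_psd (D.pd hp).psd (mx_eis D.int)
    · refine RC_zero hr (D.pd hp) (mx_eis D.int) (by exact_mod_cast hb0) fun w hw hw0 => ?_
      rw [mx_q D.herm]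
      exact hb (star w) (lat_star hw) (by rwa [star_ne_zero])
  · intro l hl
    have hl' : ext ρ l = 0 := hl
    show l = 0
    ext a
    rw [← ext_apply hρ l a, hl']
    rfl

theorem section_thB_zero [Nonempty ι] (D : Dat h) (hp : ∀ v, 0 ≤ (h v v).re) :
    ∃ N : ℕ, 1 ≤ N ∧ ∃ s,
      ((thB m (exH_herm (ρ := ρ) D.herm 0) (exH_int D.int 0) 0).pow N).IsSection s ∧
        ∃ v, s v ≠ 0 := by
  refine section_of_dec _ _ 0 (dec_of_RC (exA_mem_of 0 (RC.lift (J' := Set.univ) ?_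
    fun _ _ => Set.mem_univ _)) (exH_eq D.herm 0))
  rw [Nat.cast_zero]
  exact RC_psd (D.psd hp) (mx_eis D.int)

/-- The linear map `j` is the inclusion of the coordinates in the range of `ρ`. -/
def IsExt (ρ : Fin r → ι) (j : (Fin r → ℂ) →ₗ[ℂ] (ι → ℂ)) : Prop := ∀ u, j u = ext ρ u

variable {j : (Fin r → ℂ) →ₗ[ℂ] (ι → ℂ)}

theorem IsExt.comp (hj : IsExt ρ j) (hρ : Function.Injective ρ) (u : Fin r → ℂ) : j u ∘ ρ = u := by
  rw [hj]
  funext a
  exact ext_apply hρ u a

theorem IsExt.co (hj : IsExt ρ j) (u : Fin r → ℂ) {i : ι} (hi : i ∈ co ρ) : j u i = 0 := by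
  classical
  rw [hj, ext]
  rw [mem_co] at hi
  exact Finset.sum_eq_zero fun a _ => by rw [if_neg (hi a)]

theorem IsExt.inj (hj : IsExt ρ j) (hρ : Function.Injective ρ) : Function.Injective j := by
  intro u w huw
  rw [← hj.comp hρ u, ← hj.comp hρ w, huw]

theorem IsExt.lat (hj : IsExt ρ j) {u : Fin r → ℂ} (hu : Lat u) : Lat (j u) := by
  rw [hj]
  exact ext_lat hu

theorem IsExt.exH (hj : IsExt ρ j) (hρ : Function.Injective ρ) (c : ℕ) (u w : Fin r → ℂ) :
    exH ρ c h (j u) (j w) = h u w := by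
  unfold Pool.Agent.K6.H19.GI.exH
  rw [hj.comp hρ, hj.comp hρ, Finset.sum_eq_zero fun i hi => by rw [hj.co u hi, zero_mul],
    mul_zero, add_zero]

/-- The class of the line bundle. -/
theorem isClass_thB [Nonempty ι] (hj : IsExt ρ j) (hρ : Function.Injective ρ) (D : Dat h)
    (b c : ℕ) : IsClass j (thB m (exH_herm (ρ := ρ) D.herm c) (exH_int D.int c) b)
      (fun u w => 4 * kap * h u w, 4 * b) := by
  refine ⟨_, thB_chern m _ _ b, fun u w => ?_, ?_⟩
  · show 4 * kap * h u w = 4 * kap * exH ρ c h (j u) (j w)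
    rw [hj.exH hρ]
  · show (4 * b : ℝ) = ((4 * b : ℤ) : ℝ)
    push_cast
    rfl

theorem isClass_pow {L : BlBundle (kum ι m)} {x : ((Fin r → ℂ) → (Fin r → ℂ) → ℂ) × ℝ}
    (hL : IsClass j L x) (N : ℕ) : IsClass j (L.pow N) ((N : ℝ) • x) := by
  obtain ⟨H, h1, h2, h3⟩ := hL
  refine ⟨_, pow_chern h1 N, fun u w => ?_, ?_⟩
  · show (N : ℝ) • x.1 u w = _
    rw [h2, Complex.real_smul]
    push_cast
    rfl
  · show (N : ℝ) • x.2 = _
    have : (L.pow N).k = N * L.k := rfl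
    rw [this, h3, smul_eq_mul]
    push_cast
    rfl

/-- A class which is the class of a line bundle. -/
theorem mem_N1 {L : BlBundle (kum ι m)} {x : ((Fin r → ℂ) → (Fin r → ℂ) → ℂ) × ℝ}
    (hL : IsClass j L x) : ∃ y : N1 (kum ι m) j, y ∈ integral (kum ι m) j ∧ form y = x.1 ∧
      coef y = x.2 := by
  refine ⟨⟨x, Submodule.subset_span ⟨L, hL⟩⟩, ⟨L, hL⟩, rfl, rfl⟩

theorem N1_ext {x y : N1 (kum ι m) j} (h1 : form x = form y) (h2 : coef x = coef y) : x = y :=
  Subtype.ext (Prod.ext h1 h2)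

theorem form_add (x y : N1 (kum ι m) j) (u w : Fin r → ℂ) :
    form (x + y) u w = form x u w + form y u w := rfl

theorem form_smul (t : ℝ) (x : N1 (kum ι m) j) (u w : Fin r → ℂ) :
    form (t • x) u w = t * form x u w := by
  show t • form x u w = _
  rw [Complex.real_smul]

theorem form_zero (u w : Fin r → ℂ) : form (0 : N1 (kum ι m) j) u w = 0 := rfl

theorem form_sub (x y : N1 (kum ι m) j) (u w : Fin r → ℂ) :
    form (x - y) u w = form x u w - form y u w := rfl

theorem coef_add (x y : N1 (kum ι m) j) : coef (x + y) = coef x + coef y := rfl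

theorem coef_smul (t : ℝ) (x : N1 (kum ι m) j) : coef (t • x) = t * coef x := rfl

theorem coef_zero : coef (0 : N1 (kum ι m) j) = 0 := rfl

theorem coef_sub (x y : N1 (kum ι m) j) : coef (x - y) = coef x - coef y := rfl

/-- The hermitian form of a class. -/
theorem form_herm (x : N1 (kum ι m) j) : IsHermitian (form x) := by
  obtain ⟨x, hx⟩ := x
  show IsHermitian x.1
  induction hx using Submodule.span_induction with
  | mem x hx =>
    obtain ⟨L, H, hL, h1, -⟩ := hx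
    have hH := hL.1
    refine ⟨fun u v w => ?_, fun a v w => ?_, fun v w => ?_⟩
    · rw [h1, h1, h1, map_add, hH.add_left]
    · rw [h1, h1, map_smul, hH.smul_left]
    · rw [h1, h1, ← hH.symm]
  | zero => exact ⟨fun _ _ _ => by simp, fun _ _ _ => by simp, fun _ _ => by simp⟩
  | add x y _ _ h1 h2 =>
    refine ⟨fun u v w => ?_, fun a v w => ?_, fun v w => ?_⟩
    · simp only [Prod.fst_add, Pi.add_apply, h1.add_left, h2.add_left]
      ring
    · simp only [Prod.fst_add, Pi.add_apply, h1.smul_left, h2.smul_left]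
      ring
    · simp only [Prod.fst_add, Pi.add_apply, map_add, ← h1.symm, ← h2.symm]
  | smul t x _ h1 =>
    refine ⟨fun u v w => ?_, fun a v w => ?_, fun v w => ?_⟩
    · simp only [Prod.smul_fst, Pi.smul_apply, h1.add_left, Complex.real_smul]
      ring
    · simp only [Prod.smul_fst, Pi.smul_apply, h1.smul_left, Complex.real_smul]
      ring
    · simp only [Prod.smul_fst, Pi.smul_apply, Complex.real_smul, map_mul, Complex.conj_ofReal,
        ← h1.symm]

/-- The hermitian form of a class, divided by `κ`. -/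
noncomputable def frm (x : N1 (kum ι m) j) (u w : Fin r → ℂ) : ℂ := form x u w / kap

theorem kap_ne : (kap : ℂ) ≠ 0 := by exact_mod_cast kap_pos.ne'

theorem form_frm (x : N1 (kum ι m) j) (u w : Fin r → ℂ) : form x u w = kap * frm x u w := by
  unfold frm
  rw [mul_div_cancel₀ _ kap_ne]

theorem frm_add (x y : N1 (kum ι m) j) (u w : Fin r → ℂ) :
    frm (x + y) u w = frm x u w + frm y u w := by
  unfold frm
  rw [form_add, add_div]

theorem frm_sub (x y : N1 (kum ι m) j) (u w : Fin r → ℂ) :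
    frm (x - y) u w = frm x u w - frm y u w := by
  unfold frm
  rw [form_sub, sub_div]

theorem frm_smul (t : ℝ) (x : N1 (kum ι m) j) (u w : Fin r → ℂ) :
    frm (t • x) u w = t * frm x u w := by
  unfold frm
  rw [form_smul, mul_div_assoc]

theorem frm_zero (u w : Fin r → ℂ) : frm (0 : N1 (kum ι m) j) u w = 0 := by
  unfold frm
  rw [form_zero, zero_div]

theorem frm_herm (x : N1 (kum ι m) j) : IsHermitian (frm x) := by
  have h1 := form_herm x
  refine ⟨fun u v w => ?_, fun a v w => ?_, fun v w => ?_⟩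
  · unfold frm
    rw [h1.add_left, add_div]
  · unfold frm
    rw [h1.smul_left, mul_div_assoc]
  · unfold frm
    rw [map_div₀, Complex.conj_ofReal, ← h1.symm]

theorem N1_ext' {x y : N1 (kum ι m) j} (h1 : ∀ u w, frm x u w = frm y u w)
    (h2 : coef x = coef y) : x = y :=
  N1_ext (funext fun u => funext fun w => by rw [form_frm, form_frm, h1]) h2

/-- The class of an integral form. -/
theorem exists_cls [Nonempty ι] (m : ℕ) (hj : IsExt ρ j) (hρ : Function.Injective ρ) (D : Dat h)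
    (b : ℕ) : ∃ y : N1 (kum ι m) j, y ∈ integral (kum ι m) j ∧ (∀ u w, frm y u w = 4 * h u w) ∧
      coef y = 4 * b := by
  obtain ⟨y, h1, h2, h3⟩ := mem_N1 (isClass_thB (m := m) hj hρ D b b)
  refine ⟨y, h1, fun u w => ?_, h3⟩
  unfold frm
  rw [h2]
  have := kap_ne
  field_simp

theorem semiample_cls [Nonempty ι] (hj : IsExt ρ j) (hρ : Function.Injective ρ) (hr : r = 3)
    (D : Dat h) (b : ℕ) (hp : ∀ v, v ≠ 0 → 0 < (h v v).re)
    (hb : ∀ v, Lat v → v ≠ 0 → (b : ℝ) < (h v v).re) {y : N1 (kum ι m) j}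
    (h1 : ∀ u w, frm y u w = 4 * h u w) (h2 : coef y = 4 * b) : y ∈ semiample (kum ι m) j := by
  refine ⟨_, ?_, semiample_thB (ρ := ρ) hr D b hp hb⟩
  have h3 := isClass_thB (m := m) hj hρ D b b
  have h4 : (form y, coef y) = ((fun u w => 4 * kap * h u w, 4 * (b : ℝ)) :
      ((Fin r → ℂ) → (Fin r → ℂ) → ℂ) × ℝ) := by
    refine Prod.ext (funext fun u => funext fun w => ?_) h2
    show form y u w = 4 * kap * h u w
    rw [form_frm, h1]
    ring
  rw [h4]
  exact h3

theorem effective_cls [Nonempty ι] (hj : IsExt ρ j) (hρ : Function.Injective ρ) (hr : r = 3) (D : Dat h) (b : ℕ)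
    (hb : (∀ v, v ≠ 0 → 0 < (h v v).re) ∧ (∀ v, Lat v → v ≠ 0 → (b : ℝ) ≤ (h v v).re) ∨
      b = 0 ∧ ∀ v, 0 ≤ (h v v).re) {y : N1 (kum ι m) j}
    (h1 : ∀ u w, frm y u w = 4 * h u w) (h2 : coef y = 4 * b) :
    ∃ N : ℕ, 1 ≤ N ∧ (N : ℝ) • y ∈ effective (kum ι m) j := by
  have h4 : (form y, coef y) = ((fun u w => 4 * kap * h u w, 4 * (b : ℝ)) :
      ((Fin r → ℂ) → (Fin r → ℂ) → ℂ) × ℝ) := by
    refine Prod.ext (funext fun u => funext fun w => ?_) h2
    show form y u w = 4 * kap * h u w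
    rw [form_frm, h1]
    ring
  have key : ∃ N : ℕ, 1 ≤ N ∧ ∃ s,
      ((thB m (exH_herm (ρ := ρ) D.herm b) (exH_int D.int b) b).pow N).IsSection s ∧
        ∃ v, s v ≠ 0 := by
    rcases hb with ⟨hb1, hb2⟩ | ⟨rfl, hb⟩
    · exact section_thB hρ hr D b hb1 hb2
    · exact section_thB_zero D hb
  obtain ⟨N, hN, s, hs, h0⟩ := key
  refine ⟨N, hN, _, s, ?_, hs, h0⟩
  have h3 := isClass_pow (isClass_thB (m := m) hj hρ D b b) N
  rw [← h4] at h3
  exact h3

/-- A class in the group generated by the integral classes is given by an integral form. -/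
theorem eis_of_mem (hj : IsExt ρ j) {x : N1 (kum ι m) j}
    (hx : x ∈ AddSubgroup.closure (integral (kum ι m) j)) : Dat (frm x) ∧ ∃ n : ℤ, coef x = n := by
  induction hx using AddSubgroup.closure_induction with
  | mem x hx =>
    obtain ⟨L, H, hL, h1, h2⟩ := hx
    refine ⟨⟨frm_herm x, fun u w hu hw => ?_⟩, L.k, h2⟩
    have h3 := chern_eis hL (hj.lat hu) (hj.lat hw)
    unfold frm
    have h4 : form x u w = H (j u) (j w) := h1 u w
    rw [h4]
    exact h3
  | zero =>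
    refine ⟨⟨frm_herm _, fun u w _ _ => ?_⟩, 0, by simp [coef_zero]⟩
    rw [frm_zero]
    exact IsGau.zero
  | add x y _ _ h1 h2 =>
    obtain ⟨h1, a, ha⟩ := h1
    obtain ⟨h2, b, hb⟩ := h2
    refine ⟨⟨frm_herm _, fun u w hu hw => ?_⟩, a + b, by rw [coef_add, ha, hb]; push_cast; rfl⟩
    rw [frm_add]
    exact (h1.int u w hu hw).add (h2.int u w hu hw)
  | neg x _ h1 =>
    obtain ⟨h1, a, ha⟩ := h1
    have e : -x = (-1 : ℝ) • x := by rw [neg_one_smul]
    refine ⟨⟨frm_herm _, fun u w hu hw => ?_⟩, -a, by rw [e, coef_smul, ha]; push_cast; ring⟩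
    rw [e, frm_smul]
    have : ((-1 : ℝ) : ℂ) * frm x u w = -frm x u w := by push_cast; ring
    rw [this]
    exact (h1.int u w hu hw).neg

/-- The cone which will turn out to be the nef cone. -/
def Nf (m : ℕ) (j : (Fin r → ℂ) →ₗ[ℂ] (ι → ℂ)) : Set (N1 (kum ι m) j) :=
  {x | (∀ v, 0 ≤ (frm x v v).re) ∧ 0 ≤ coef x ∧ ∀ v, Lat v → v ≠ 0 → coef x ≤ (frm x v v).re}

theorem re_kap_div (z : ℂ) : (z / kap).re = z.re / kap := by
  rw [Complex.div_ofReal_re]

theorem frm_psd (x : N1 (kum ι m) j) (hx : ∀ v, Lat v → 0 ≤ (frm x v v).re)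
    (v : Fin r → ℂ) : 0 ≤ (frm x v v).re := nonneg_of_lat (frm_herm x) hx v

theorem semiample_Nf [Nonempty ι] (hj : IsExt ρ j) (hρ : Function.Injective ρ)
    {x : N1 (kum ι m) j} (hx : x ∈ semiample (kum ι m) j) : x ∈ Nf m j := by
  obtain ⟨L, ⟨H, hL, h1, h2⟩, hs⟩ := hx
  have h2' : coef x = L.k := h2
  have h0 := semiample_nonneg hs
  have h0' : (0 : ℝ) ≤ L.k := by exact_mod_cast h0
  have h3 : ∀ v, Lat v → v ≠ 0 → coef x ≤ (frm x v v).re := by
    intro v hv hv0
    have h4 := semiample_le hL hs (hj.lat hv) (fun h => hv0 (hj.inj hρ (by rw [h, map_zero])))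
    have h5 : form x v v = H (j v) (j v) := h1 v v
    unfold frm
    rw [re_kap_div, h5, le_div_iff₀ kap_pos, h2', mul_comm]
    exact h4
  refine ⟨frm_psd x fun v hv => ?_, by rw [h2']; exact h0', h3⟩
  by_cases hv0 : v = 0
  · rw [hv0, h_zero_left (frm_herm x)]
    simp
  · exact le_trans (by rw [h2']; exact h0') (h3 v hv hv0)

theorem effective_psd (hj : IsExt ρ j) {x : N1 (kum ι m) j}
    (hx : x ∈ effective (kum ι m) j) (v : Fin r → ℂ) : 0 ≤ (frm x v v).re := by
  obtain ⟨L, s, ⟨H, hL, h1, h2⟩, hs, h0⟩ := hx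
  refine frm_psd x (fun v hv => ?_) v
  have h5 : form x v v = H (j v) (j v) := h1 v v
  unfold frm
  rw [re_kap_div, h5]
  exact div_nonneg (chern_lat_nonneg hL hs h0 (hj.lat hv)) kap_pos.le

end Pool.Agent.K6.H19.GI
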