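import Pool.Agent.K6.H19.GI.Gau
import Pool.Agent.R895.Defs

/-!
# The lattice of Gaussian vectors and its rotations

Line bundles on blow-ups of quotients of complex tori, their sections and classes are defined in
`Pool.Agent.R895.Defs`.
-/

set_option autoImplicit false

namespace Pool.Agent.K6.H19.GI

open Pool.Agent.Y167 (AffGrp)

/-- A vector whose coordinates are Gaussian integers. -/
def Lat {ι : Type*} (v : ι → ℂ) : Prop := ∀ i, IsGau (v i)

variable {V : Type*} [NormedAddCommGroup V] [NormedSpace ℂ V]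

/-- `f` is of the form `v ↦ ζ v + l` where `ζ ^ m = 1` and `l ∈ Λ`. We also ask that `ζ ^ 4 = 1`, but
this follows from `ζ ^ m = 1` if `m ∣ 4`. -/
def IsRot (Λ : Set V) (m : ℕ) (f : V ≃ᵃ[ℂ] V) : Prop :=
  ∃ (ζ : ℂ) (l : V), ζ ^ m = 1 ∧ ζ ^ 4 = 1 ∧ l ∈ Λ ∧ ∀ v, f v = ζ • v + l

/-- `Λ` contains `0` and is closed under addition and multiplication with the fourth roots of unity. -/
structure IsLattice (Λ : Set V) : Prop where
  zero : 0 ∈ Λ
  add : ∀ k ∈ Λ, ∀ l ∈ Λ, k + l ∈ Λ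
  smul : ∀ ζ : ℂ, ζ ^ 4 = 1 → ∀ l ∈ Λ, ζ • l ∈ Λ

theorem IsLattice.neg {Λ : Set V} (h : IsLattice Λ) {l : V} (hl : l ∈ Λ) : -l ∈ Λ := by
  have h1 := h.smul (-1) (by norm_num) l hl
  rwa [neg_one_smul] at h1

theorem isRot_one {Λ : Set V} {m : ℕ} (h : IsLattice Λ) : IsRot Λ m 1 :=
  ⟨1, 0, one_pow _, one_pow _, h.zero, fun v => by rw [one_smul, add_zero]; rfl⟩

theorem isRot_mul {Λ : Set V} {m : ℕ} (h : IsLattice Λ) {f g : V ≃ᵃ[ℂ] V} (hf : IsRot Λ m f)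
    (hg : IsRot Λ m g) : IsRot Λ m (f * g) := by
  obtain ⟨ζ, l, h1, h2, h3, h4⟩ := hf
  obtain ⟨ξ, k, h5, h6, h7, h8⟩ := hg
  refine ⟨ζ * ξ, ζ • k + l, by rw [mul_pow, h1, h5, one_mul], by rw [mul_pow, h2, h6, one_mul],
    h.add _ (h.smul ζ h2 k h7) _ h3, fun v => ?_⟩
  have : (f * g) v = f (g v) := rfl
  rw [this, h8, h4, smul_add, smul_smul, add_assoc]

theorem isRot_inv {Λ : Set V} {m : ℕ} (h : IsLattice Λ) {f : V ≃ᵃ[ℂ] V} (hf : IsRot Λ m f) :
    IsRot Λ m f⁻¹ := by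
  obtain ⟨ζ, l, h1, h2, h3, h4⟩ := hf
  have h0 : ζ ≠ 0 := by
    rintro rfl
    simp at h2
  refine ⟨ζ⁻¹, -(ζ⁻¹ • l), by rw [inv_pow, h1, inv_one], by rw [inv_pow, h2, inv_one],
    h.neg (h.smul _ (by rw [inv_pow, h2, inv_one]) _ h3), fun v => ?_⟩
  apply f.injective
  have : f (f⁻¹ v) = v := f.apply_symm_apply v
  rw [this, h4, smul_add, smul_smul, mul_inv_cancel₀ h0, one_smul, smul_neg, smul_smul,
    mul_inv_cancel₀ h0, one_smul, neg_add_cancel_right]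

/-- The group of the affine transformations `v ↦ ζ v + l` of `V` where `ζ ^ m = 1` and `l ∈ Λ`. -/
def rotGrp {Λ : Set V} (h : IsLattice Λ) (m : ℕ) : AffGrp V where
  carrier := {f | IsRot Λ m f}
  one_mem' := isRot_one h
  mul_mem' := isRot_mul h
  inv_mem' := isRot_inv h

theorem isLattice_lat (ι : Type*) [Fintype ι] : IsLattice {v : ι → ℂ | Lat v} where
  zero := fun _ => IsGau.zero
  add := fun _ hk _ hl i => (hk i).add (hl i)
  smul := fun _ hζ _ hl i => (IsGau.of_pow_four hζ).mul (hl i)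

/-- The group of the affine transformations `v ↦ ζ v + l` of `ℂ^ι`, where `ζ ^ m = 1` and `l` is a
vector of Gaussian integers, for `m ∣ 4`. The quotient of `ℂ^ι` by this group is `E^ι / μ_m` where
`E = ℂ / ℤ[ω]`. -/
noncomputable def kum (ι : Type*) [Fintype ι] (m : ℕ) : AffGrp (ι → ℂ) := rotGrp (isLattice_lat ι) m

end Pool.Agent.K6.H19.GI
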