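import Pool.Agent.K6.H19.GI.Red

/-!
# Cones of sums of squares of integral linear functions
-/

set_option autoImplicit false

namespace Pool.Agent.K6.H19.GI

open Matrix Filter Topology

variable {ι : Type*} [Fintype ι]

/-- The matrix `l l*` as a function. -/
noncomputable def sq (l : ι → ℂ) : ι → ι → ℂ := fun i j => l i * star (l j)

/-- The pairs `(A, β)` such that a positive integral multiple of `A` is a sum of matrices `l l*`,
with `l` integral, of which at least `β` (relative to the multiple) are not in `J`. -/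
def RC (J : Set (ι → ℂ)) : Set ((ι → ι → ℂ) × ℝ) :=
  {x | ∃ (N : ℕ) (S : Multiset (ι → ℂ)), 1 ≤ N ∧ (∀ l ∈ S, IsLat l) ∧
    (N : ℝ) • x.1 = (S.map sq).sum ∧ ∃ T ≤ S, (∀ l ∈ T, l ∉ J) ∧ (N : ℝ) * x.2 ≤ T.card}

variable {J : Set (ι → ℂ)}

namespace RC

theorem zero_mem : (0 : (ι → ι → ℂ) × ℝ) ∈ RC J :=
  ⟨1, 0, le_refl _, by simp, by simp, 0, le_refl _, by simp, by simp⟩

theorem map_sum_nsmul (k : ℕ) (S : Multiset (ι → ℂ)) :
    ((k • S).map sq).sum = (k : ℝ) • (S.map sq).sum := by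
  rw [Multiset.map_nsmul, Multiset.sum_nsmul, Nat.cast_smul_eq_nsmul]

theorem add {x y : (ι → ι → ℂ) × ℝ} (hx : x ∈ RC J) (hy : y ∈ RC J) : x + y ∈ RC J := by
  obtain ⟨N, S, h1, h2, h3, T, h4, h5, h6⟩ := hx
  obtain ⟨M, U, k1, k2, k3, V, k4, k5, k6⟩ := hy
  refine ⟨N * M, M • S + N • U, Nat.mul_pos h1 k1, ?_, ?_, M • T + N • V, ?_, ?_, ?_⟩
  · intro l hl
    rcases Multiset.mem_add.1 hl with h | h
    · exact h2 l (Multiset.mem_of_mem_nsmul h)
    · exact k2 l (Multiset.mem_of_mem_nsmul h)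
  · rw [Multiset.map_add, Multiset.sum_add, map_sum_nsmul, map_sum_nsmul, ← h3, ← k3]
    rw [Prod.fst_add, smul_add, smul_smul, smul_smul]
    push_cast
    congr 2
    rw [mul_comm]
  · exact add_le_add (nsmul_le_nsmul_right h4 M) (nsmul_le_nsmul_right k4 N)
  · intro l hl
    rcases Multiset.mem_add.1 hl with h | h
    · exact h5 l (Multiset.mem_of_mem_nsmul h)
    · exact k5 l (Multiset.mem_of_mem_nsmul h)
  · rw [Multiset.card_add, Multiset.card_nsmul, Multiset.card_nsmul, Prod.snd_add]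
    push_cast
    have hN : (0 : ℝ) ≤ N := Nat.cast_nonneg _
    have hM : (0 : ℝ) ≤ M := Nat.cast_nonneg _
    nlinarith [mul_le_mul_of_nonneg_left h6 hM, mul_le_mul_of_nonneg_left k6 hN]

theorem nsmul (k : ℕ) {x : (ι → ι → ℂ) × ℝ} (hx : x ∈ RC J) : (k : ℝ) • x ∈ RC J := by
  obtain ⟨N, S, h1, h2, h3, T, h4, h5, h6⟩ := hx
  refine ⟨N, k • S, h1, fun l hl => h2 l (Multiset.mem_of_mem_nsmul hl), ?_, k • T,
    nsmul_le_nsmul_right h4 k, fun l hl => h5 l (Multiset.mem_of_mem_nsmul hl), ?_⟩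
  · rw [map_sum_nsmul, ← h3, Prod.smul_fst, smul_comm]
  · rw [Multiset.card_nsmul, Prod.smul_snd, smul_eq_mul]
    push_cast
    have hk : (0 : ℝ) ≤ k := Nat.cast_nonneg _
    nlinarith [mul_le_mul_of_nonneg_left h6 hk]

theorem of_nsmul {k : ℕ} (hk : 1 ≤ k) {x : (ι → ι → ℂ) × ℝ} (hx : (k : ℝ) • x ∈ RC J) :
    x ∈ RC J := by
  obtain ⟨N, S, h1, h2, h3, T, h4, h5, h6⟩ := hx
  refine ⟨N * k, S, Nat.mul_pos h1 hk, h2, ?_, T, h4, h5, ?_⟩
  · rw [← h3, Prod.smul_fst, smul_smul]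
    push_cast
    rfl
  · rw [Prod.smul_snd, smul_eq_mul] at h6
    push_cast
    linarith

theorem mono {A : ι → ι → ℂ} {β β' : ℝ} (hx : (A, β) ∈ RC J) (h : β' ≤ β) :
    (A, β') ∈ RC J := by
  obtain ⟨N, S, h1, h2, h3, T, h4, h5, h6⟩ := hx
  refine ⟨N, S, h1, h2, h3, T, h4, h5, le_trans ?_ h6⟩
  exact mul_le_mul_of_nonneg_left h (Nat.cast_nonneg _)

theorem sum {κ : Type*} (s : Finset κ) (f : κ → (ι → ι → ℂ) × ℝ)
    (h : ∀ i ∈ s, f i ∈ RC J) : ∑ i ∈ s, f i ∈ RC J := by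
  classical
  induction s using Finset.induction_on with
  | empty => simpa using zero_mem
  | insert i s hi ih =>
    rw [Finset.sum_insert hi]
    exact add (h i (Finset.mem_insert_self _ _)) (ih fun j hj => h j (Finset.mem_insert_of_mem hj))

theorem sq_mem {l : ι → ℂ} (hl : IsLat l) : (sq l, (0 : ℝ)) ∈ RC J :=
  ⟨1, {l}, le_refl _, by simpa using hl, by simp, 0, by simp, by simp, by simp⟩

theorem sq_mem' {l : ι → ℂ} (hl : IsLat l) (hJ : l ∉ J) : (sq l, (1 : ℝ)) ∈ RC J :=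
  ⟨1, {l}, le_refl _, by simpa using hl, by simp, {l}, le_refl _, by simpa using hJ, by simp⟩

theorem sq_smul {l : ι → ℂ} (hl : IsLat l) (k : ℕ) : ((k : ℝ) • sq l, (0 : ℝ)) ∈ RC J := by
  have := nsmul k (sq_mem (J := J) hl)
  simpa using this

theorem neg_one_mem : ((0 : ι → ι → ℂ), (-1 : ℝ)) ∈ RC J :=
  mono (zero_mem (J := J)) (by norm_num : (-1 : ℝ) ≤ 0)

end RC

/-- The closure of `RC J` is a convex cone. -/
theorem closure_add {x y : (ι → ι → ℂ) × ℝ} (hx : x ∈ closure (RC J))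
    (hy : y ∈ closure (RC J)) : x + y ∈ closure (RC J) :=
  map_mem_closure₂ continuous_add hx hy fun _ ha _ hb => RC.add ha hb

theorem closure_smul {x : (ι → ι → ℂ) × ℝ} (hx : x ∈ closure (RC J)) {t : ℝ}
    (ht : 0 ≤ t) : t • x ∈ closure (RC J) := by
  have h1 : t ∈ closure {s : ℝ | ∃ p k : ℕ, 1 ≤ k ∧ s = p / k} := by
    rw [Metric.mem_closure_iff]
    intro ε hε
    obtain ⟨k, hk⟩ := exists_nat_gt (1 / ε)
    have hk0 : (0 : ℝ) < k := lt_trans (by positivity) hk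
    refine ⟨(⌊t * k⌋₊ : ℝ) / k, ⟨⌊t * k⌋₊, k, by exact_mod_cast hk0, rfl⟩, ?_⟩
    rw [Real.dist_eq, abs_lt]
    have h2 := Nat.floor_le (mul_nonneg ht hk0.le)
    have h3 := Nat.lt_floor_add_one (t * k)
    have h4 : (⌊t * k⌋₊ : ℝ) / k ≤ t := by rw [div_le_iff₀ hk0]; exact h2
    have h5 : t < (⌊t * k⌋₊ : ℝ) / k + 1 / k := by
      rw [← add_div, lt_div_iff₀ hk0]; exact h3
    have h6 : 1 / (k : ℝ) < ε := by
      rw [div_lt_iff₀ hk0]
      rw [div_lt_iff₀ hε] at hk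
      linarith
    constructor <;> linarith
  refine map_mem_closure₂ continuous_smul h1 hx ?_
  rintro _ ⟨p, k, hk, rfl⟩ y hy
  refine RC.of_nsmul hk ?_
  have hk0 : (k : ℝ) ≠ 0 := by
    have : (0 : ℝ) < k := by exact_mod_cast hk
    exact this.ne'
  rw [smul_smul, mul_div_cancel₀ _ hk0]
  exact RC.nsmul p hy

theorem closure_convex : Convex ℝ (closure (RC J)) := by
  intro x hx y hy a b ha hb _
  exact closure_add (closure_smul hx ha) (closure_smul hy hb)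

end Pool.Agent.K6.H19.GI
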