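import Pool.Agent.K6.H19.GI.LemB
import Pool.Agent.K6.H19.GI.RCone

/-!
# Sums of squares of integral linear functions
-/

set_option autoImplicit false

namespace Pool.Agent.K6.H19.GI

open Matrix Filter Topology

variable {n : ℕ}

variable {J : Set (Fin n → ℂ)}

/-- A real linear functional on hermitian matrices is given by a hermitian matrix. -/
theorem exists_matrix (φ : (Fin n → Fin n → ℂ) →ₗ[ℝ] ℝ) : ∃ M : Matrix (Fin n) (Fin n) ℂ,
    M.IsHermitian ∧ ∀ A : Matrix (Fin n) (Fin n) ℂ, A.IsHermitian →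
      φ (fun i j => A i j) = (M * A).trace.re := by
  classical
  let u : Fin n → Fin n → ℂ → (Fin n → Fin n → ℂ) := fun i j c => Pi.single i (Pi.single j c)
  let P : Matrix (Fin n) (Fin n) ℂ := fun j i => ⟨φ (u i j 1), -φ (u i j Complex.I)⟩
  have h1 : ∀ A : Fin n → Fin n → ℂ, A = ∑ i, ∑ j,
      ((A i j).re • u i j 1 + (A i j).im • u i j Complex.I) := by
    intro A
    ext i j
    simp only [Finset.sum_apply, Pi.add_apply, Pi.smul_apply, u]
    rw [Finset.sum_eq_single i, Finset.sum_eq_single j]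
    · simp only [Pi.single_eq_same]
      apply Complex.ext <;> simp
    · intro k _ hk
      simp [Pi.single_eq_of_ne hk.symm]
    · intro h; exact absurd (Finset.mem_univ _) h
    · intro k _ hk
      refine Finset.sum_eq_zero fun j' _ => ?_
      simp [Pi.single_eq_of_ne hk.symm]
    · intro h; exact absurd (Finset.mem_univ _) h
  have h2 : ∀ A : Matrix (Fin n) (Fin n) ℂ, φ (fun i j => A i j) = (P * A).trace.re := by
    intro A
    rw [h1 fun i j => A i j, map_sum, Matrix.trace, Complex.re_sum]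
    simp only [map_sum, map_add, map_smul, smul_eq_mul, diag_apply, mul_apply, Complex.re_sum,
      Complex.mul_re]
    rw [Finset.sum_comm]
    refine Finset.sum_congr rfl fun j _ => Finset.sum_congr rfl fun i _ => ?_
    simp only [P]
    ring
  refine ⟨((1 / 2 : ℝ) : ℂ) • (P + Pᴴ), ?_, fun A hA => ?_⟩
  · unfold IsHermitian
    rw [conjTranspose_smul, conjTranspose_add, conjTranspose_conjTranspose, add_comm Pᴴ]
    congr 1
    exact Complex.conj_ofReal _
  · have h3 : (Pᴴ * A).trace = star (P * A).trace := by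
      rw [← trace_conjTranspose, conjTranspose_mul, hA.eq, trace_mul_comm]
    rw [h2, Matrix.smul_mul, trace_smul, smul_eq_mul, Complex.re_ofReal_mul, Matrix.add_mul,
      trace_add, h3, Complex.add_re]
    have h4 : (star (P * A).trace).re = (P * A).trace.re := rfl
    rw [h4]
    ring

theorem sq_isHermitian (l : Fin n → ℂ) : (vecMulVec l (star l)).IsHermitian := by
  unfold IsHermitian
  rw [conjTranspose_vecMulVec, star_star]

theorem sq_eq (l : Fin n → ℂ) : sq l = fun i j => (vecMulVec l (star l)) i j := by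
  funext i j
  rw [vecMulVec_apply, Pi.star_apply]
  rfl

/-- A form which is nonnegative on the lattice is positive semidefinite. -/
theorem psd_of_lat {M : Matrix (Fin n) (Fin n) ℂ} (hM : M.IsHermitian)
    (h : ∀ v, IsLat v → 0 ≤ q M v) : Psd M := by
  refine ⟨hM, fun v => ?_⟩
  choose a ha1 ha2 using fun (k : ℕ) (i : Fin n) => exists_near (((k : ℂ) + 1) * v i)
  set u : ℕ → Fin n → ℂ := fun k => ((k : ℂ) + 1)⁻¹ • a k with hu
  have hn0 : ∀ n : ℕ, ((n : ℂ) + 1) ≠ 0 := fun n => by exact_mod_cast Nat.succ_ne_zero n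
  have hlim : Tendsto u atTop (𝓝 v) := by
    rw [tendsto_pi_nhds]
    intro i
    rw [tendsto_iff_norm_sub_tendsto_zero]
    refine squeeze_zero (fun _ => norm_nonneg _) (fun k => ?_)
      (tendsto_one_div_add_atTop_nhds_zero_nat (𝕜 := ℝ))
    have h1 : u k i - v i = -(((k : ℂ) + 1)⁻¹ * (((k : ℂ) + 1) * v i - a k i)) := by
      simp only [hu, Pi.smul_apply, smul_eq_mul]
      have := hn0 k
      field_simp
      ring
    have h2 : ‖((k : ℂ) + 1) * v i - a k i‖ ≤ 1 := by
      have h3 := ha2 k i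
      rw [Complex.normSq_eq_norm_sq] at h3
      nlinarith [norm_nonneg (((k : ℂ) + 1) * v i - a k i)]
    have h3 : ‖((k : ℂ) + 1)⁻¹‖ = 1 / ((k : ℝ) + 1) := by
      rw [norm_inv, one_div]
      congr 1
      have : ((k : ℂ) + 1) = (((k : ℝ) + 1 : ℝ) : ℂ) := by push_cast; rfl
      rw [this, Complex.norm_real, Real.norm_of_nonneg (by positivity)]
    rw [h1, norm_neg, norm_mul, h3]
    calc 1 / ((k : ℝ) + 1) * ‖((k : ℂ) + 1) * v i - a k i‖ ≤ 1 / ((k : ℝ) + 1) * 1 :=
          mul_le_mul_of_nonneg_left h2 (by positivity)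
      _ = _ := mul_one _
  have h1 : Tendsto (fun k => q M (u k)) atTop (𝓝 (q M v)) :=
    ((continuous_q M).tendsto v).comp hlim
  refine ge_of_tendsto' h1 fun k => ?_
  simp only [hu]
  rw [q_smul_vec]
  exact mul_nonneg (Complex.normSq_nonneg _) (h _ (ha1 k))

/-- The trace of the product of a positive semidefinite and a positive definite matrix. -/
theorem trace_nonneg {M H : Matrix (Fin n) (Fin n) ℂ} (hM : Psd M) (hH : Pd H) :
    0 ≤ (M * H).trace.re := by
  obtain ⟨g, x, m, hg, hm, hch, hd, hz, hsz, hdec⟩ := exists_red n H hH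
  obtain ⟨g', h1, h2, h3⟩ := hg.inv
  rw [trace_mul_comm, trace_dec h2 hdec M]
  refine Finset.sum_nonneg fun i _ => mul_nonneg (hm i).le ?_
  have h4 : g' * M * g'ᴴ = g'ᴴᴴ * M * g'ᴴ := by rw [conjTranspose_conjTranspose]
  rw [h4, q_conj]
  exact hM.2 _

/-- The separation argument. -/
theorem mem_closure_RC {H : Matrix (Fin n) (Fin n) ℂ} (hH : Pd H) {g b : ℝ} (hb : b ≤ g)
    (hLB : ∀ M : Matrix (Fin n) (Fin n) ℂ, Psd M → (∀ v, IsLat v → v ∉ J → 1 ≤ q M v) →
      g ≤ (M * H).trace.re) : ((fun i j => H i j : Fin n → Fin n → ℂ), b) ∈ closure (RC J) := by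
  by_contra hcon
  obtain ⟨f, u, hf1, hf2⟩ := geometric_hahn_banach_closed_point closure_convex isClosed_closure hcon
  have h0 : (0 : (Fin n → Fin n → ℂ) × ℝ) ∈ closure (RC J) := subset_closure RC.zero_mem
  have hu : 0 < u := by
    have := hf1 0 h0
    rwa [map_zero] at this
  have hneg : ∀ a ∈ closure (RC J), f a ≤ 0 := by
    intro a ha
    by_contra h
    push Not at h
    have h1 := hf1 _ (closure_smul ha (div_nonneg hu.le h.le))
    rw [map_smul, smul_eq_mul, div_mul_cancel₀ _ h.ne'] at h1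
    exact lt_irrefl _ h1
  let φ : (Fin n → Fin n → ℂ) →ₗ[ℝ] ℝ :=
    -((f : (Fin n → Fin n → ℂ) × ℝ →L[ℝ] ℝ).toLinearMap ∘ₗ LinearMap.inl ℝ _ _)
  have hφ : ∀ A, φ A = -f (A, 0) := fun A => rfl
  set s : ℝ := f (0, 1) with hs
  have hsplit : ∀ A β, f (A, β) = -φ A + β * s := by
    intro A β
    have h1 : ((A, β) : (Fin n → Fin n → ℂ) × ℝ) = (A, 0) + β • (0, 1) := by
      simp
    rw [h1, map_add, map_smul, hφ, smul_eq_mul]
    ring
  have hs0 : 0 ≤ s := by
    have h1 := hneg _ (subset_closure (RC.neg_one_mem (J := J)))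
    rw [hsplit, map_zero] at h1
    linarith
  obtain ⟨M, hMh, hM⟩ := exists_matrix φ
  have hqM : ∀ l, φ (sq l) = q M l := by
    intro l
    rw [sq_eq, hM _ (sq_isHermitian l), trace_mul_comm, trace_vec]
    rfl
  have hq0 : ∀ l, IsLat l → 0 ≤ q M l := by
    intro l hl
    have h1 := hneg _ (subset_closure (RC.sq_mem (J := J) hl))
    rw [hsplit, hqM] at h1
    linarith
  have hq1 : ∀ l, IsLat l → l ∉ J → s ≤ q M l := by
    intro l hl hlJ
    have h1 := hneg _ (subset_closure (RC.sq_mem' hl hlJ))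
    rw [hsplit, hqM] at h1
    linarith
  have hMpsd := psd_of_lat hMh hq0
  rw [hsplit, hM H hH.1] at hf2
  rcases hs0.eq_or_lt with h | h
  · rw [← h] at hf2
    have := trace_nonneg hMpsd hH
    linarith
  · have h1 := hLB (((1 / s : ℝ) : ℂ) • M) ⟨by
        unfold IsHermitian
        rw [conjTranspose_smul, hMh.eq]
        congr 1
        exact Complex.conj_ofReal _, fun v => by
        rw [q_smul]
        exact mul_nonneg (by positivity) (hMpsd.2 v)⟩ (fun v hv hvJ => by
        rw [q_smul, one_div, inv_mul_eq_div, le_div_iff₀ h, one_mul]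
        exact hq1 v hv hvJ)
    rw [Matrix.smul_mul, trace_smul, smul_eq_mul, Complex.re_ofReal_mul, one_div,
      inv_mul_eq_div, le_div_iff₀ h] at h1
    nlinarith

end Pool.Agent.K6.H19.GI
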