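import Pool.Agent.K6.H19.GI.Dual

/-!
# Rational decompositions
-/

set_option autoImplicit false

namespace Pool.Agent.K6.H19.GI

open Matrix Filter Topology

variable {n : ℕ} {J : Set (Fin n → ℂ)}

/-- The coordinate function of the basis vector `i`. -/
noncomputable def dl (i : Fin n) : Fin n → ℂ := fun a => if a = i then 1 else 0

theorem dl_lat (i : Fin n) : IsLat (dl i) := fun a => by
  unfold dl
  split_ifs
  · exact IsGau.one
  · exact IsGau.zero

theorem add_lat {u v : Fin n → ℂ} (hu : IsLat u) (hv : IsLat v) : IsLat (u + v) :=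
  fun i => (hu i).add (hv i)

theorem smul_lat {c : ℂ} {v : Fin n → ℂ} (hc : IsGau c) (hv : IsLat v) : IsLat (c • v) :=
  fun i => hc.mul (hv i)

theorem star_dl (i a : Fin n) : star (dl i a) = dl i a := by
  unfold dl
  split_ifs <;> simp

theorem sq_pair (i j : Fin n) (c : ℂ) (hc : c * star c = 1) : sq (dl i + c • dl j) = fun a b =>
    (dl i a * dl i b + dl j a * dl j b) + star c * (dl i a * dl j b) + c * (dl j a * dl i b) := by
  funext a b
  unfold sq
  rw [Pi.add_apply, Pi.add_apply, Pi.smul_apply, Pi.smul_apply, star_add, smul_eq_mul, smul_eq_mul,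
    star_mul', star_dl, star_dl]
  linear_combination (dl j a * dl j b) * hc

theorem pair_x (i j : Fin n) (x : ℤ) : ∃ l : Fin n → ℂ, IsLat l ∧
    (x.natAbs : ℝ) • sq l = fun a b => (((x.natAbs : ℕ) : ℝ) : ℂ) * (dl i a * dl i b + dl j a * dl j b)
      + x * (dl i a * dl j b) + x * (dl j a * dl i b) := by
  rcases le_total 0 x with h | h
  · refine ⟨dl i + (1 : ℂ) • dl j, add_lat (dl_lat i) (smul_lat IsGau.one (dl_lat j)), ?_⟩
    rw [sq_pair i j 1 (by simp)]
    have h1 : (((x.natAbs : ℕ) : ℝ) : ℂ) = x := by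
      have : ((x.natAbs : ℕ) : ℤ) = x := Int.natAbs_of_nonneg h
      have h2 : ((x.natAbs : ℕ) : ℂ) = ((x.natAbs : ℤ) : ℂ) := by simp
      rw [Complex.ofReal_natCast, h2, this]
    funext a b
    rw [Pi.smul_apply, Pi.smul_apply, Complex.real_smul, h1]
    simp
    ring
  · refine ⟨dl i + (-1 : ℂ) • dl j, add_lat (dl_lat i) (smul_lat IsGau.one.neg (dl_lat j)), ?_⟩
    rw [sq_pair i j (-1) (by simp)]
    have h1 : (((x.natAbs : ℕ) : ℝ) : ℂ) = -x := by
      have : ((x.natAbs : ℕ) : ℤ) = -x := by omega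
      have h2 : ((x.natAbs : ℕ) : ℂ) = ((x.natAbs : ℤ) : ℂ) := by simp
      rw [Complex.ofReal_natCast, h2, this]
      push_cast
      rfl
    funext a b
    rw [Pi.smul_apply, Pi.smul_apply, Complex.real_smul, h1]
    simp
    ring

theorem pair_y (i j : Fin n) (y : ℤ) : ∃ l : Fin n → ℂ, IsLat l ∧
    (y.natAbs : ℝ) • sq l = fun a b => (((y.natAbs : ℕ) : ℝ) : ℂ) * (dl i a * dl i b + dl j a * dl j b)
      + y * om * (dl i a * dl j b) + y * (star om) * (dl j a * dl i b) := by
  have ho : star om * om = 1 := by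
    have h := conj_om
    have h2 : star om = -om := h
    rw [h2]
    have := om_sq
    linear_combination -this
  rcases le_total 0 y with h | h
  · refine ⟨dl i + (star om) • dl j, add_lat (dl_lat i) (smul_lat IsGau.omega.star (dl_lat j)), ?_⟩
    rw [sq_pair i j (star om) (by rw [star_star]; exact ho), star_star]
    have h1 : (((y.natAbs : ℕ) : ℝ) : ℂ) = y := by
      have : ((y.natAbs : ℕ) : ℤ) = y := Int.natAbs_of_nonneg h
      have h2 : ((y.natAbs : ℕ) : ℂ) = ((y.natAbs : ℤ) : ℂ) := by simp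
      rw [Complex.ofReal_natCast, h2, this]
    funext a b
    rw [Pi.smul_apply, Pi.smul_apply, Complex.real_smul, h1]
    ring
  · refine ⟨dl i + (-star om) • dl j,
      add_lat (dl_lat i) (smul_lat IsGau.omega.star.neg (dl_lat j)), ?_⟩
    rw [sq_pair i j (-star om) (by rw [star_neg, star_star, neg_mul_neg]; exact ho), star_neg,
      star_star]
    have h1 : (((y.natAbs : ℕ) : ℝ) : ℂ) = -y := by
      have : ((y.natAbs : ℕ) : ℤ) = -y := by omega
      have h2 : ((y.natAbs : ℕ) : ℂ) = ((y.natAbs : ℤ) : ℂ) := by simp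
      rw [Complex.ofReal_natCast, h2, this]
      push_cast
      rfl
    funext a b
    rw [Pi.smul_apply, Pi.smul_apply, Complex.real_smul, h1]
    ring

theorem sum_dl_mul (f : Fin n → Fin n → ℂ) (a b : Fin n) :
    ∑ i, ∑ j, f i j * (dl i a * dl j b) = f a b := by
  rw [Finset.sum_eq_single a]
  · rw [Finset.sum_eq_single b]
    · simp [dl]
    · intro j _ hj
      simp [dl, hj.symm]
    · intro h; exact absurd (Finset.mem_univ _) h
  · intro i _ hi
    refine Finset.sum_eq_zero fun j _ => ?_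
    simp [dl, hi.symm]
  · intro h; exact absurd (Finset.mem_univ _) h

theorem sum_dl_diag (f : Fin n → ℂ) (a b : Fin n) :
    ∑ i, f i * (dl i a * dl i b) = if a = b then f a else 0 := by
  rw [Finset.sum_eq_single a]
  · by_cases h : a = b
    · simp [dl, h]
    · have h' : ¬b = a := fun h'' => h h''.symm
      simp [dl, h, h']
  · intro i _ hi
    simp [dl, hi.symm]
  · intro h; exact absurd (Finset.mem_univ _) h

/-- A diagonally dominant integral hermitian matrix is a rational sum of squares. -/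
theorem diag_dom (A : Fin n → Fin n → ℂ) (x y : Fin n → Fin n → ℤ)
    (hA : ∀ i j, A i j = x i j + y i j * om) (hAh : ∀ i j, A j i = star (A i j)) (t : ℕ)
    (ht : ∀ a, ∑ j, (((x a j).natAbs : ℕ) + ((y a j).natAbs : ℕ)) +
      ∑ j, (((x j a).natAbs : ℕ) + ((y j a).natAbs : ℕ)) ≤ 2 * t) :
    ((fun i j => (if i = j then (t : ℂ) else 0) + A i j : Fin n → Fin n → ℂ), (0 : ℝ)) ∈ RC J := by
  choose u hu1 hu2 using fun i j => pair_x i j (x i j)
  choose v hv1 hv2 using fun i j => pair_y i j (y i j)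
  set D : Fin n → ℕ := fun a => ∑ j, (((x a j).natAbs : ℕ) + ((y a j).natAbs : ℕ)) +
      ∑ j, (((x j a).natAbs : ℕ) + ((y j a).natAbs : ℕ)) with hD
  have key : (2 : ℝ) • (fun i j => (if i = j then (t : ℂ) else 0) + A i j : Fin n → Fin n → ℂ) =
      ∑ i, ∑ j, (((x i j).natAbs : ℝ) • sq (u i j) + ((y i j).natAbs : ℝ) • sq (v i j)) +
        ∑ a, ((2 * t - D a : ℕ) : ℝ) • sq (dl a) := by
    simp only [hu2, hv2]
    funext a b
    simp only [Pi.add_apply, Finset.sum_apply, Pi.smul_apply, Complex.real_smul]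
    have e1 : ∀ i j : Fin n, (((((x i j).natAbs : ℕ) : ℝ) : ℂ) * (dl i a * dl i b + dl j a * dl j b) +
        (x i j : ℂ) * (dl i a * dl j b) + (x i j : ℂ) * (dl j a * dl i b) +
        (((((y i j).natAbs : ℕ) : ℝ) : ℂ) * (dl i a * dl i b + dl j a * dl j b) +
        (y i j : ℂ) * om * (dl i a * dl j b) + (y i j : ℂ) * star om * (dl j a * dl i b))) =
        ((((x i j).natAbs : ℕ) : ℂ) + (((y i j).natAbs : ℕ) : ℂ)) * (dl i a * dl i b) +
        ((((x i j).natAbs : ℕ) : ℂ) + (((y i j).natAbs : ℕ) : ℂ)) * (dl j a * dl j b) +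
        A i j * (dl i a * dl j b) + star (A i j) * (dl i b * dl j a) := by
      intro i j
      have e2 : star (A i j) = x i j + y i j * star om := by
        rw [hA, star_add, star_mul']
        simp
      rw [e2, hA]
      push_cast
      ring
    simp only [e1, Finset.sum_add_distrib]
    rw [sum_dl_mul A a b]
    have e3 : ∑ i, ∑ j, star (A i j) * (dl i b * dl j a) = A a b := by
      rw [sum_dl_mul (fun i j => star (A i j)) b a, ← hAh]
    have e4 : ∑ i, ∑ j, ((((x i j).natAbs : ℕ) : ℂ) + (((y i j).natAbs : ℕ) : ℂ)) *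
        (dl i a * dl i b) = if a = b then
          ∑ j, ((((x a j).natAbs : ℕ) : ℂ) + (((y a j).natAbs : ℕ) : ℂ)) else 0 := by
      rw [← sum_dl_diag (fun i => ∑ j, ((((x i j).natAbs : ℕ) : ℂ) + (((y i j).natAbs : ℕ) : ℂ)))]
      exact Finset.sum_congr rfl fun i _ => (Finset.sum_mul _ _ _).symm
    have e5 : ∑ i, ∑ j, ((((x i j).natAbs : ℕ) : ℂ) + (((y i j).natAbs : ℕ) : ℂ)) *
        (dl j a * dl j b) = if a = b then
          ∑ j, ((((x j a).natAbs : ℕ) : ℂ) + (((y j a).natAbs : ℕ) : ℂ)) else 0 := by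
      rw [Finset.sum_comm, ← sum_dl_diag
        (fun i => ∑ j, ((((x j i).natAbs : ℕ) : ℂ) + (((y j i).natAbs : ℕ) : ℂ)))]
      exact Finset.sum_congr rfl fun i _ => (Finset.sum_mul _ _ _).symm
    have e6 : ∑ i, (((2 * t - D i : ℕ) : ℝ) : ℂ) * sq (dl i) a b =
        if a = b then ((2 * t - D a : ℕ) : ℂ) else 0 := by
      rw [← sum_dl_diag (fun i => ((2 * t - D i : ℕ) : ℂ))]
      refine Finset.sum_congr rfl fun i _ => ?_
      unfold sq
      rw [star_dl]
      push_cast
      rfl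
    rw [e3, e4, e5, e6]
    by_cases hab : a = b
    · subst hab
      simp only [if_true]
      rw [Nat.cast_sub (ht a)]
      push_cast
      ring
    · simp only [if_neg hab]
      push_cast
      ring
  refine RC.of_nsmul (k := 2) (by norm_num) ?_
  have h1 : ((2 : ℕ) : ℝ) • (((fun i j => (if i = j then (t : ℂ) else 0) + A i j :
      Fin n → Fin n → ℂ), (0 : ℝ))) =
      ∑ i, ∑ j, ((((x i j).natAbs : ℝ) • sq (u i j), (0 : ℝ)) +
        (((y i j).natAbs : ℝ) • sq (v i j), (0 : ℝ))) +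
        ∑ a, (((2 * t - D a : ℕ) : ℝ) • sq (dl a), (0 : ℝ)) := by
    apply Prod.ext
    · simp only [Prod.smul_fst, Prod.fst_add, Prod.fst_sum]
      push_cast at key ⊢
      exact key
    · simp [Prod.snd_sum]
  rw [h1]
  refine RC.add (RC.sum _ _ fun i _ => RC.sum _ _ fun j _ =>
    RC.add (RC.sq_smul (hu1 i j) _) (RC.sq_smul (hv1 i j) _))
    (RC.sum _ _ fun a _ => RC.sq_smul (dl_lat a) _)

theorem coord_bound {x y : ℤ} {z : ℂ} (h : z = x + y * om) {C : ℝ} (hz : ‖z‖ ≤ C) :
    ((x.natAbs : ℕ) : ℝ) + ((y.natAbs : ℕ) : ℝ) ≤ 4 * C := by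
  have hC : 0 ≤ C := le_trans (norm_nonneg _) hz
  have h1 := normSq_ab (x : ℝ) (y : ℝ)
  push_cast at h1
  rw [← h, Complex.normSq_eq_norm_sq] at h1
  have h2 : ‖z‖ ^ 2 ≤ C ^ 2 := pow_le_pow_left₀ (norm_nonneg _) hz 2
  have h3 : ((x.natAbs : ℕ) : ℝ) = |(x : ℝ)| := by
    rw [← Int.cast_abs, Int.abs_eq_natAbs]; simp
  have h4 : ((y.natAbs : ℕ) : ℝ) = |(y : ℝ)| := by
    rw [← Int.cast_abs, Int.abs_eq_natAbs]; simp
  rw [h3, h4]
  have h5 : |(x : ℝ)| ≤ 2 * C := by
    apply abs_le_of_sq_le_sq _ (by positivity)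
    nlinarith [sq_nonneg (y : ℝ), sq_nonneg C]
  have h6 : |(y : ℝ)| ≤ 2 * C := by
    apply abs_le_of_sq_le_sq _ (by positivity)
    nlinarith [sq_nonneg (x : ℝ), sq_nonneg C]
  linarith

/-- **Rational decompositions.** -/
theorem mem_RC {H : Matrix (Fin n) (Fin n) ℂ} (hH : H.IsHermitian) (hHe : ∀ i j, IsGau (H i j))
    {k : ℕ} (hk : 1 ≤ k) (hpd : Pd (H - ((1 / k : ℝ) : ℂ) • 1)) {g b : ℝ} (hb : b < g)
    (hLB : ∀ M : Matrix (Fin n) (Fin n) ℂ, Psd M → (∀ v, IsLat v → v ∉ J → 1 ≤ q M v) →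
      g ≤ (M * (H - ((1 / k : ℝ) : ℂ) • 1)).trace.re) :
    ((fun i j => H i j : Fin n → Fin n → ℂ), b) ∈ RC J := by
  have h1 := mem_closure_RC hpd le_rfl hLB
  have hkr : (0 : ℝ) < k := by exact_mod_cast hk
  -- approximate
  set η : ℝ := min (g - b) (1 / (4 * k * (n + 1))) with hη
  have hη0 : 0 < η := lt_min (by linarith) (by positivity)
  obtain ⟨⟨A, β⟩, hA, hdist⟩ := Metric.mem_closure_iff.1 h1 η hη0
  rw [Prod.dist_eq, max_lt_iff] at hdist
  obtain ⟨hd1, hd2⟩ := hdist
  have hβ : b ≤ β := by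
    rw [Real.dist_eq, abs_lt] at hd2
    have := min_le_left (g - b) (1 / (4 * k * (n + 1)) : ℝ)
    linarith [hd2.2]
  have hdA : ∀ i j, ‖(H i j - (if i = j then ((1 / k : ℝ) : ℂ) else 0)) - A i j‖ ≤ η := by
    intro i j
    have h2 : dist ((H - ((1 / k : ℝ) : ℂ) • (1 : Matrix (Fin n) (Fin n) ℂ)) i j) (A i j) ≤
        dist (fun i j => (H - ((1 / k : ℝ) : ℂ) • (1 : Matrix (Fin n) (Fin n) ℂ)) i j) A :=
      (dist_le_pi_dist (fun j => (H - ((1 / k : ℝ) : ℂ) • (1 : Matrix (Fin n) (Fin n) ℂ)) i j)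
        (A i) j).trans (dist_le_pi_dist
          (fun i j => (H - ((1 / k : ℝ) : ℂ) • (1 : Matrix (Fin n) (Fin n) ℂ)) i j) A i)
    rw [dist_eq_norm] at h2
    have h3 : (H - ((1 / k : ℝ) : ℂ) • (1 : Matrix (Fin n) (Fin n) ℂ)) i j =
        H i j - (if i = j then ((1 / k : ℝ) : ℂ) else 0) := by
      rw [Matrix.sub_apply, Matrix.smul_apply, one_apply, smul_eq_mul, mul_ite, mul_one, mul_zero]
    rw [h3] at h2
    exact h2.trans hd1.le
  obtain ⟨N, S, hN, hS, hNA, hT⟩ := hA
  have hA' : (A, β) ∈ RC J := ⟨N, S, hN, hS, hNA, hT⟩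
  have hNr : (0 : ℝ) < N := by exact_mod_cast hN
  -- the matrix `N A` is integral and hermitian
  have hsum : ∀ S : Multiset (Fin n → ℂ), (∀ l ∈ S, IsLat l) → ∀ i j,
      IsGau ((S.map sq).sum i j) ∧ (S.map sq).sum j i = star ((S.map sq).sum i j) := by
    intro S
    induction S using Multiset.induction_on with
    | empty => intro _ i j; simp [IsGau.zero]
    | cons l S ih =>
      intro h i j
      obtain ⟨h2, h3⟩ := ih (fun l' hl' => h l' (Multiset.mem_cons_of_mem hl')) i j
      have hl := h l (Multiset.mem_cons_self _ _)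
      rw [Multiset.map_cons, Multiset.sum_cons, Pi.add_apply, Pi.add_apply, Pi.add_apply,
        Pi.add_apply, h3]
      refine ⟨((hl i).mul (hl j).star).add h2, ?_⟩
      rw [star_add]
      congr 1
      unfold sq
      rw [star_mul', star_star, mul_comm]
  have hNA' : ∀ i j, (N : ℂ) * A i j = (S.map sq).sum i j := by
    intro i j
    rw [← hNA]
    show _ = (N : ℝ) • A i j
    rw [Complex.real_smul, Complex.ofReal_natCast]
  -- the residual
  set B : Fin n → Fin n → ℂ := fun i j => ((N * k : ℕ) : ℂ) * (H i j - A i j) -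
    (if i = j then (N : ℂ) else 0) with hB
  have hBeis : ∀ i j, IsGau (B i j) := by
    intro i j
    have e1 : B i j = (N * k : ℕ) * H i j - k * ((S.map sq).sum i j) -
        (if i = j then (N : ℂ) else 0) := by
      rw [← hNA']
      simp only [hB]
      push_cast
      ring
    rw [e1]
    refine (((IsGau.natCast _).mul (hHe i j)).sub ((IsGau.natCast _).mul (hsum S hS i j).1)).sub ?_
    split_ifs
    · exact IsGau.natCast _
    · exact IsGau.zero
  have hBh : ∀ i j, B j i = star (B i j) := by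
    intro i j
    have e1 : H j i = star (H i j) := by
      have := congrFun (congrFun hH.eq j) i
      rw [conjTranspose_apply] at this
      exact this.symm
    have hNc : (N : ℂ) ≠ 0 := by exact_mod_cast hNr.ne'
    have e2 : A j i = star (A i j) := by
      apply mul_left_cancel₀ hNc
      rw [hNA', (hsum S hS i j).2, ← hNA', star_mul']
      congr 1
      exact Complex.conj_natCast N
    simp only [hB]
    rw [e1, e2, star_sub, star_mul', star_sub]
    have e3 : star ((N * k : ℕ) : ℂ) = ((N * k : ℕ) : ℂ) := Complex.conj_natCast _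
    have e4 : star (if i = j then (N : ℂ) else 0) = if j = i then (N : ℂ) else 0 := by
      by_cases hij : i = j
      · rw [if_pos hij, if_pos hij.symm]
        exact Complex.conj_natCast _
      · rw [if_neg hij, if_neg fun h => hij h.symm, star_zero]
    rw [e3, e4]
  choose x y hxy using hBeis
  have hBn : ∀ i j, ‖B i j‖ ≤ N * k * η := by
    intro i j
    have e1 : B i j = ((N * k : ℕ) : ℂ) *
        ((H i j - (if i = j then ((1 / k : ℝ) : ℂ) else 0)) - A i j) := by
      simp only [hB]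
      have hkc : (k : ℂ) ≠ 0 := by exact_mod_cast hkr.ne'
      split_ifs
      · push_cast
        field_simp
        ring
      · ring
    rw [e1, norm_mul, Complex.norm_natCast, Nat.cast_mul]
    exact mul_le_mul_of_nonneg_left (hdA i j) (by positivity)
  have hdom := diag_dom (J := J) B x y hxy hBh N (by
    intro a
    have h2 : ∀ i j, ((((x i j).natAbs : ℕ) + ((y i j).natAbs : ℕ) : ℕ) : ℝ) ≤
        4 * (N * k * η) := by
      intro i j
      push_cast
      exact coord_bound (hxy i j) (hBn i j)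
    have h3 : ((∑ j, (((x a j).natAbs : ℕ) + ((y a j).natAbs : ℕ)) +
      ∑ j, (((x j a).natAbs : ℕ) + ((y j a).natAbs : ℕ)) : ℕ) : ℝ) ≤ 2 * N := by
      rw [Nat.cast_add, Nat.cast_sum, Nat.cast_sum]
      have h4 : ∑ j : Fin n, ((((x a j).natAbs : ℕ) + ((y a j).natAbs : ℕ) : ℕ) : ℝ) ≤
          n * (4 * (N * k * η)) := by
        refine (Finset.sum_le_sum fun j _ => h2 a j).trans (le_of_eq ?_)
        simp
      have h5 : ∑ j : Fin n, ((((x j a).natAbs : ℕ) + ((y j a).natAbs : ℕ) : ℕ) : ℝ) ≤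
          n * (4 * (N * k * η)) := by
        refine (Finset.sum_le_sum fun j _ => h2 j a).trans (le_of_eq ?_)
        simp
      have h6 : η ≤ 1 / (4 * k * (n + 1)) := min_le_right _ _
      have h7 : (n : ℝ) * (4 * (N * k * η)) ≤ N := by
        have h8 : (n : ℝ) * (4 * (N * k * η)) ≤ n * (4 * (N * k * (1 / (4 * k * (n + 1))))) := by
          gcongr
        refine h8.trans ?_
        have h9 : (n : ℝ) * (4 * (N * k * (1 / (4 * k * (n + 1))))) = N * (n / (n + 1)) := by
          field_simp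
        rw [h9]
        have h10 : (n : ℝ) / (n + 1) ≤ 1 := by
          rw [div_le_one (by positivity)]; linarith
        calc (N : ℝ) * (n / (n + 1)) ≤ N * 1 := mul_le_mul_of_nonneg_left h10 hNr.le
          _ = N := mul_one _
      linarith
    exact_mod_cast h3)
  have hres : (((N * k : ℕ) : ℝ) • ((fun i j => H i j - A i j : Fin n → Fin n → ℂ), (0 : ℝ))) ∈
      RC J := by
    have e1 : (((N * k : ℕ) : ℝ) • ((fun i j => H i j - A i j : Fin n → Fin n → ℂ), (0 : ℝ))) =
        ((fun i j => (if i = j then (N : ℂ) else 0) + B i j : Fin n → Fin n → ℂ), (0 : ℝ)) := by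
      apply Prod.ext
      · funext i j
        show ((N * k : ℕ) : ℝ) • (H i j - A i j) = _
        rw [Complex.real_smul, Complex.ofReal_natCast]
        simp only [hB]
        ring
      · simp
    rw [e1]
    exact hdom
  have hres' := RC.of_nsmul (Nat.mul_pos hN hk) hres
  have h2 := RC.add hres' (RC.mono hA' hβ)
  have e1 : ((fun i j => H i j - A i j : Fin n → Fin n → ℂ), (0 : ℝ)) + (A, b) =
      ((fun i j => H i j : Fin n → Fin n → ℂ), b) := by
    apply Prod.ext
    · funext i j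
      show H i j - A i j + A i j = H i j
      ring
    · simp
  rwa [e1] at h2

end Pool.Agent.K6.H19.GI
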