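import Mathlib

/-!
# Gaussian integers as complex numbers
-/

set_option autoImplicit false

namespace Pool.Agent.K6.H19.GI

open Complex

/-- The imaginary unit. -/
noncomputable def om : ℂ := Complex.I

/-- `z` is a Gaussian integer: an element of `ℤ[i]`. -/
def IsGau (z : ℂ) : Prop := ∃ a b : ℤ, z = a + b * om

theorem om_re : om.re = 0 := Complex.I_re

theorem om_im : om.im = 1 := Complex.I_im

theorem om_sq : om * om = -1 := Complex.I_mul_I

theorem conj_om : (starRingEnd ℂ) om = -om := Complex.conj_I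

theorem om_ne_zero : om ≠ 0 := Complex.I_ne_zero

namespace IsGau

theorem intCast (n : ℤ) : IsGau n := ⟨n, 0, by simp⟩

theorem natCast (n : ℕ) : IsGau n := ⟨n, 0, by simp⟩

theorem zero : IsGau 0 := ⟨0, 0, by simp⟩

theorem one : IsGau 1 := ⟨1, 0, by simp⟩

theorem omega : IsGau om := ⟨0, 1, by simp⟩

theorem add {x y : ℂ} (hx : IsGau x) (hy : IsGau y) : IsGau (x + y) := by
  obtain ⟨a, b, rfl⟩ := hx
  obtain ⟨c, d, rfl⟩ := hy
  exact ⟨a + c, b + d, by push_cast; ring⟩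

theorem neg {x : ℂ} (hx : IsGau x) : IsGau (-x) := by
  obtain ⟨a, b, rfl⟩ := hx
  exact ⟨-a, -b, by push_cast; ring⟩

theorem sub {x y : ℂ} (hx : IsGau x) (hy : IsGau y) : IsGau (x - y) := by
  rw [sub_eq_add_neg]; exact hx.add hy.neg

theorem mul {x y : ℂ} (hx : IsGau x) (hy : IsGau y) : IsGau (x * y) := by
  obtain ⟨a, b, rfl⟩ := hx
  obtain ⟨c, d, rfl⟩ := hy
  refine ⟨a * c - b * d, a * d + b * c, ?_⟩
  have h : ((a : ℂ) + b * om) * (c + d * om) = a * c + (a * d + b * c) * om + b * d * (om * om) := by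
    ring
  rw [h, om_sq]
  push_cast
  ring

theorem conj {x : ℂ} (hx : IsGau x) : IsGau ((starRingEnd ℂ) x) := by
  obtain ⟨a, b, rfl⟩ := hx
  refine ⟨a, -b, ?_⟩
  rw [map_add, map_mul, conj_om, map_intCast, map_intCast]
  push_cast
  ring

theorem star {x : ℂ} (hx : IsGau x) : IsGau (star x) := hx.conj

theorem sum {ι : Type*} (s : Finset ι) (f : ι → ℂ) (h : ∀ i ∈ s, IsGau (f i)) :
    IsGau (∑ i ∈ s, f i) := by
  classical
  induction s using Finset.induction_on with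
  | empty => simpa using zero
  | insert i s hi ih =>
    rw [Finset.sum_insert hi]
    exact (h i (Finset.mem_insert_self _ _)).add
      (ih fun j hj => h j (Finset.mem_insert_of_mem hj))

theorem pow {x : ℂ} (hx : IsGau x) (n : ℕ) : IsGau (x ^ n) := by
  induction n with
  | zero => simpa using one
  | succ n ih => rw [pow_succ]; exact ih.mul hx

/-- The norm of a Gaussian integer is an integer. -/
theorem normSq {x : ℂ} (hx : IsGau x) : ∃ n : ℕ, Complex.normSq x = n := by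
  obtain ⟨a, b, rfl⟩ := hx
  have h1 : Complex.normSq ((a : ℂ) + b * om) = ((a ^ 2 + b ^ 2 : ℤ) : ℝ) := by
    rw [Complex.normSq_apply]
    simp only [om_re, om_im, add_re, intCast_re, mul_re, intCast_im, add_im, mul_im]
    push_cast
    ring
  have h2 : 0 ≤ a ^ 2 + b ^ 2 := by positivity
  obtain ⟨n, hn⟩ := Int.eq_ofNat_of_zero_le h2
  exact ⟨n, by rw [h1, hn]; simp⟩

theorem one_le_normSq {x : ℂ} (hx : IsGau x) (h0 : x ≠ 0) : 1 ≤ Complex.normSq x := by
  obtain ⟨n, hn⟩ := hx.normSq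
  have h1 := Complex.normSq_pos.2 h0
  rw [hn] at h1 ⊢
  have : 0 < n := by exact_mod_cast h1
  exact_mod_cast this

/-- A real Gaussian integer is an integer. -/
theorem real {x : ℂ} (hx : IsGau x) (h0 : x.im = 0) : ∃ n : ℤ, x = n := by
  obtain ⟨a, b, rfl⟩ := hx
  have h1 : (b : ℝ) = 0 := by
    simpa [om_re, om_im] using h0
  have h3 : b = 0 := by exact_mod_cast h1
  exact ⟨a, by rw [h3]; simp⟩

theorem dotProduct {ι : Type*} [Fintype ι] {x y : ι → ℂ} (hx : ∀ i, IsGau (x i))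
    (hy : ∀ i, IsGau (y i)) : IsGau (x ⬝ᵥ y) :=
  sum _ _ fun i _ => (hx i).mul (hy i)

end IsGau

theorem normSq_ab (a b : ℝ) : Complex.normSq (a + b * om) = a ^ 2 + b ^ 2 := by
  rw [Complex.normSq_apply]
  simp only [om_re, om_im, add_re, ofReal_re, mul_re, ofReal_im, add_im, mul_im]
  ring

theorem exists_coord (z : ℂ) : ∃ x y : ℝ, z = x + y * om := by
  refine ⟨z.re, z.im, ?_⟩
  apply Complex.ext
  · simp [om_re, om_im]
  · simp [om_re, om_im]

/-- The covering radius of the Gaussian integers. -/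
theorem exists_near (z : ℂ) : ∃ a, IsGau a ∧ Complex.normSq (z - a) ≤ 1 / 2 := by
  obtain ⟨x, y, rfl⟩ := exists_coord z
  refine ⟨round x + round y * om, ⟨round x, round y, rfl⟩, ?_⟩
  have h1 : ((x : ℂ) + y * om) - (round x + round y * om) =
      ((x - round x : ℝ) : ℂ) + ((y - round y : ℝ) : ℂ) * om := by
    push_cast
    ring
  rw [h1, normSq_ab]
  have h2 := abs_le.1 (abs_sub_round x)
  have h3 := abs_le.1 (abs_sub_round y)
  nlinarith [h2.1, h2.2, h3.1, h3.2]

/-- There are only finitely many Gaussian integers of bounded absolute value. -/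
theorem finite_gau (C : ℝ) : {z : ℂ | IsGau z ∧ Complex.normSq z ≤ C}.Finite := by
  have hB : ∀ a b : ℤ, Complex.normSq ((a : ℂ) + b * om) ≤ C →
      |(a : ℝ)| ≤ 2 * |C| + 1 ∧ |(b : ℝ)| ≤ 2 * |C| + 1 := by
    intro a b h
    have h1 := normSq_ab (a : ℝ) (b : ℝ)
    push_cast at h1
    rw [h1] at h
    have hC := le_abs_self C
    have ha : (a : ℝ) ^ 2 ≤ 2 * |C| := by nlinarith [sq_nonneg (b : ℝ), abs_nonneg C]
    have hb : (b : ℝ) ^ 2 ≤ 2 * |C| := by nlinarith [sq_nonneg (a : ℝ), abs_nonneg C]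
    have h0 := abs_nonneg C
    constructor
    · apply abs_le_of_sq_le_sq _ (by positivity)
      nlinarith
    · apply abs_le_of_sq_le_sq _ (by positivity)
      nlinarith
  have hfin : ((fun p : ℤ × ℤ => (p.1 : ℂ) + p.2 * om) ''
      (Set.Icc (-⌈2 * |C| + 1⌉) ⌈2 * |C| + 1⌉ ×ˢ Set.Icc (-⌈2 * |C| + 1⌉) ⌈2 * |C| + 1⌉)).Finite :=
    ((Set.finite_Icc _ _).prod (Set.finite_Icc _ _)).image _
  refine hfin.subset ?_
  rintro z ⟨⟨a, b, rfl⟩, hz⟩
  obtain ⟨h1, h2⟩ := hB a b hz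
  have h3 := Int.le_ceil (2 * |C| + 1)
  refine ⟨(a, b), ⟨⟨?_, ?_⟩, ⟨?_, ?_⟩⟩, rfl⟩
  · have := (abs_le.1 h1).1
    have : ((-⌈2 * |C| + 1⌉ : ℤ) : ℝ) ≤ (a : ℝ) := by push_cast; linarith
    exact_mod_cast this
  · have := (abs_le.1 h1).2
    have : (a : ℝ) ≤ ((⌈2 * |C| + 1⌉ : ℤ) : ℝ) := by linarith
    exact_mod_cast this
  · have := (abs_le.1 h2).1
    have : ((-⌈2 * |C| + 1⌉ : ℤ) : ℝ) ≤ (b : ℝ) := by push_cast; linarith
    exact_mod_cast this
  · have := (abs_le.1 h2).2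
    have : (b : ℝ) ≤ ((⌈2 * |C| + 1⌉ : ℤ) : ℝ) := by linarith
    exact_mod_cast this

/-- A fourth root of unity is a Gaussian integer. -/
theorem IsGau.of_pow_four {z : ℂ} (h : z ^ 4 = 1) : IsGau z := by
  have h1 : (z - 1) * (z + 1) * ((z - om) * (z + om)) = 0 := by
    have h2 : (z - om) * (z + om) = z * z + 1 := by
      have : (z - om) * (z + om) = z * z - om * om := by ring
      rw [this, om_sq]; ring
    rw [h2]
    linear_combination h
  rcases mul_eq_zero.1 h1 with h3 | h3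
  · rcases mul_eq_zero.1 h3 with h4 | h4
    · exact ⟨1, 0, by rw [sub_eq_zero.1 h4]; simp⟩
    · exact ⟨-1, 0, by rw [eq_neg_of_add_eq_zero_left h4]; simp⟩
  · rcases mul_eq_zero.1 h3 with h4 | h4
    · exact ⟨0, 1, by rw [sub_eq_zero.1 h4]; simp⟩
    · refine ⟨0, -1, ?_⟩
      have : z = -om := by linear_combination h4
      rw [this]; push_cast; ring

end Pool.Agent.K6.H19.GI
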