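import Pool.Agent.K6.H19.GI.Cls
import Pool.Agent.Y167.Dom

/-!
# The data for the fundamental domain
-/

set_option autoImplicit false

namespace Pool.Agent.K6.H19.GI

open Pool.Agent.R895 (act BlBundle IsClass N1s N1 form coef integral semiample effective span nefCone
  effCone Normalizes IsPullback)

open Matrix hiding IsHermitian
open Filter Topology
open Pool.Agent.W594.SYZ2 (IsHermitian)
open Pool.Agent.W594.SYZ2.TQ (h_add_right h_smul_right h_zero_left h_zero_right)
open Pool.Agent.Y167 (CData cone)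

variable {ι : Type*} [Fintype ι] {r m : ℕ} {ρ : Fin r → ι}
  {j : (Fin r → ℂ) →ₗ[ℂ] (ι → ℂ)}

theorem cs_of_psd {H : (Fin r → ℂ) → (Fin r → ℂ) → ℂ} (hH : IsHermitian H)
    (hp : ∀ v, 0 ≤ (H v v).re) (u w : Fin r → ℂ) :
    Complex.normSq (H u w) ≤ (H u u).re * (H w w).re := by
  have key : ∀ t : ℝ, 0 ≤ (H w w).re - 2 * t * Complex.normSq (H u w) +
      t ^ 2 * Complex.normSq (H u w) * (H u u).re := by
    intro t
    have h1 := hp (w + (-(t : ℂ) * (starRingEnd ℂ) (H u w)) • u)
    rw [h_quad hH] at h1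
    have h2 : (-(t : ℂ) * (starRingEnd ℂ) (H u w) * H u w).re = -t * Complex.normSq (H u w) := by
      have : (-(t : ℂ) * (starRingEnd ℂ) (H u w) * H u w) =
          ((-t * Complex.normSq (H u w) : ℝ) : ℂ) := by
        rw [mul_assoc, mul_comm ((starRingEnd ℂ) (H u w)), Complex.mul_conj]
        push_cast
        ring
      rw [this, Complex.ofReal_re]
    have h3 : Complex.normSq (-(t : ℂ) * (starRingEnd ℂ) (H u w)) =
        t ^ 2 * Complex.normSq (H u w) := by
      rw [Complex.normSq_mul, Complex.normSq_conj, Complex.normSq_neg, Complex.normSq_ofReal]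
      ring
    rw [h2, h3] at h1
    linarith
  have hn := Complex.normSq_nonneg (H u w)
  by_cases h0 : (H u u).re = 0
  · rw [h0, zero_mul]
    by_contra hcon
    push Not at hcon
    have h1 := key (((H w w).re + 1) / (2 * Complex.normSq (H u w)))
    rw [h0, mul_zero, add_zero] at h1
    have h2 : 2 * (((H w w).re + 1) / (2 * Complex.normSq (H u w))) * Complex.normSq (H u w) =
        (H w w).re + 1 := by field_simp
    rw [h2] at h1
    linarith
  · have hpos : 0 < (H u u).re := lt_of_le_of_ne (hp u) (Ne.symm h0)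
    have h1 := key (1 / (H u u).re)
    have h2 : (H w w).re - 2 * (1 / (H u u).re) * Complex.normSq (H u w) +
        (1 / (H u u).re) ^ 2 * Complex.normSq (H u w) * (H u u).re =
        ((H u u).re * (H w w).re - Complex.normSq (H u w)) / (H u u).re := by
      field_simp
      ring
    rw [h2] at h1
    have h3 := (div_nonneg_iff.1 h1)
    rcases h3 with h3 | h3
    · linarith [h3.1]
    · linarith [h3.2]

/-- The standard hermitian form. -/
noncomputable def std (u w : Fin r → ℂ) : ℂ := ∑ i, u i * (starRingEnd ℂ) (w i)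

theorem std_re (v : Fin r → ℂ) : (std v v).re = ∑ i, Complex.normSq (v i) := by
  unfold std
  rw [Complex.re_sum]
  refine Finset.sum_congr rfl fun i _ => ?_
  rw [Complex.mul_conj, Complex.ofReal_re]

theorem std_nonneg (v : Fin r → ℂ) : 0 ≤ (std v v).re := by
  rw [std_re]
  exact Finset.sum_nonneg fun i _ => Complex.normSq_nonneg _

theorem normSq_le_std (v : Fin r → ℂ) (i : Fin r) : Complex.normSq (v i) ≤ (std v v).re := by
  rw [std_re]
  exact Finset.single_le_sum (f := fun i => Complex.normSq (v i))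
    (fun i _ => Complex.normSq_nonneg _) (Finset.mem_univ i)

theorem std_pos {v : Fin r → ℂ} (hv : v ≠ 0) : 0 < (std v v).re := by
  obtain ⟨i, hi⟩ := Function.ne_iff.1 hv
  exact lt_of_lt_of_le (Complex.normSq_pos.2 hi) (normSq_le_std v i)

theorem one_le_std {v : Fin r → ℂ} (hv : Lat v) (hv0 : v ≠ 0) : 1 ≤ (std v v).re := by
  obtain ⟨i, hi⟩ := Function.ne_iff.1 hv0
  exact le_trans ((hv i).one_le_normSq hi) (normSq_le_std v i)

theorem std_herm : IsHermitian (std (r := r)) where
  add_left u v w := by simp only [std, Pi.add_apply, add_mul, Finset.sum_add_distrib]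
  smul_left a v w := by simp only [std, Pi.smul_apply, smul_eq_mul, mul_assoc, Finset.mul_sum]
  symm v w := by
    unfold std
    rw [map_sum]
    refine Finset.sum_congr rfl fun i _ => ?_
    rw [map_mul, Complex.conj_conj, mul_comm]

theorem std_int (u w : Fin r → ℂ) (hu : Lat u) (hw : Lat w) : IsGau (std u w) :=
  IsGau.sum _ _ fun i _ => (hu i).mul (hw i).conj

/-- A multiple of an integral form. -/
theorem Dat.natMul {h : (Fin r → ℂ) → (Fin r → ℂ) → ℂ} (D : Dat h) (k : ℕ) :
    Dat fun u w => (k : ℂ) * h u w where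
  herm := by
    refine ⟨fun u v w => ?_, fun a v w => ?_, fun v w => ?_⟩
    · rw [D.herm.add_left]; ring
    · rw [D.herm.smul_left]; ring
    · rw [map_mul, ← D.herm.symm, Complex.conj_natCast]
  int u w hu hw := (IsGau.natCast k).mul (D.int u w hu hw)

theorem Dat.add {h h' : (Fin r → ℂ) → (Fin r → ℂ) → ℂ} (D : Dat h) (D' : Dat h') :
    Dat fun u w => h u w + h' u w where
  herm := by
    refine ⟨fun u v w => ?_, fun a v w => ?_, fun v w => ?_⟩
    · rw [D.herm.add_left, D'.herm.add_left]; ring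
    · rw [D.herm.smul_left, D'.herm.smul_left]; ring
    · rw [map_add, ← D.herm.symm, ← D'.herm.symm]
  int u w hu hw := (D.int u w hu hw).add (D'.int u w hu hw)

theorem std_dat : Dat (std (r := r)) := ⟨std_herm, std_int⟩

theorem re_natMul (k : ℕ) (z : ℂ) : ((k : ℂ) * z).re = k * z.re := by
  have : (k : ℂ) = ((k : ℝ) : ℂ) := by push_cast; rfl
  rw [this, Complex.re_ofReal_mul]

theorem exists_y₀ [Nonempty ι] (m : ℕ) (hj : IsExt ρ j) (hρ : Function.Injective ρ) :
    ∃ y : N1 (kum ι m) j, y ∈ integral (kum ι m) j ∧ (∀ u w, frm y u w = 8 * std u w) ∧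
      coef y = 4 := by
  obtain ⟨y, h1, h2, h3⟩ := exists_cls m hj hρ (std_dat.natMul 2) 1
  refine ⟨y, h1, fun u w => ?_, by rw [h3]; norm_num⟩
  rw [h2]
  push_cast
  ring

/-- Upper bound for the values of a hermitian form. -/
theorem le_std {H : (Fin r → ℂ) → (Fin r → ℂ) → ℂ} (hH : IsHermitian H) :
    ∃ C : ℝ, 0 ≤ C ∧ ∀ v, (H v v).re ≤ C * (std v v).re := by
  refine ⟨∑ a, ∑ b, ‖mx H a b‖, Finset.sum_nonneg fun a _ => Finset.sum_nonneg fun b _ =>
    norm_nonneg _, fun v => ?_⟩
  refine le_trans (Complex.re_le_norm _) ?_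
  rw [herm_mx hH v v]
  refine le_trans (norm_sum_le _ _) ?_
  rw [Finset.sum_mul]
  refine Finset.sum_le_sum fun a _ => ?_
  refine le_trans (norm_sum_le _ _) ?_
  rw [Finset.sum_mul]
  refine Finset.sum_le_sum fun b _ => ?_
  rw [norm_mul]
  refine mul_le_mul_of_nonneg_left ?_ (norm_nonneg _)
  rw [norm_mul, Complex.norm_conj]
  have h1 := normSq_le_std v a
  have h2 := normSq_le_std v b
  rw [Complex.normSq_eq_norm_sq] at h1 h2
  nlinarith [sq_nonneg (‖v a‖ - ‖v b‖)]

theorem kap_im_eis {z : ℂ} (hz : IsGau z) : ∃ n : ℤ, kap * z.im = n := kap_im hz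

theorem eq_zero_of_im {z : ℂ} (h1 : z.im = 0) (h2 : (om * z).im = 0) : z = 0 := by
  rw [Complex.mul_im, h1, mul_zero, zero_add] at h2
  have h3 : om.im ≠ 0 := by
    rw [om_im]
    exact one_ne_zero
  apply Complex.ext
  · exact (mul_eq_zero.1 h2).resolve_left h3
  · exact h1

/-- The matrix and the coefficient of a class. -/
noncomputable def Φ (m : ℕ) (j : (Fin r → ℂ) →ₗ[ℂ] (ι → ℂ)) :
    N1 (kum ι m) j →ₗ[ℝ] (Fin r → Fin r → ℂ) × ℝ where
  toFun x := (mx (frm x), coef x)
  map_add' x y := by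
    refine Prod.ext ?_ (coef_add x y)
    funext a b
    exact frm_add x y _ _
  map_smul' t x := by
    refine Prod.ext ?_ (coef_smul t x)
    funext a b
    show mx (frm (t • x)) a b = t • mx (frm x) a b
    rw [Complex.real_smul]
    exact frm_smul t x _ _

theorem Φ_apply (x : N1 (kum ι m) j) : Φ m j x = (mx (frm x), coef x) := rfl

theorem Φ_inj : Function.Injective (Φ m j) := by
  intro x y hxy
  rw [Φ_apply, Φ_apply] at hxy
  have h1 : mx (frm x) = mx (frm y) := (Prod.ext_iff.1 hxy).1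
  have h2 : coef x = coef y := (Prod.ext_iff.1 hxy).2
  refine N1_ext' (fun u w => ?_) h2
  rw [herm_mx (frm_herm x), herm_mx (frm_herm y), h1]

theorem finite_N1 : FiniteDimensional ℝ (N1 (kum ι m) j) :=
  Module.Finite.of_injective (Φ m j) Φ_inj

/-- The trace of the form of a class. -/
noncomputable def xi (m : ℕ) (j : (Fin r → ℂ) →ₗ[ℂ] (ι → ℂ)) : N1 (kum ι m) j →ₗ[ℝ] ℝ where
  toFun x := ∑ i, (mx (frm x) i i).re
  map_add' x y := by
    rw [← Finset.sum_add_distrib]
    refine Finset.sum_congr rfl fun i _ => ?_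
    rw [← Complex.add_re]
    exact congrArg Complex.re (frm_add x y _ _)
  map_smul' t x := by
    rw [RingHom.id_apply, smul_eq_mul, Finset.mul_sum]
    refine Finset.sum_congr rfl fun i _ => ?_
    rw [← Complex.re_ofReal_mul]
    exact congrArg Complex.re (frm_smul t x _ _)

theorem xi_apply (x : N1 (kum ι m) j) : xi m j x = ∑ i, (mx (frm x) i i).re := rfl

theorem Nf_add {x y : N1 (kum ι m) j} (hx : x ∈ Nf m j) (hy : y ∈ Nf m j) : x + y ∈ Nf m j := by
  obtain ⟨h1, h2, h3⟩ := hx
  obtain ⟨k1, k2, k3⟩ := hy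
  refine ⟨fun v => ?_, ?_, fun v hv hv0 => ?_⟩
  · rw [frm_add, Complex.add_re]
    exact add_nonneg (h1 v) (k1 v)
  · rw [coef_add]
    exact add_nonneg h2 k2
  · rw [frm_add, Complex.add_re, coef_add]
    exact add_le_add (h3 v hv hv0) (k3 v hv hv0)

theorem Nf_smul {t : ℝ} (ht : 0 ≤ t) {x : N1 (kum ι m) j} (hx : x ∈ Nf m j) :
    t • x ∈ Nf m j := by
  obtain ⟨h1, h2, h3⟩ := hx
  refine ⟨fun v => ?_, ?_, fun v hv hv0 => ?_⟩
  · rw [frm_smul, Complex.re_ofReal_mul]
    exact mul_nonneg ht (h1 v)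
  · rw [coef_smul]
    exact mul_nonneg ht h2
  · rw [frm_smul, Complex.re_ofReal_mul, coef_smul]
    exact mul_le_mul_of_nonneg_left (h3 v hv hv0) ht

theorem Nf_zero : (0 : N1 (kum ι m) j) ∈ Nf m j := by
  refine ⟨fun v => ?_, ?_, fun v hv hv0 => ?_⟩ <;> simp [frm_zero, coef_zero]

theorem diag_nonneg {x : N1 (kum ι m) j} (hx : x ∈ Nf m j) (i : Fin r) :
    0 ≤ (mx (frm x) i i).re := hx.1 _

theorem diag_le_xi {x : N1 (kum ι m) j} (hx : x ∈ Nf m j) (i : Fin r) :
    (mx (frm x) i i).re ≤ xi m j x :=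
  Finset.single_le_sum (f := fun i => (mx (frm x) i i).re) (fun i _ => diag_nonneg hx i)
    (Finset.mem_univ i)

theorem xi_nonneg {x : N1 (kum ι m) j} (hx : x ∈ Nf m j) : 0 ≤ xi m j x := by
  rw [xi_apply]
  exact Finset.sum_nonneg fun i _ => diag_nonneg hx i

theorem normSq_mx_le {x : N1 (kum ι m) j} (hx : x ∈ Nf m j) (a b : Fin r) :
    Complex.normSq (mx (frm x) a b) ≤ xi m j x ^ 2 := by
  have h1 := cs_of_psd (frm_herm x) hx.1 (Pi.single a 1) (Pi.single b 1)
  refine le_trans h1 ?_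
  rw [pow_two]
  exact mul_le_mul (diag_le_xi hx a) (diag_le_xi hx b) (diag_nonneg hx b) (xi_nonneg hx)

theorem norm_mx_le {x : N1 (kum ι m) j} (hx : x ∈ Nf m j) (a b : Fin r) :
    ‖mx (frm x) a b‖ ≤ xi m j x := by
  have h1 := normSq_mx_le hx a b
  rw [Complex.normSq_eq_norm_sq] at h1
  exact (sq_le_sq₀ (norm_nonneg _) (xi_nonneg hx)).1 h1

theorem coef_le_xi (hr : 0 < r) {x : N1 (kum ι m) j} (hx : x ∈ Nf m j) :
    coef x ≤ xi m j x := by
  have h1 := hx.2.2 (Pi.single ⟨0, hr⟩ 1) (lat_single _) (by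
    intro h
    have := congrFun h ⟨0, hr⟩
    simp at this)
  exact le_trans h1 (diag_le_xi hx ⟨0, hr⟩)

theorem norm_Φ_le (hr : 0 < r) {x : N1 (kum ι m) j} (hx : x ∈ Nf m j) :
    ‖Φ m j x‖ ≤ xi m j x := by
  refine norm_prod_le_iff.2 ⟨?_, ?_⟩
  · rw [pi_norm_le_iff_of_nonneg (xi_nonneg hx)]
    intro a
    rw [pi_norm_le_iff_of_nonneg (xi_nonneg hx)]
    intro b
    exact norm_mx_le hx a b
  · show ‖coef x‖ ≤ _
    rw [Real.norm_of_nonneg hx.2.1]
    exact coef_le_xi hr hx

theorem span_integral : Submodule.span ℝ (integral (kum ι m) j) = ⊤ := by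
  rw [eq_top_iff]
  rintro ⟨x, hx⟩ -
  induction hx using Submodule.span_induction with
  | mem x hx => exact Submodule.subset_span hx
  | zero => exact Submodule.zero_mem _
  | add x y _ _ h1 h2 => exact Submodule.add_mem _ h1 h2
  | smul t x _ h1 => exact Submodule.smul_mem _ t h1

theorem y_int {y₀ : N1 (kum ι m) j} (hy1 : ∀ u w, frm y₀ u w = 8 * std u w) (hy2 : coef y₀ = 4)
    (x : N1 (kum ι m) j) : ∃ C : ℝ, 0 < C ∧ C • y₀ - x ∈ Nf m j := by
  obtain ⟨C, hC, h1⟩ := le_std (frm_herm x)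
  have hre : ∀ v : Fin r → ℂ, (frm y₀ v v).re = 8 * (std v v).re := by
    intro v
    rw [hy1]
    have : (8 : ℂ) = ((8 : ℝ) : ℂ) := by norm_num
    rw [this, Complex.re_ofReal_mul]
  refine ⟨C + |coef x| + 1, by positivity, fun v => ?_, ?_, fun v hv hv0 => ?_⟩
  · rw [frm_sub, frm_smul, Complex.sub_re, Complex.re_ofReal_mul, hre]
    have h2 := std_nonneg v
    have h3 := h1 v
    have h4 := mul_nonneg (abs_nonneg (coef x)) h2
    nlinarith
  · rw [coef_sub, coef_smul, hy2]
    have := le_abs_self (coef x)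
    have := abs_nonneg (coef x)
    linarith
  · rw [frm_sub, frm_smul, Complex.sub_re, Complex.re_ofReal_mul, hre, coef_sub, coef_smul, hy2]
    have h2 := one_le_std hv hv0
    have h3 := h1 v
    have h5 := neg_abs_le (coef x)
    have h6 := abs_nonneg (coef x)
    have h7 := mul_le_mul_of_nonneg_left h2 h6
    have h8 := mul_le_mul_of_nonneg_left h2 hC
    nlinarith

/-- The data for the fundamental domain. -/
theorem exists_cdata (hj : IsExt ρ j) (hr : 0 < r)
    {y₀ : N1 (kum ι m) j} (hy0 : y₀ ∈ integral (kum ι m) j)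
    (hy1 : ∀ u w, frm y₀ u w = 8 * std u w) (hy2 : coef y₀ = 4) :
    ∃ Y : Finset (N1 (kum ι m) j),
      CData (AddSubgroup.closure (integral (kum ι m) j)) (Nf m j) (xi m j) y₀ Y := by
  classical
  have hfin : FiniteDimensional ℝ (N1 (kum ι m) j) := finite_N1
  have hre : ∀ v : Fin r → ℂ, (frm y₀ v v).re = 8 * (std v v).re := by
    intro v
    rw [hy1]
    have : (8 : ℂ) = ((8 : ℝ) : ℂ) := by norm_num
    rw [this, Complex.re_ofReal_mul]
  have hyNf : y₀ ∈ Nf m j := by
    refine ⟨fun v => ?_, by rw [hy2]; norm_num, fun v hv hv0 => ?_⟩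
    · rw [hre]
      have := std_nonneg v
      positivity
    · rw [hre, hy2]
      have := one_le_std hv hv0
      linarith
  have hyL : y₀ ∈ AddSubgroup.closure (integral (kum ι m) j) := AddSubgroup.subset_closure hy0
  obtain ⟨t, ht, htspan, htli⟩ := exists_linearIndependent ℝ (integral (kum ι m) j)
  have htfin : t.Finite := htli.setFinite
  have hchoose : ∀ x : N1 (kum ι m) j, ∃ n : ℕ, (n : ℝ) • y₀ - x ∈ Nf m j := by
    intro x
    obtain ⟨C, hC, h1⟩ := y_int hy1 hy2 x
    refine ⟨⌈C⌉₊, ?_⟩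
    have h2 : ((⌈C⌉₊ : ℝ) - C) • y₀ ∈ Nf m j := Nf_smul (sub_nonneg.2 (Nat.le_ceil C)) hyNf
    have h3 := Nf_add h2 h1
    have h4 : ((⌈C⌉₊ : ℝ) - C) • y₀ + (C • y₀ - x) = (⌈C⌉₊ : ℝ) • y₀ - x := by
      module
    rwa [h4] at h3
  choose nf hnf using hchoose
  refine ⟨insert y₀ (htfin.toFinset.image fun x => (nf x : ℝ) • y₀ - x),
    { add := fun x hx y hy => Nf_add hx hy
      smul := fun t ht x hx => Nf_smul ht hx
      xi_int := fun x hx => ?_
      xi_pos := fun x hx hx0 => ?_
      fin := fun C => ?_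
      y_L := hyL
      y_N := hyNf
      y_int := y_int hy1 hy2
      dom := fun η => ?_
      sep := fun x hx => ?_
      Y_mem := fun y hy => ?_
      Y_span := fun φ hφ => ?_ }⟩
  · obtain ⟨D, -⟩ := eis_of_mem hj hx
    choose f hf using fun i : Fin r => D.val (lat_single i)
    refine ⟨∑ i, f i, ?_⟩
    rw [xi_apply]
    push_cast
    exact Finset.sum_congr rfl fun i _ => hf i
  · refine lt_of_le_of_ne (xi_nonneg hx) fun h0 => hx0 ?_
    apply Φ_inj (m := m) (j := j)
    rw [map_zero]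
    have := norm_Φ_le hr hx
    rw [← h0] at this
    exact norm_le_zero_iff.1 this
  · have hfin1 : ({x : (Fin r → Fin r → ℂ) × ℝ | (∀ a b, IsGau (x.1 a b) ∧
        Complex.normSq (x.1 a b) ≤ C ^ 2) ∧ x.2 ∈ ((fun n : ℤ => (n : ℝ)) '' Set.Icc 0 ⌊C⌋)}).Finite := by
      have h1 : {A : Fin r → Fin r → ℂ | ∀ a b, IsGau (A a b) ∧
          Complex.normSq (A a b) ≤ C ^ 2}.Finite := by
        have h2 := Set.Finite.pi' fun _ : Fin r => Set.Finite.pi' fun _ : Fin r =>
          finite_gau (C ^ 2)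
        exact h2
      have h3 := h1.prod ((Set.finite_Icc (0 : ℤ) ⌊C⌋).image fun n : ℤ => (n : ℝ))
      exact h3.subset fun x hx => ⟨hx.1, hx.2⟩
    refine Set.Finite.of_finite_image (f := Φ m j) (hfin1.subset ?_) Φ_inj.injOn
    rintro _ ⟨x, ⟨hx1, hx2, hx3⟩, rfl⟩
    obtain ⟨D, n, hn⟩ := eis_of_mem hj hx1
    have h0 := xi_nonneg hx2
    refine ⟨fun a b => ⟨D.int _ _ (lat_single a) (lat_single b), ?_⟩, n, ⟨?_, ?_⟩, hn.symm⟩
    · refine le_trans (normSq_mx_le hx2 a b) ?_
      exact pow_le_pow_left₀ h0 hx3 2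
    · have := hx2.2.1
      rw [hn] at this
      exact_mod_cast this
    · rw [Int.le_floor, ← hn]
      exact le_trans (coef_le_xi hr hx2) hx3
  · obtain ⟨g, hg⟩ := LinearMap.exists_leftInverse_of_injective (Φ m j)
      (LinearMap.ker_eq_bot.2 Φ_inj)
    refine ⟨‖LinearMap.toContinuousLinearMap (η ∘ₗ g)‖, fun x hx => ?_⟩
    have h1 := (LinearMap.toContinuousLinearMap (η ∘ₗ g)).le_opNorm (Φ m j x)
    have h2 : (LinearMap.toContinuousLinearMap (η ∘ₗ g)) (Φ m j x) = η x := by
      show η (g (Φ m j x)) = η x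
      rw [show g (Φ m j x) = x from LinearMap.congr_fun hg x]
    rw [h2] at h1
    exact le_trans h1 (mul_le_mul_of_nonneg_left (norm_Φ_le hr hx) (norm_nonneg _))
  · by_cases hc : coef x = 0
    · have hex : ∃ a b, mx (frm x) a b ≠ 0 := by
        by_contra hcon
        push Not at hcon
        apply hx
        apply Φ_inj (m := m) (j := j)
        rw [map_zero]
        refine Prod.ext ?_ hc
        funext a b
        exact hcon a b
      obtain ⟨a, b, hab⟩ := hex
      have hadd : ∀ (z : ℂ) (x y : N1 (kum ι m) j), kap * (z * mx (frm (x + y)) a b).im =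
          kap * (z * mx (frm x) a b).im + kap * (z * mx (frm y) a b).im := by
        intro z x y
        have : mx (frm (x + y)) a b = mx (frm x) a b + mx (frm y) a b := frm_add x y _ _
        rw [this, mul_add, Complex.add_im]
        ring
      have hsm : ∀ (z : ℂ) (t : ℝ) (x : N1 (kum ι m) j), kap * (z * mx (frm (t • x)) a b).im =
          t * (kap * (z * mx (frm x) a b).im) := by
        intro z t x
        have : mx (frm (t • x)) a b = t * mx (frm x) a b := frm_smul t x _ _
        rw [this, mul_left_comm, Complex.im_ofReal_mul]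
        ring
      have hz : ∀ z : ℂ, IsGau z → (z * mx (frm x) a b).im ≠ 0 →
          ∃ η : N1 (kum ι m) j →ₗ[ℝ] ℝ, (∀ y ∈ AddSubgroup.closure (integral (kum ι m) j),
            ∃ n : ℤ, η y = n) ∧ η x ≠ 0 := by
        intro z hz hzx
        refine ⟨{ toFun := fun y => kap * (z * mx (frm y) a b).im
                  map_add' := hadd z
                  map_smul' := fun t y => hsm z t y }, fun y hy => ?_,
          mul_ne_zero kap_pos.ne' hzx⟩
        obtain ⟨D, -⟩ := eis_of_mem hj hy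
        exact kap_im_eis (hz.mul (D.int _ _ (lat_single a) (lat_single b)))
      by_cases h1 : (mx (frm x) a b).im = 0
      · refine hz om IsGau.omega fun h2 => hab (eq_zero_of_im h1 h2)
      · exact hz 1 IsGau.one (by rwa [one_mul])
    · refine ⟨{ toFun := coef
                map_add' := coef_add
                map_smul' := fun t y => coef_smul t y }, fun y hy => ?_, hc⟩
      exact (eis_of_mem hj hy).2
  · rcases Finset.mem_insert.1 hy with rfl | h
    · exact ⟨hyL, hyNf⟩
    · obtain ⟨x, hx, rfl⟩ := Finset.mem_image.1 h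
      rw [htfin.mem_toFinset] at hx
      refine ⟨AddSubgroup.sub_mem _ ?_ (AddSubgroup.subset_closure (ht hx)), hnf x⟩
      rw [Nat.cast_smul_eq_nsmul]
      exact AddSubgroup.nsmul_mem _ hyL _
  · have h0 : φ y₀ = 0 := hφ _ (Finset.mem_insert_self _ _)
    have h1 : ∀ x ∈ t, φ x = 0 := by
      intro x hx
      have h2 := hφ ((nf x : ℝ) • y₀ - x)
        (Finset.mem_insert_of_mem (Finset.mem_image_of_mem _ (htfin.mem_toFinset.2 hx)))
      rw [map_sub, map_smul φ (nf x : ℝ), h0, smul_zero, zero_sub, neg_eq_zero] at h2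
      exact h2
    have h2 : (⊤ : Submodule ℝ (N1 (kum ι m) j)) ≤ LinearMap.ker φ := by
      rw [← span_integral, ← htspan, Submodule.span_le]
      intro x hx
      exact h1 x hx
    exact LinearMap.ker_eq_top.1 (top_le_iff.1 h2)

end Pool.Agent.K6.H19.GI
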