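import Pool.Agent.K6.H19.GI.Red

/-!
# Frames of the lattice of Gaussian vectors of length three
-/

set_option autoImplicit false

namespace Pool.Agent.K6.H19.GI

open Matrix

section general

variable {n : ℕ}

theorem q_single (M : Matrix (Fin n) (Fin n) ℂ) (g : Matrix (Fin n) (Fin n) ℂ) (x : Fin n → Fin n → ℂ)
    (m : Fin n → ℝ) (h : gᴴ * M * g = ∑ i, (m i : ℂ) • vecMulVec (x i) (star (x i))) (k : Fin n) :
    q M (g *ᵥ (Pi.single k 1)) = ∑ i, m i * Complex.normSq (x i k) := by
  rw [← q_conj, h, q_dec]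
  refine Finset.sum_congr rfl fun i _ => ?_
  rw [dotProduct_single, mul_one, Pi.star_apply]
  congr 1
  exact Complex.normSq_conj _

theorem isLat_single (k : Fin n) : IsLat (Pi.single k 1 : Fin n → ℂ) := by
  intro i
  rw [Pi.single_apply]
  split_ifs
  · exact IsGau.one
  · exact IsGau.zero

theorem single_ne (k : Fin n) : (Pi.single k 1 : Fin n → ℂ) ≠ 0 := by
  intro h
  have := congrFun h k
  simp at this

/-- The lower right block. -/
def tl (H : Matrix (Fin (n + 1)) (Fin (n + 1)) ℂ) : Matrix (Fin n) (Fin n) ℂ :=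
  H.submatrix Fin.succ Fin.succ

theorem q_tl (H : Matrix (Fin (n + 1)) (Fin (n + 1)) ℂ) (v : Fin n → ℂ) :
    q (tl H) v = q H (Fin.cons 0 v) := by
  unfold q
  simp [dotProduct, mulVec, Fin.sum_univ_succ, tl]

end general

/-- Multiplication with `1 + i` in both directions. -/
theorem one_om : (1 + om) * ((1 - om) / 2) = 1 := by
  linear_combination (-1 / 2 : ℂ) * om_sq

theorem star_om : star om = -om := conj_om

/-- The half `(1 - i) / 2` of the inverse of `1 + i`. -/
noncomputable def ha : ℂ := (1 - om) / 2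

theorem ha_mul : (1 + om) * ha = 1 := one_om

theorem star_ha : star ha = (1 + om) / 2 := by
  unfold ha
  rw [star_div₀, star_sub, star_one, star_om]
  have : star (2 : ℂ) = 2 := by
    have := Complex.conj_ofReal 2
    push_cast at this
    exact this
  rw [this]
  ring

/-- The matrix `[[1, 0, -1], [0, 1, -1], [0, 0, 1 + i]]`. -/
noncomputable def TT : Matrix (Fin 3) (Fin 3) ℂ := !![1, 0, -1; 0, 1, -1; 0, 0, 1 + om]

/-- The inverse of `TT`. -/
noncomputable def TI : Matrix (Fin 3) (Fin 3) ℂ := !![1, 0, ha; 0, 1, ha; 0, 0, ha]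

theorem TT_TI : TT * TI = 1 := by
  have h := ha_mul
  ext i j
  fin_cases i <;> fin_cases j <;> simp [TT, TI, mul_apply, Fin.sum_univ_three]
  exact h

theorem TI_TT : TI * TT = 1 := by
  have h := ha_mul
  ext i j
  fin_cases i <;> fin_cases j <;> simp [TT, TI, mul_apply, Fin.sum_univ_three] <;>
    linear_combination h

/-- The columns of `P` are `e₁, e₂, e₃` and the lattice is generated by `e₁, e₂` and
`(e₁ + e₂ + e₃) / (1 + i)`. -/
def Fr (P : Matrix (Fin 3) (Fin 3) ℂ) : Prop := ∃ B, IsGL B ∧ P = B * TT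

theorem TT_ent (i j : Fin 3) : IsGau (TT i j) := by
  fin_cases i <;> fin_cases j <;> simp [TT]
  · exact IsGau.one
  · exact IsGau.zero
  · exact IsGau.one.neg
  · exact IsGau.zero
  · exact IsGau.one
  · exact IsGau.one.neg
  · exact IsGau.zero
  · exact IsGau.zero
  · exact IsGau.one.add IsGau.omega

theorem Fr.ent {P : Matrix (Fin 3) (Fin 3) ℂ} (h : Fr P) (i j : Fin 3) : IsGau (P i j) := by
  obtain ⟨B, hB, rfl⟩ := h
  exact IsGL.eis_mul hB.ent TT_ent i j

theorem Fr.mul {P R g : Matrix (Fin 3) (Fin 3) ℂ} (h : Fr P) (hg : IsGL g)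
    (e : TT * R = g * TT) : Fr (P * R) := by
  obtain ⟨B, hB, rfl⟩ := h
  refine ⟨B * g, hB.mul hg, ?_⟩
  rw [Matrix.mul_assoc, e, Matrix.mul_assoc]

/-- The exchange of the first two columns. -/
noncomputable def S1 : Matrix (Fin 3) (Fin 3) ℂ := !![0, 1, 0; 1, 0, 0; 0, 0, 1]

/-- The exchange of the first and the third column. -/
noncomputable def S2 : Matrix (Fin 3) (Fin 3) ℂ := !![0, 0, 1; 0, 1, 0; 1, 0, 0]

/-- Multiplication of the second column with `i`. -/
noncomputable def D1 : Matrix (Fin 3) (Fin 3) ℂ := !![1, 0, 0; 0, om, 0; 0, 0, 1]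

/-- Multiplication of the third column with `i`. -/
noncomputable def D2 : Matrix (Fin 3) (Fin 3) ℂ := !![1, 0, 0; 0, 1, 0; 0, 0, om]

/-- The change of the frame. -/
noncomputable def RR : Matrix (Fin 3) (Fin 3) ℂ :=
  !![1, ha, ha; 0, ha, om * ha; 0, om * ha, ha]

/-- Matrices of order three with Gaussian entries. -/
theorem ent3 {a b c d e f g h k : ℂ} (ha : IsGau a) (hb : IsGau b) (hc : IsGau c) (hd : IsGau d)
    (he : IsGau e) (hf : IsGau f) (hg : IsGau g) (hh : IsGau h) (hk : IsGau k) (i j : Fin 3) :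
    IsGau ((!![a, b, c; d, e, f; g, h, k] : Matrix (Fin 3) (Fin 3) ℂ) i j) := by
  fin_cases i <;> fin_cases j <;> assumption

theorem fr_S1 {P : Matrix (Fin 3) (Fin 3) ℂ} (h : Fr P) : Fr (P * S1) := by
  refine h.mul (g := S1) ⟨?_, S1, ?_, ?_, ?_⟩ ?_
  · exact ent3 .zero .one .zero .one .zero .zero .zero .zero .one
  · exact ent3 .zero .one .zero .one .zero .zero .zero .zero .one
  · ext i j
    fin_cases i <;> fin_cases j <;> simp [S1, mul_apply, Fin.sum_univ_three]
  · ext i j
    fin_cases i <;> fin_cases j <;> simp [S1, mul_apply, Fin.sum_univ_three]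
  · ext i j
    fin_cases i <;> fin_cases j <;> simp [S1, TT, mul_apply, Fin.sum_univ_three]

theorem fr_S2 {P : Matrix (Fin 3) (Fin 3) ℂ} (h : Fr P) : Fr (P * S2) := by
  have h1 : !![-1, 0, 0; -1, 1, 0; 1 + om, 0, 1] * !![-1, 0, 0; -1, 1, 0; 1 + om, 0, 1] =
      (1 : Matrix (Fin 3) (Fin 3) ℂ) := by
    ext i j
    fin_cases i <;> fin_cases j <;> simp [mul_apply, Fin.sum_univ_three]
  refine h.mul (g := !![-1, 0, 0; -1, 1, 0; 1 + om, 0, 1]) ⟨?_, _, ?_, h1, h1⟩ ?_
  · exact ent3 (IsGau.one.neg) .zero .zero (IsGau.one.neg) .one .zero (IsGau.one.add .omega)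
      .zero .one
  · exact ent3 (IsGau.one.neg) .zero .zero (IsGau.one.neg) .one .zero (IsGau.one.add .omega)
      .zero .one
  · ext i j
    fin_cases i <;> fin_cases j <;> simp [S2, TT, mul_apply, Fin.sum_univ_three]

theorem fr_D1 {P : Matrix (Fin 3) (Fin 3) ℂ} (h : Fr P) : Fr (P * D1) := by
  have ho := om_sq
  refine h.mul (g := !![1, 0, 0; 0, om, om; 0, 0, 1])
    ⟨?_, !![1, 0, 0; 0, -om, -1; 0, 0, 1], ?_, ?_, ?_⟩ ?_
  · exact ent3 .one .zero .zero .zero .omega .omega .zero .zero .one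
  · exact ent3 .one .zero .zero .zero (IsGau.omega.neg) (IsGau.one.neg) .zero .zero .one
  · ext i j
    fin_cases i <;> fin_cases j <;> simp [mul_apply, Fin.sum_univ_three] <;>
      first | ring1 | linear_combination -ho | linear_combination ho
  · ext i j
    fin_cases i <;> fin_cases j <;> simp [mul_apply, Fin.sum_univ_three] <;>
      first | ring1 | linear_combination -ho | linear_combination ho
  · ext i j
    fin_cases i <;> fin_cases j <;> simp [D1, TT, mul_apply, Fin.sum_univ_three] <;>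
      first | ring1 | linear_combination -ho | linear_combination ho

theorem fr_D2 {P : Matrix (Fin 3) (Fin 3) ℂ} (h : Fr P) : Fr (P * D2) := by
  have ho := om_sq
  refine h.mul (g := !![1, 0, -om; 0, 1, -om; 0, 0, om])
    ⟨?_, !![1, 0, 1; 0, 1, 1; 0, 0, -om], ?_, ?_, ?_⟩ ?_
  · exact ent3 .one .zero (IsGau.omega.neg) .zero .one (IsGau.omega.neg) .zero .zero .omega
  · exact ent3 .one .zero .one .zero .one .one .zero .zero (IsGau.omega.neg)
  · ext i j
    fin_cases i <;> fin_cases j <;> simp [mul_apply, Fin.sum_univ_three] <;>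
      first | ring1 | linear_combination -ho | linear_combination ho
  · ext i j
    fin_cases i <;> fin_cases j <;> simp [mul_apply, Fin.sum_univ_three] <;>
      first | ring1 | linear_combination -ho | linear_combination ho
  · ext i j
    fin_cases i <;> fin_cases j <;> simp [D2, TT, mul_apply, Fin.sum_univ_three] <;>
      first | ring1 | linear_combination -ho | linear_combination ho

theorem fr_RR {P : Matrix (Fin 3) (Fin 3) ℂ} (h : Fr P) : Fr (P * RR) := by
  have ho := om_sq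
  refine h.mul (g := !![1, -om, -om; 0, -om, 0; 0, om, 1])
    ⟨?_, !![1, om - 1, om; 0, om, 0; 0, 1, 1], ?_, ?_, ?_⟩ ?_
  · exact ent3 .one (IsGau.omega.neg) (IsGau.omega.neg) .zero (IsGau.omega.neg) .zero .zero .omega
      .one
  · exact ent3 .one (IsGau.omega.sub .one) .omega .zero .omega .zero .zero .one .one
  · ext i j
    fin_cases i <;> fin_cases j <;> simp [mul_apply, Fin.sum_univ_three] <;>
      first | ring1 | linear_combination -ho | linear_combination ho
  · ext i j
    fin_cases i <;> fin_cases j <;> simp [mul_apply, Fin.sum_univ_three] <;>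
      first | ring1 | linear_combination -ho | linear_combination ho
  · ext i j
    fin_cases i <;> fin_cases j <;> simp [RR, TT, ha, mul_apply, Fin.sum_univ_three] <;>
      first | ring1 | linear_combination ho | linear_combination -ho | linear_combination ho / 2 | linear_combination -ho / 2 |
        linear_combination (om / 2) * ho | linear_combination (1 / 2 + om / 2) * ho |
        linear_combination (-1 / 2 - om / 2) * ho | linear_combination (- om / 2) * ho

/-- The trace of the Gram matrix of the frame. -/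
noncomputable def tF (M P : Matrix (Fin 3) (Fin 3) ℂ) : ℝ := (Pᴴ * M * P).trace.re

/-- The columns of a matrix. -/
def cl (P : Matrix (Fin 3) (Fin 3) ℂ) (j : Fin 3) : Fin 3 → ℂ := fun i => P i j

theorem gram_apply (M P : Matrix (Fin 3) (Fin 3) ℂ) (j : Fin 3) :
    ((Pᴴ * M * P) j j).re = q M (cl P j) := by
  unfold q
  congr 1
  rw [Matrix.mul_assoc]
  rfl

theorem tF_eq (M P : Matrix (Fin 3) (Fin 3) ℂ) : tF M P = ∑ j, q M (cl P j) := by
  unfold tF
  rw [Matrix.trace, Complex.re_sum]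
  exact Finset.sum_congr rfl fun j _ => gram_apply M P j

theorem le_tF {M : Matrix (Fin 3) (Fin 3) ℂ} (hM : Psd M) (P : Matrix (Fin 3) (Fin 3) ℂ)
    (j : Fin 3) : q M (cl P j) ≤ tF M P := by
  rw [tF_eq]
  exact Finset.single_le_sum (f := fun j => q M (cl P j)) (fun j _ => hM.2 _) (Finset.mem_univ j)

/-- `P` is a frame whose Gram matrix has minimal trace. -/
def Mn (M P : Matrix (Fin 3) (Fin 3) ℂ) : Prop := Fr P ∧ ∀ P', Fr P' → tF M P ≤ tF M P'

theorem exists_mn {M : Matrix (Fin 3) (Fin 3) ℂ} (hM : Pd M) : ∃ P, Mn M P := by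
  obtain ⟨c, hc, hlow⟩ := hM.lower
  have h0 : Fr TT := ⟨1, IsGL.one, (Matrix.one_mul _).symm⟩
  set C := tF M TT with hC
  have hfin : {P : Matrix (Fin 3) (Fin 3) ℂ | Fr P ∧ tF M P ≤ C}.Finite := by
    have h1 : {P : Fin 3 → Fin 3 → ℂ | ∀ i, P i ∈ {x : Fin 3 → ℂ | ∀ j, x j ∈
        {z : ℂ | IsGau z ∧ Complex.normSq z ≤ C / c}}}.Finite :=
      Set.Finite.pi' fun _ => Set.Finite.pi' fun _ => finite_gau _
    refine h1.subset ?_
    rintro P ⟨hP, hPC⟩ i j
    refine ⟨hP.ent i j, ?_⟩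
    rw [le_div_iff₀ hc, mul_comm]
    have h2 : q M (cl P j) ≤ tF M P := le_tF hM.psd P j
    have h3 := hlow (cl P j)
    have h4 : Complex.normSq (P i j) ≤ ‖cl P j‖ ^ 2 := by
      rw [Complex.normSq_eq_norm_sq]
      exact pow_le_pow_left₀ (norm_nonneg _) (norm_le_pi_norm (cl P j) i) 2
    have h5 := mul_le_mul_of_nonneg_left h4 hc.le
    linarith
  obtain ⟨P, hP, hmin⟩ := Set.exists_min_image _ (tF M) hfin ⟨TT, h0, le_rfl⟩
  refine ⟨P, hP.1, fun P' hP' => ?_⟩
  rcases le_or_gt (tF M P') C with h1 | h1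
  · exact hmin P' ⟨hP', h1⟩
  · exact hP.2.trans h1.le

theorem tF_mul (M P R : Matrix (Fin 3) (Fin 3) ℂ) :
    tF M (P * R) = ((Pᴴ * M * P) * (R * Rᴴ)).trace.re := by
  unfold tF
  rw [conjTranspose_mul]
  have h1 : Rᴴ * Pᴴ * M * (P * R) = Rᴴ * ((Pᴴ * M * P) * R) := by
    simp only [Matrix.mul_assoc]
  rw [h1, trace_mul_comm, Matrix.mul_assoc]

theorem Mn.mul {M P R : Matrix (Fin 3) (Fin 3) ℂ} (h : Mn M P) (hR : R * Rᴴ = 1)
    (hP : Fr (P * R)) : Mn M (P * R) := by
  refine ⟨hP, fun P' hP' => ?_⟩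
  rw [tF_mul, hR, Matrix.mul_one]
  exact h.2 P' hP'

theorem Mn.S1 {M P : Matrix (Fin 3) (Fin 3) ℂ} (h : Mn M P) :
    Mn M (P * Pool.Agent.K6.H19.GI.S1) := by
  refine h.mul ?_ (fr_S1 h.1)
  ext i j
  fin_cases i <;> fin_cases j <;>
    simp [Pool.Agent.K6.H19.GI.S1, mul_apply, Fin.sum_univ_three, conjTranspose_apply]

theorem Mn.S2 {M P : Matrix (Fin 3) (Fin 3) ℂ} (h : Mn M P) :
    Mn M (P * Pool.Agent.K6.H19.GI.S2) := by
  refine h.mul ?_ (fr_S2 h.1)
  ext i j
  fin_cases i <;> fin_cases j <;>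
    simp [Pool.Agent.K6.H19.GI.S2, mul_apply, Fin.sum_univ_three, conjTranspose_apply]

theorem om_star_om : om * star om = 1 := by
  rw [star_om]
  linear_combination -om_sq

theorem Mn.D1 {M P : Matrix (Fin 3) (Fin 3) ℂ} (h : Mn M P) :
    Mn M (P * Pool.Agent.K6.H19.GI.D1) := by
  refine h.mul ?_ (fr_D1 h.1)
  have ho : om * (starRingEnd ℂ) om = 1 := om_star_om
  ext i j
  fin_cases i <;> fin_cases j <;>
    simp [Pool.Agent.K6.H19.GI.D1, mul_apply, Fin.sum_univ_three, conjTranspose_apply, ho]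

theorem Mn.D2 {M P : Matrix (Fin 3) (Fin 3) ℂ} (h : Mn M P) :
    Mn M (P * Pool.Agent.K6.H19.GI.D2) := by
  refine h.mul ?_ (fr_D2 h.1)
  have ho : om * (starRingEnd ℂ) om = 1 := om_star_om
  ext i j
  fin_cases i <;> fin_cases j <;>
    simp [Pool.Agent.K6.H19.GI.D2, mul_apply, Fin.sum_univ_three, conjTranspose_apply, ho]

end Pool.Agent.K6.H19.GI
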