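import Pool.Agent.K6.H19.GI.LemA

/-!
# Reduction of forms of rank three over the Gaussian integers
-/

set_option autoImplicit false

namespace Pool.Agent.K6.H19.GI

open Matrix

theorem gram_mul (M P R : Matrix (Fin 3) (Fin 3) ℂ) :
    (P * R)ᴴ * M * (P * R) = Rᴴ * (Pᴴ * M * P) * R := by
  rw [conjTranspose_mul]
  simp only [Matrix.mul_assoc]

theorem herm_st {N : Matrix (Fin 3) (Fin 3) ℂ} (h : N.IsHermitian) (i j : Fin 3) :
    N j i = star (N i j) := by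
  have := congrFun (congrFun h.eq j) i
  rw [conjTranspose_apply] at this
  exact this.symm

theorem star_re' (z : ℂ) : (star z).re = z.re := rfl

theorem star_im' (z : ℂ) : (star z).im = -z.im := rfl

theorem herm_im {N : Matrix (Fin 3) (Fin 3) ℂ} (h : N.IsHermitian) (i : Fin 3) :
    (N i i).im = 0 := by
  have h2 := congrArg Complex.im (herm_st h i i)
  rw [star_im'] at h2
  linarith

theorem RR_mul : RR * RRᴴ = !![2, ha, ha; star ha, 1, 0; star ha, 0, 1] := by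
  have ho := om_sq
  have h1 : (starRingEnd ℂ) om = -om := conj_om
  have h2 : (starRingEnd ℂ) ha = (1 + om) / 2 := star_ha
  ext i j
  fin_cases i <;> fin_cases j <;>
    simp [RR, mul_apply, Fin.sum_univ_three, conjTranspose_apply, h1, h2] <;>
      rw [ha] <;> ring_nf <;> simp only [show om ^ 2 = -1 by rw [pow_two, ho],
        show om ^ 3 = -om by rw [pow_succ, pow_two, ho]; ring,
        show om ^ 4 = 1 by rw [show om ^ 4 = (om * om) * (om * om) by ring, ho]; ring] <;> ring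

/-- The consequence of the minimality for the basic change of the frame. -/
theorem Mn.base {M P : Matrix (Fin 3) (Fin 3) ℂ} (hM : M.IsHermitian) (h : Mn M P) :
    0 ≤ ((Pᴴ * M * P) 0 0).re + (((Pᴴ * M * P) 0 1).re - ((Pᴴ * M * P) 0 1).im) +
      (((Pᴴ * M * P) 0 2).re - ((Pᴴ * M * P) 0 2).im) := by
  have h1 := h.2 (P * RR) (fr_RR h.1)
  rw [tF_mul, RR_mul] at h1
  unfold tF at h1
  set N := Pᴴ * M * P with hN
  have hNh : N.IsHermitian := herm_conj hM P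
  have h01 := herm_st hNh 0 1
  have h02 := herm_st hNh 0 2
  have h3 : (starRingEnd ℂ) ha = (1 + om) / 2 := star_ha
  simp only [Matrix.trace, Fin.sum_univ_three, diag_apply, mul_apply, h01, h02, Complex.add_re,
    Complex.mul_re, star_re', star_im'] at h1
  simp [ha, om_re, om_im] at h1
  linarith

theorem gram_D1 (M P : Matrix (Fin 3) (Fin 3) ℂ) :
    ((P * D1)ᴴ * M * (P * D1)) 0 0 = (Pᴴ * M * P) 0 0 ∧
    ((P * D1)ᴴ * M * (P * D1)) 0 1 = (Pᴴ * M * P) 0 1 * om ∧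
    ((P * D1)ᴴ * M * (P * D1)) 0 2 = (Pᴴ * M * P) 0 2 := by
  rw [gram_mul]
  set N := Pᴴ * M * P
  refine ⟨?_, ?_, ?_⟩ <;> simp [D1, mul_apply, Fin.sum_univ_three, conjTranspose_apply]

theorem gram_D2 (M P : Matrix (Fin 3) (Fin 3) ℂ) :
    ((P * D2)ᴴ * M * (P * D2)) 0 0 = (Pᴴ * M * P) 0 0 ∧
    ((P * D2)ᴴ * M * (P * D2)) 0 1 = (Pᴴ * M * P) 0 1 ∧
    ((P * D2)ᴴ * M * (P * D2)) 0 2 = (Pᴴ * M * P) 0 2 * om := by
  rw [gram_mul]
  set N := Pᴴ * M * P
  refine ⟨?_, ?_, ?_⟩ <;> simp [D2, mul_apply, Fin.sum_univ_three, conjTranspose_apply]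

theorem gram_S1 (M P : Matrix (Fin 3) (Fin 3) ℂ) :
    ((P * S1)ᴴ * M * (P * S1)) 0 0 = (Pᴴ * M * P) 1 1 ∧
    ((P * S1)ᴴ * M * (P * S1)) 0 1 = (Pᴴ * M * P) 1 0 ∧
    ((P * S1)ᴴ * M * (P * S1)) 0 2 = (Pᴴ * M * P) 1 2 := by
  rw [gram_mul]
  set N := Pᴴ * M * P
  refine ⟨?_, ?_, ?_⟩ <;> simp [S1, mul_apply, Fin.sum_univ_three, conjTranspose_apply]

theorem gram_S2 (M P : Matrix (Fin 3) (Fin 3) ℂ) :
    ((P * S2)ᴴ * M * (P * S2)) 0 0 = (Pᴴ * M * P) 2 2 ∧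
    ((P * S2)ᴴ * M * (P * S2)) 0 1 = (Pᴴ * M * P) 2 1 ∧
    ((P * S2)ᴴ * M * (P * S2)) 0 2 = (Pᴴ * M * P) 2 0 := by
  rw [gram_mul]
  set N := Pᴴ * M * P
  refine ⟨?_, ?_, ?_⟩ <;> simp [S2, mul_apply, Fin.sum_univ_three, conjTranspose_apply]

theorem mul_om_re (z : ℂ) : (z * om).re = -z.im := by
  rw [Complex.mul_re, om_re, om_im]; ring

theorem mul_om_im (z : ℂ) : (z * om).im = z.re := by
  rw [Complex.mul_im, om_re, om_im]; ring

theorem Mn.base1 {M P : Matrix (Fin 3) (Fin 3) ℂ} (hM : M.IsHermitian) (h : Mn M P) :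
    0 ≤ ((Pᴴ * M * P) 0 0).re - (|((Pᴴ * M * P) 0 1).re| + |((Pᴴ * M * P) 0 1).im|) +
      (((Pᴴ * M * P) 0 2).re - ((Pᴴ * M * P) 0 2).im) := by
  have h0 := h.base hM
  have h1 := h.D1.base hM
  have h2 := h.D1.D1.base hM
  have h3 := h.D1.D1.D1.base hM
  simp only [(gram_D1 M _).1, (gram_D1 M _).2.1, (gram_D1 M _).2.2, mul_om_re, mul_om_im] at h1 h2 h3
  rcases abs_cases ((Pᴴ * M * P) 0 1).re with ⟨e1, -⟩ | ⟨e1, -⟩ <;>
    rcases abs_cases ((Pᴴ * M * P) 0 1).im with ⟨e2, -⟩ | ⟨e2, -⟩ <;>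
      rw [e1, e2] <;> linarith

theorem Mn.row0 {M P : Matrix (Fin 3) (Fin 3) ℂ} (hM : M.IsHermitian) (h : Mn M P) :
    |((Pᴴ * M * P) 0 1).re| + |((Pᴴ * M * P) 0 1).im| +
      (|((Pᴴ * M * P) 0 2).re| + |((Pᴴ * M * P) 0 2).im|) ≤ ((Pᴴ * M * P) 0 0).re := by
  have h0 := h.base1 hM
  have h1 := h.D2.base1 hM
  have h2 := h.D2.D2.base1 hM
  have h3 := h.D2.D2.D2.base1 hM
  simp only [(gram_D2 M _).1, (gram_D2 M _).2.1, (gram_D2 M _).2.2, mul_om_re, mul_om_im] at h1 h2 h3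
  rcases abs_cases ((Pᴴ * M * P) 0 2).re with ⟨e1, -⟩ | ⟨e1, -⟩ <;>
    rcases abs_cases ((Pᴴ * M * P) 0 2).im with ⟨e2, -⟩ | ⟨e2, -⟩ <;>
      rw [e1, e2] <;> linarith

theorem Mn.row1 {M P : Matrix (Fin 3) (Fin 3) ℂ} (hM : M.IsHermitian) (h : Mn M P) :
    |((Pᴴ * M * P) 0 1).re| + |((Pᴴ * M * P) 0 1).im| +
      (|((Pᴴ * M * P) 1 2).re| + |((Pᴴ * M * P) 1 2).im|) ≤ ((Pᴴ * M * P) 1 1).re := by
  have h0 := h.S1.row0 hM
  rw [(gram_S1 M P).1, (gram_S1 M P).2.1, (gram_S1 M P).2.2, herm_st (herm_conj hM P) 0 1,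
    star_re', star_im', abs_neg] at h0
  exact h0

theorem Mn.row2 {M P : Matrix (Fin 3) (Fin 3) ℂ} (hM : M.IsHermitian) (h : Mn M P) :
    |((Pᴴ * M * P) 1 2).re| + |((Pᴴ * M * P) 1 2).im| +
      (|((Pᴴ * M * P) 0 2).re| + |((Pᴴ * M * P) 0 2).im|) ≤ ((Pᴴ * M * P) 2 2).re := by
  have h0 := h.S2.row0 hM
  rw [(gram_S2 M P).1, (gram_S2 M P).2.1, (gram_S2 M P).2.2, herm_st (herm_conj hM P) 0 2,
    herm_st (herm_conj hM P) 1 2, star_re', star_im', star_re', star_im', abs_neg, abs_neg] at h0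
  exact h0

/-- The value of a form at a vector with two nonzero coordinates. -/
theorem q_two (K : Matrix (Fin 3) (Fin 3) ℂ) (hK : K.IsHermitian) {j k : Fin 3} (hjk : j ≠ k)
    (u : ℂ) : q K (Pi.single j 1 + Pi.single k u) =
      (K j j).re + Complex.normSq u * (K k k).re + 2 * (K j k * u).re := by
  have h1 := herm_st hK
  have h2 := herm_im hK
  have e : ∀ w : Fin 3 → ℂ, q K w = ∑ a, ∑ b, (star (w a) * (K a b * w b)).re := by
    intro w
    unfold q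
    rw [dotProduct, Complex.re_sum]
    refine Finset.sum_congr rfl fun a _ => ?_
    rw [mulVec, dotProduct, Finset.mul_sum, Complex.re_sum]
    rfl
  rw [e]
  have key : ∀ j k : Fin 3, j ≠ k → ∑ a, ∑ b, (star ((Pi.single j 1 + Pi.single k u : Fin 3 → ℂ) a) *
      (K a b * (Pi.single j 1 + Pi.single k u : Fin 3 → ℂ) b)).re =
      (K j j * 1).re + (star u * (K k k * u)).re + (K j k * u).re + (star u * K k j).re := by
    intro j k hjk
    fin_cases j <;> fin_cases k <;> simp [Fin.sum_univ_three, Pi.single_apply] at hjk ⊢ <;> ring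
  rw [key j k hjk, h1 j k]
  simp only [Complex.mul_re, Complex.mul_im, star_re', star_im', Complex.normSq_apply, h2,
    Complex.one_re, Complex.one_im]
  ring

theorem q_one' (K : Matrix (Fin 3) (Fin 3) ℂ) (j : Fin 3)
    (u : ℂ) : q K (Pi.single j u) = Complex.normSq u * (K j j).re := by
  have h1 : (Pi.single j u : Fin 3 → ℂ) = u • Pi.single j 1 := by
    ext i
    rw [Pi.smul_apply, Pi.single_apply, Pi.single_apply]
    split_ifs <;> simp
  rw [h1, q_smul_vec]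
  congr 1
  unfold q
  simp [dotProduct, mulVec, Pi.single_apply]

theorem TI_mulVec (w : Fin 3 → ℂ) : TIᴴ *ᵥ w = ![w 0, w 1, star ha * (w 0 + w 1 + w 2)] := by
  ext i
  fin_cases i <;>
    simp [TI, mulVec, dotProduct, Fin.sum_univ_three, conjTranspose_apply] <;> ring

/-- The inverse of a frame. -/
theorem Fr.inv {P : Matrix (Fin 3) (Fin 3) ℂ} (h : Fr P) :
    ∃ Q : Matrix (Fin 3) (Fin 3) ℂ, P * Q = 1 ∧ Q * P = 1 ∧
      ∀ w : Fin 3 → ℂ, IsGau (w 0) → IsGau (w 1) → IsGau (star ha * (w 0 + w 1 + w 2)) →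
        IsLat (Qᴴ *ᵥ w) := by
  obtain ⟨B, hB, rfl⟩ := h
  obtain ⟨B', h1, h2, h3⟩ := hB.inv
  have hB' : IsGL B' := ⟨h1, B, hB.ent, h3, h2⟩
  refine ⟨TI * B', ?_, ?_, fun w hw0 hw1 hw2 => ?_⟩
  · calc B * TT * (TI * B') = B * (TT * TI) * B' := by simp only [Matrix.mul_assoc]
      _ = 1 := by rw [TT_TI, Matrix.mul_one, h2]
  · calc TI * B' * (B * TT) = TI * (B' * B) * TT := by simp only [Matrix.mul_assoc]
      _ = 1 := by rw [h3, Matrix.mul_one, TI_TT]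
  · rw [conjTranspose_mul, ← mulVec_mulVec, TI_mulVec]
    refine hB'.conjTranspose.mulVec fun i => ?_
    fin_cases i
    · exact hw0
    · exact hw1
    · exact hw2

theorem ha_gau {u : ℂ} (hu : u = 1 ∨ u = -1 ∨ u = om ∨ u = -om) :
    IsGau u ∧ IsGau (star ha * (1 + u)) ∧ Complex.normSq u = 1 := by
  have ho := om_sq
  rw [star_ha]
  rcases hu with rfl | rfl | rfl | rfl
  · refine ⟨.one, ⟨1, 1, ?_⟩, by simp⟩
    push_cast
    ring
  · refine ⟨IsGau.one.neg, ⟨0, 0, ?_⟩, by simp⟩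
    push_cast
    ring
  · refine ⟨.omega, ⟨0, 1, ?_⟩, ?_⟩
    · push_cast
      linear_combination (1 / 2 : ℂ) * ho
    · rw [Complex.normSq_apply, om_re, om_im]; ring
  · refine ⟨IsGau.omega.neg, ⟨1, 0, ?_⟩, ?_⟩
    · push_cast
      linear_combination (-1 / 2 : ℂ) * ho
    · rw [Complex.normSq_neg, Complex.normSq_apply, om_re, om_im]; ring

/-- The bounds for the dual Gram matrix. -/
structure Kb (K : Matrix (Fin 3) (Fin 3) ℂ) (h : ℝ) : Prop where
  diag : ∀ j, h ≤ 2 * (K j j).re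
  re : ∀ j k, j ≠ k → 2 * |(K j k).re| ≤ (K j j).re + (K k k).re - h
  im : ∀ j k, j ≠ k → 2 * |(K j k).im| ≤ (K j j).re + (K k k).re - h

theorem kb_of {H Q : Matrix (Fin 3) (Fin 3) ℂ} (hH : H.IsHermitian) {h : ℝ}
    (hmin : ∀ w, IsLat w → w ≠ 0 → h ≤ q H w) {P : Matrix (Fin 3) (Fin 3) ℂ} (hPQ : Q * P = 1)
    (hQ : ∀ w : Fin 3 → ℂ, IsGau (w 0) → IsGau (w 1) → IsGau (star ha * (w 0 + w 1 + w 2)) →
        IsLat (Qᴴ *ᵥ w)) : Kb (Q * H * Qᴴ) h := by
  have hKe : Q * H * Qᴴ = Qᴴᴴ * H * Qᴴ := by rw [conjTranspose_conjTranspose]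
  have hKh : (Q * H * Qᴴ).IsHermitian := by
    rw [hKe]
    exact herm_conj hH _
  have hne : ∀ w : Fin 3 → ℂ, w ≠ 0 → Qᴴ *ᵥ w ≠ 0 := by
    intro w hw h0
    apply hw
    have h1 : Pᴴ * Qᴴ = 1 := by rw [← conjTranspose_mul, hPQ, conjTranspose_one]
    have h2 := congrArg (fun v => Pᴴ *ᵥ v) h0
    simpa only [mulVec_mulVec, h1, one_mulVec, mulVec_zero] using h2
  have hq : ∀ w : Fin 3 → ℂ, w ≠ 0 → IsGau (w 0) → IsGau (w 1) →
      IsGau (star ha * (w 0 + w 1 + w 2)) → h ≤ q (Q * H * Qᴴ) w := by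
    intro w hw h0 h1 h2
    rw [hKe, q_conj]
    exact hmin _ (hQ w h0 h1 h2) (hne w hw)
  have key : ∀ j k : Fin 3, j ≠ k → ∀ u : ℂ, (u = 1 ∨ u = -1 ∨ u = om ∨ u = -om) →
      h ≤ ((Q * H * Qᴴ) j j).re + ((Q * H * Qᴴ) k k).re + 2 * ((Q * H * Qᴴ) j k * u).re := by
    intro j k hjk u hu
    obtain ⟨u1, u2, u3⟩ := ha_gau hu
    have h1 := q_two (Q * H * Qᴴ) hKh hjk u
    rw [u3, one_mul] at h1
    rw [← h1]
    have hs : (Pi.single j 1 + Pi.single k u : Fin 3 → ℂ) 0 +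
        (Pi.single j 1 + Pi.single k u : Fin 3 → ℂ) 1 +
        (Pi.single j 1 + Pi.single k u : Fin 3 → ℂ) 2 = 1 + u := by
      fin_cases j <;> fin_cases k <;> simp at hjk ⊢ <;> ring
    have hg : ∀ i, IsGau ((Pi.single j 1 + Pi.single k u : Fin 3 → ℂ) i) := by
      intro i
      rw [Pi.add_apply, Pi.single_apply, Pi.single_apply]
      refine IsGau.add ?_ ?_
      · split_ifs
        · exact .one
        · exact .zero
      · split_ifs
        · exact u1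
        · exact .zero
    refine hq _ ?_ (hg 0) (hg 1) (by rw [hs]; exact u2)
    intro h0
    have h2 := congrFun h0 j
    rw [Pi.add_apply, Pi.single_eq_same, Pi.single_eq_of_ne hjk] at h2
    simp at h2
  refine ⟨fun j => ?_, fun j k hjk => ?_, fun j k hjk => ?_⟩
  · have h1 := q_one' (Q * H * Qᴴ) j (1 + om)
    have h2 : Complex.normSq (1 + om) = 2 := by
      rw [Complex.normSq_apply]
      simp [om_re, om_im]
      norm_num
    rw [h2] at h1
    rw [← h1]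
    have hs : (Pi.single j (1 + om) : Fin 3 → ℂ) 0 + (Pi.single j (1 + om) : Fin 3 → ℂ) 1 +
        (Pi.single j (1 + om) : Fin 3 → ℂ) 2 = 1 + om := by
      fin_cases j <;> simp
    have hg : ∀ i, IsGau ((Pi.single j (1 + om) : Fin 3 → ℂ) i) := by
      intro i
      rw [Pi.single_apply]
      split_ifs
      · exact IsGau.one.add .omega
      · exact .zero
    refine hq _ ?_ (hg 0) (hg 1) (by rw [hs]; exact (ha_gau (Or.inr (Or.inr (Or.inl rfl)))).2.1)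
    intro h0
    have h3 := congrFun h0 j
    rw [Pi.single_eq_same] at h3
    rw [Pi.zero_apply] at h3
    rw [h3] at h2
    simp at h2
  · have h1 := key j k hjk 1 (Or.inl rfl)
    have h2 := key j k hjk (-1) (Or.inr (Or.inl rfl))
    rw [mul_one] at h1
    rw [mul_neg, mul_one, Complex.neg_re] at h2
    rcases abs_cases ((Q * H * Qᴴ) j k).re with ⟨e, -⟩ | ⟨e, -⟩ <;> rw [e] <;> linarith
  · have h1 := key j k hjk om (Or.inr (Or.inr (Or.inl rfl)))
    have h2 := key j k hjk (-om) (Or.inr (Or.inr (Or.inr rfl)))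
    rw [mul_om_re] at h1
    rw [mul_neg, Complex.neg_re, mul_om_re] at h2
    rcases abs_cases ((Q * H * Qᴴ) j k).im with ⟨e, -⟩ | ⟨e, -⟩ <;> rw [e] <;> linarith

theorem mul_bd {x p s : ℝ} (h : 2 * |p| ≤ s) : -(|x| * s) ≤ 2 * (x * p) := by
  have h1 : |x| * (2 * |p|) ≤ |x| * s := mul_le_mul_of_nonneg_left h (abs_nonneg x)
  have h2 : -(|x| * |p|) ≤ x * p := by
    rw [← abs_mul]
    exact neg_abs_le _
  linarith

/-- **Voronoi's inequality.** -/
theorem tr_ge {M H : Matrix (Fin 3) (Fin 3) ℂ} (hM : M.IsHermitian) (hH : H.IsHermitian) {h : ℝ}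
    (hmin : ∀ w, IsLat w → w ≠ 0 → h ≤ q H w) {P : Matrix (Fin 3) (Fin 3) ℂ} (hP : Mn M P) :
    h / 2 * tF M P ≤ (M * H).trace.re := by
  obtain ⟨Q, h1, h2, h3⟩ := hP.1.inv
  have hK := kb_of hH hmin h2 h3
  have hKh : (Q * H * Qᴴ).IsHermitian := by
    have hKe : Q * H * Qᴴ = Qᴴᴴ * H * Qᴴ := by rw [conjTranspose_conjTranspose]
    rw [hKe]
    exact herm_conj hH _
  have r0 := hP.row0 hM
  have r1 := hP.row1 hM
  have r2 := hP.row2 hM
  have hNh : (Pᴴ * M * P).IsHermitian := herm_conj hM P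
  have htr : (M * H).trace = ((Pᴴ * M * P) * (Q * H * Qᴴ)).trace := by
    have e1 : Qᴴ * Pᴴ = 1 := by rw [← conjTranspose_mul, h1, conjTranspose_one]
    have e2 : (Pᴴ * M * P) * (Q * H * Qᴴ) = (Pᴴ * (M * H)) * Qᴴ := by
      calc (Pᴴ * M * P) * (Q * H * Qᴴ) = Pᴴ * M * (P * Q) * H * Qᴴ := by
            simp only [Matrix.mul_assoc]
        _ = _ := by rw [h1, Matrix.mul_one]; simp only [Matrix.mul_assoc]
    rw [e2, trace_mul_comm (Pᴴ * (M * H)), ← Matrix.mul_assoc, e1, Matrix.one_mul]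
  rw [htr]
  unfold tF
  set N := Pᴴ * M * P
  set K := Q * H * Qᴴ
  have d0 := herm_im hNh 0
  have d1 := herm_im hNh 1
  have d2 := herm_im hNh 2
  have e : (N * K).trace.re = (N 0 0).re * (K 0 0).re + (N 1 1).re * (K 1 1).re +
      (N 2 2).re * (K 2 2).re + 2 * ((N 0 1).re * (K 0 1).re) + 2 * ((N 0 1).im * (K 0 1).im) +
      2 * ((N 0 2).re * (K 0 2).re) + 2 * ((N 0 2).im * (K 0 2).im) +
      2 * ((N 1 2).re * (K 1 2).re) + 2 * ((N 1 2).im * (K 1 2).im) := by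
    simp only [Matrix.trace, Fin.sum_univ_three, diag_apply, mul_apply, herm_st hNh 0 1,
      herm_st hNh 0 2, herm_st hNh 1 2, herm_st hKh 0 1, herm_st hKh 0 2, herm_st hKh 1 2,
      Complex.add_re, Complex.mul_re, star_re', star_im', d0, d1, d2]
    ring
  have e' : N.trace.re = (N 0 0).re + (N 1 1).re + (N 2 2).re := by
    simp only [Matrix.trace, Fin.sum_univ_three, diag_apply, Complex.add_re]
  rw [e, e']
  have a1 := mul_bd (x := (N 0 1).re) (hK.re 0 1 (by decide))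
  have a2 := mul_bd (x := (N 0 1).im) (hK.im 0 1 (by decide))
  have a3 := mul_bd (x := (N 0 2).re) (hK.re 0 2 (by decide))
  have a4 := mul_bd (x := (N 0 2).im) (hK.im 0 2 (by decide))
  have a5 := mul_bd (x := (N 1 2).re) (hK.re 1 2 (by decide))
  have a6 := mul_bd (x := (N 1 2).im) (hK.im 1 2 (by decide))
  have b0 := mul_nonneg (sub_nonneg.2 r0) (sub_nonneg.2 (hK.diag 0))
  have b1 := mul_nonneg (sub_nonneg.2 r1) (sub_nonneg.2 (hK.diag 1))
  have b2 := mul_nonneg (sub_nonneg.2 r2) (sub_nonneg.2 (hK.diag 2))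
  nlinarith [a1, a2, a3, a4, a5, a6, b0, b1, b2]

/-- `J` is closed under sums and multiplication with Gaussian integers. -/
structure IsSub {n : ℕ} (J : Set (Fin n → ℂ)) : Prop where
  zero : 0 ∈ J
  add : ∀ x ∈ J, ∀ y ∈ J, x + y ∈ J
  smul : ∀ a : ℂ, IsGau a → ∀ x ∈ J, a • x ∈ J

theorem IsSub.sum {n : ℕ} {J : Set (Fin n → ℂ)} (hJ : IsSub J) {κ : Type*} (s : Finset κ)
    (f : κ → Fin n → ℂ) (h : ∀ i ∈ s, f i ∈ J) : ∑ i ∈ s, f i ∈ J := by
  classical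
  induction s using Finset.induction_on with
  | empty => simpa using hJ.zero
  | insert i s hi ih =>
    rw [Finset.sum_insert hi]
    exact hJ.add _ (h i (Finset.mem_insert_self _ _)) _
      (ih fun j hj => h j (Finset.mem_insert_of_mem hj))

/-- The parallelogram law. -/
theorem q_para (M : Matrix (Fin 3) (Fin 3) ℂ) (x y : Fin 3 → ℂ) :
    q M (x + y) + q M (x - y) = 2 * q M x + 2 * q M y := by
  unfold q
  simp only [star_add, star_sub, mulVec_add, mulVec_sub, dotProduct_add, dotProduct_sub,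
    add_dotProduct, sub_dotProduct, Complex.add_re, Complex.sub_re]
  ring

/-- The vector `(a e₁ + b e₂ + e₃) / (1 + i)`. -/
noncomputable def fv (P : Matrix (Fin 3) (Fin 3) ℂ) (a b : ℂ) : Fin 3 → ℂ :=
  P *ᵥ ![ha * a, ha * b, ha]

theorem ha_eq : ha = -om * (ha * om) ∧ ha * 2 = 1 - om ∧ ha * (1 + om) = 1 ∧ ha * (1 - om) = -om := by
  have ho := om_sq
  unfold ha
  refine ⟨?_, ?_, ?_, ?_⟩
  · linear_combination ((1 - om) / 2) * ho
  · ring
  · linear_combination (-1 / 2 : ℂ) * ho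
  · linear_combination (1 / 2 : ℂ) * ho

theorem fv_lat {P : Matrix (Fin 3) (Fin 3) ℂ} (h : Fr P) {a b : ℂ}
    (ha' : a = 1 ∨ a = -1 ∨ a = om ∨ a = -om) (hb : b = 1 ∨ b = -1) : IsLat (fv P a b) := by
  obtain ⟨B, hB, rfl⟩ := h
  have hh := ha_eq
  have ho := om_sq
  unfold fv
  rw [← mulVec_mulVec]
  refine hB.mulVec ?_
  have e : TT *ᵥ ![ha * a, ha * b, ha] = ![ha * a - ha, ha * b - ha, 1] := by
    ext i
    fin_cases i <;> simp [TT, mulVec, dotProduct, Fin.sum_univ_three, ha_mul] <;> ring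
  rw [e]
  intro i
  fin_cases i
  · show IsGau (ha * a - ha)
    rcases ha' with rfl | rfl | rfl | rfl
    · exact ⟨0, 0, by push_cast; ring⟩
    · exact ⟨-1, 1, by push_cast; linear_combination -hh.2.1⟩
    · exact ⟨0, 1, by push_cast; linear_combination -hh.2.2.2⟩
    · exact ⟨-1, 0, by push_cast; linear_combination -hh.2.2.1⟩
  · show IsGau (ha * b - ha)
    rcases hb with rfl | rfl
    · exact ⟨0, 0, by push_cast; ring⟩
    · exact ⟨-1, 1, by push_cast; linear_combination -hh.2.1⟩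
  · exact .one

theorem fv_sub (P : Matrix (Fin 3) (Fin 3) ℂ) (a b a' b' : ℂ) :
    fv P a b = fv P a' b' + (ha * (a - a')) • cl P 0 + (ha * (b - b')) • cl P 1 := by
  ext i
  simp only [fv, cl, mulVec, dotProduct, Fin.sum_univ_three, Pi.add_apply, Pi.smul_apply,
    smul_eq_mul]
  simp
  ring

theorem normSq_ha : Complex.normSq ha = 1 / 2 := by
  unfold ha
  rw [Complex.normSq_div, Complex.normSq_apply]
  simp [om_re, om_im]
  norm_num

/-- The average of the values at the four vectors. -/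
theorem fv_avg (M P : Matrix (Fin 3) (Fin 3) ℂ) (a : ℂ) (ha' : Complex.normSq a = 1) :
    q M (fv P a 1) + q M (fv P (-a) 1) + (q M (fv P a (-1)) + q M (fv P (-a) (-1))) =
      2 * tF M P := by
  have e : ∀ b, q M (fv P a b) + q M (fv P (-a) b) =
      q M (cl P 0) + 2 * q M ((ha * b) • cl P 1 + ha • cl P 2) := by
    intro b
    have h1 : fv P a b = ((ha * b) • cl P 1 + ha • cl P 2) + (ha * a) • cl P 0 := by
      ext i
      simp only [fv, cl, mulVec, dotProduct, Fin.sum_univ_three, Pi.add_apply, Pi.smul_apply,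
        smul_eq_mul]
      simp
      ring
    have h2 : fv P (-a) b = ((ha * b) • cl P 1 + ha • cl P 2) - (ha * a) • cl P 0 := by
      ext i
      simp only [fv, cl, mulVec, dotProduct, Fin.sum_univ_three, Pi.add_apply, Pi.smul_apply,
        smul_eq_mul, Pi.sub_apply]
      simp
      ring
    rw [h1, h2, q_para, q_smul_vec M (ha * a), Complex.normSq_mul, normSq_ha, ha']
    ring
  rw [e, e, tF_eq, Fin.sum_univ_three]
  have h3 : (ha * 1) • cl P 1 + ha • cl P 2 = ha • cl P 2 + ha • cl P 1 := by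
    rw [mul_one, add_comm]
  have h4 : (ha * (-1)) • cl P 1 + ha • cl P 2 = ha • cl P 2 - ha • cl P 1 := by
    rw [mul_neg, mul_one, neg_smul]
    abel
  have h5 := q_para M (ha • cl P 2) (ha • cl P 1)
  rw [q_smul_vec, q_smul_vec, normSq_ha] at h5
  rw [h3, h4]
  linarith

theorem cl_lat {P : Matrix (Fin 3) (Fin 3) ℂ} (h : Fr P) (j : Fin 3) : IsLat (cl P j) :=
  fun i => h.ent i j

section J

variable {M P : Matrix (Fin 3) (Fin 3) ℂ} {J : Set (Fin 3 → ℂ)}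

theorem tF_ge_of (hP : Fr P) (hMJ : ∀ v, IsLat v → v ∉ J → 1 ≤ q M v) {a : ℂ}
    (ha' : a = 1 ∨ a = om)
    (h : ∀ b : ℂ, b = 1 ∨ b = -1 → fv P a b ∉ J ∧ fv P (-a) b ∉ J) : 2 ≤ tF M P := by
  have h1 : Complex.normSq a = 1 := by
    rcases ha' with rfl | rfl
    · simp
    · rw [Complex.normSq_apply, om_re, om_im]; ring
  have a1 : a = 1 ∨ a = -1 ∨ a = om ∨ a = -om := by
    rcases ha' with rfl | rfl
    · exact Or.inl rfl
    · exact Or.inr (Or.inr (Or.inl rfl))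
  have a2 : -a = 1 ∨ -a = -1 ∨ -a = om ∨ -a = -om := by
    rcases ha' with rfl | rfl
    · exact Or.inr (Or.inl rfl)
    · exact Or.inr (Or.inr (Or.inr rfl))
  have b1 := hMJ _ (fv_lat hP a1 (Or.inl rfl)) (h 1 (Or.inl rfl)).1
  have b2 := hMJ _ (fv_lat hP a2 (Or.inl rfl)) (h 1 (Or.inl rfl)).2
  have b3 := hMJ _ (fv_lat hP a1 (Or.inr rfl)) (h (-1) (Or.inr rfl)).1
  have b4 := hMJ _ (fv_lat hP a2 (Or.inr rfl)) (h (-1) (Or.inr rfl)).2
  have := fv_avg M P a h1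
  linarith

/-- A lattice vector in terms of a frame. -/
theorem frame_exp (hP : Fr P) {v : Fin 3 → ℂ} (hv : IsLat v) : ∃ c : Fin 3 → ℂ, IsLat c ∧
    v = c 0 • cl P 0 + c 1 • cl P 1 + c 2 • fv P 1 1 := by
  obtain ⟨B, hB, rfl⟩ := hP
  obtain ⟨B', h1, h2, h3⟩ := hB.inv
  have hB' : IsGL B' := ⟨h1, B, hB.ent, h3, h2⟩
  refine ⟨B' *ᵥ v, hB'.mulVec hv, ?_⟩
  set c := B' *ᵥ v with hc
  have e1 : v = (B * TT) *ᵥ (TI *ᵥ c) := by
    rw [mulVec_mulVec, Matrix.mul_assoc, TT_TI, Matrix.mul_one, hc, mulVec_mulVec, h2, one_mulVec]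
  conv_lhs => rw [e1]
  set P := B * TT
  ext i
  simp only [fv, cl, mulVec, dotProduct, Fin.sum_univ_three, Pi.add_apply, Pi.smul_apply,
    smul_eq_mul, TI]
  simp
  ring

theorem tF_ge_aux (hP : Fr P) (hJ : IsSub J) (hne : ∃ v, IsLat v ∧ v ∉ J)
    (hMJ : ∀ v, IsLat v → v ∉ J → 1 ≤ q M v) (h1 : cl P 1 ∈ J) : 2 ≤ tF M P := by
  have ho := om_sq
  have hh := ha_eq
  have hneg : ∀ x ∈ J, -x ∈ J := by
    intro x hx
    have := hJ.smul (-1) IsGau.one.neg x hx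
    rwa [neg_one_smul] at this
  -- the second coefficient does not matter
  have hb : ∀ a b : ℂ, (b = 1 ∨ b = -1) → fv P a b ∈ J → fv P a 1 ∈ J := by
    intro a b hb hf
    rcases hb with rfl | rfl
    · exact hf
    · have e := fv_sub P a 1 a (-1)
      rw [sub_self, mul_zero, zero_smul, add_zero] at e
      rw [e]
      refine hJ.add _ hf _ (hJ.smul _ ?_ _ h1)
      exact ⟨1, -1, by push_cast; linear_combination hh.2.1⟩
  by_cases h0 : cl P 0 ∈ J
  · -- all frame vectors are in `J`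
    have hf : fv P 1 1 ∉ J := by
      intro hf
      obtain ⟨v, hv, hvJ⟩ := hne
      obtain ⟨c, hc, rfl⟩ := frame_exp hP hv
      exact hvJ (hJ.add _ (hJ.add _ (hJ.smul _ (hc 0) _ h0) _ (hJ.smul _ (hc 1) _ h1)) _
        (hJ.smul _ (hc 2) _ hf))
    refine tF_ge_of hP hMJ (Or.inl rfl) fun b hb' => ⟨fun h => hf (hb 1 b hb' h), fun h => hf ?_⟩
    have h3 := hb _ b hb' h
    have e := fv_sub P 1 1 (-1) 1
    rw [sub_self, mul_zero, zero_smul, add_zero] at e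
    rw [e]
    refine hJ.add _ h3 _ (hJ.smul _ ?_ _ h0)
    exact ⟨1, -1, by push_cast; linear_combination hh.2.1⟩
  · -- one of the two pairs is outside `J`
    have key : ∀ s t : ℂ, fv P s 1 ∈ J → fv P t 1 ∈ J → (∃ u : ℂ, IsGau u ∧ u * (ha * (s - t)) = 1) →
        False := by
      rintro s t hs ht ⟨u, hu, hu1⟩
      have e := fv_sub P s 1 t 1
      rw [sub_self, mul_zero, zero_smul, add_zero] at e
      apply h0
      have e2 : cl P 0 = u • (fv P s 1 + -fv P t 1) := by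
        rw [e, add_comm (fv P t 1), add_neg_cancel_right, smul_smul, hu1, one_smul]
      rw [e2]
      exact hJ.smul _ hu _ (hJ.add _ hs _ (hneg _ ht))
    have k1 : ¬(fv P 1 1 ∈ J ∧ fv P om 1 ∈ J) := fun ⟨x, y⟩ => key _ _ x y
      ⟨om, .omega, by linear_combination om * hh.2.2.2 - ho⟩
    have k2 : ¬(fv P 1 1 ∈ J ∧ fv P (-om) 1 ∈ J) := fun ⟨x, y⟩ => key _ _ x y
      ⟨1, .one, by linear_combination hh.2.2.1⟩
    have k3 : ¬(fv P (-1) 1 ∈ J ∧ fv P om 1 ∈ J) := fun ⟨x, y⟩ => key _ _ x y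
      ⟨-1, IsGau.one.neg, by linear_combination hh.2.2.1⟩
    have k4 : ¬(fv P (-1) 1 ∈ J ∧ fv P (-om) 1 ∈ J) := fun ⟨x, y⟩ => key _ _ x y
      ⟨-om, IsGau.omega.neg, by linear_combination om * hh.2.2.2 - ho⟩
    by_cases c1 : fv P 1 1 ∉ J ∧ fv P (-1) 1 ∉ J
    · exact tF_ge_of hP hMJ (Or.inl rfl) fun b hb' =>
        ⟨fun h => c1.1 (hb _ b hb' h), fun h => c1.2 (hb _ b hb' h)⟩
    · refine tF_ge_of hP hMJ (Or.inr rfl) fun b hb' =>
        ⟨fun h => ?_, fun h => ?_⟩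
      · have h3 := hb _ b hb' h
        tauto
      · have h3 := hb _ b hb' h
        tauto

theorem cl_S1 (P : Matrix (Fin 3) (Fin 3) ℂ) :
    cl (P * S1) 0 = cl P 1 ∧ cl (P * S1) 1 = cl P 0 ∧ cl (P * S1) 2 = cl P 2 := by
  refine ⟨?_, ?_, ?_⟩ <;> ext i <;> simp [cl, S1, mul_apply, Fin.sum_univ_three]

theorem two_le_tF (hM : Psd M) (hP : Fr P) (hJ : IsSub J) (hne : ∃ v, IsLat v ∧ v ∉ J)
    (hMJ : ∀ v, IsLat v → v ∉ J → 1 ≤ q M v) : 2 ≤ tF M P := by
  have e1 : tF M (P * S1) = tF M P := by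
    rw [tF_eq, tF_eq, Fin.sum_univ_three, Fin.sum_univ_three, (cl_S1 P).1, (cl_S1 P).2.1,
      (cl_S1 P).2.2]
    ring
  have hs : tF M P = q M (cl P 0) + q M (cl P 1) + q M (cl P 2) := by
    rw [tF_eq, Fin.sum_univ_three]
  by_cases h1 : cl P 1 ∈ J
  · exact tF_ge_aux hP hJ hne hMJ h1
  · by_cases h0 : cl P 0 ∈ J
    · rw [← e1]
      exact tF_ge_aux (fr_S1 hP) hJ hne hMJ (by rw [(cl_S1 P).2.1]; exact h0)
    · have m0 := hMJ _ (cl_lat hP 0) h0
      have m1 := hMJ _ (cl_lat hP 1) h1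
      have n2 := hM.2 (cl P 2)
      linarith

end J

theorem lemA_pd {M H : Matrix (Fin 3) (Fin 3) ℂ} (hM : Pd M) (hH : Pd H) {h : ℝ}
    (hh : 0 < h) (hmin : ∀ w, IsLat w → w ≠ 0 → h ≤ q H w) {J : Set (Fin 3 → ℂ)} (hJ : IsSub J)
    (hne : ∃ v, IsLat v ∧ v ∉ J) (hMJ : ∀ v, IsLat v → v ∉ J → 1 ≤ q M v) :
    h ≤ (M * H).trace.re := by
  obtain ⟨P, hP⟩ := exists_mn hM
  have h1 := tr_ge hM.1 hH.1 hmin hP
  have h2 := two_le_tF hM.psd hP.1 hJ hne hMJ
  nlinarith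

theorem lemA_pd' {M H : Matrix (Fin 3) (Fin 3) ℂ} (hM : Pd M)
    (hH : Pd H) {h : ℝ} (hh : 0 < h) (hmin : ∀ w, IsLat w → w ≠ 0 → h ≤ q H w)
    (hM1 : ∀ v, IsLat v → v ≠ 0 → 1 ≤ q M v) : 3 / 2 * h ≤ (M * H).trace.re := by
  obtain ⟨P, hP⟩ := exists_mn hM
  have h1 := tr_ge hM.1 hH.1 hmin hP
  obtain ⟨Q, h2, h3, -⟩ := hP.1.inv
  have hne : ∀ j, cl P j ≠ 0 := by
    intro j h0
    have h4 := congrFun (congrFun h3 j) j
    rw [mul_apply, one_apply_eq] at h4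
    rw [Finset.sum_eq_zero fun k _ => by
      have : P k j = 0 := congrFun h0 k
      rw [this, mul_zero]] at h4
    exact zero_ne_one h4
  have h4 : 3 ≤ tF M P := by
    rw [tF_eq, Fin.sum_univ_three]
    have m0 := hM1 _ (cl_lat hP.1 0) (hne 0)
    have m1 := hM1 _ (cl_lat hP.1 1) (hne 1)
    have m2 := hM1 _ (cl_lat hP.1 2) (hne 2)
    linarith
  nlinarith

section limit

variable {n : ℕ}

theorem trace_vec (x : Fin n → ℂ) (K : Matrix (Fin n) (Fin n) ℂ) :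
    (vecMulVec x (star x) * K).trace = star x ⬝ᵥ (K *ᵥ x) := by
  rw [vecMulVec_mul, trace_vecMulVec, dotProduct_comm, dotProduct_mulVec]

theorem trace_dec {M g g' : Matrix (Fin n) (Fin n) ℂ} (h1 : g * g' = 1) {m : Fin n → ℝ}
    {x : Fin n → Fin n → ℂ}
    (hdec : gᴴ * M * g = ∑ i, (m i : ℂ) • vecMulVec (x i) (star (x i)))
    (H : Matrix (Fin n) (Fin n) ℂ) :
    (M * H).trace.re = ∑ i, m i * q (g' * H * g'ᴴ) (x i) := by
  have h2 : g'ᴴ * gᴴ = 1 := by rw [← conjTranspose_mul, h1, conjTranspose_one]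
  have h3 : M = g'ᴴ * (gᴴ * M * g) * g' := by
    calc M = (g'ᴴ * gᴴ) * M * (g * g') := by rw [h1, h2, Matrix.one_mul, Matrix.mul_one]
      _ = _ := by simp only [Matrix.mul_assoc]
  have h4 : (M * H).trace = ((gᴴ * M * g) * (g' * H * g'ᴴ)).trace := by
    conv_lhs => rw [h3]
    rw [Matrix.mul_assoc, Matrix.mul_assoc, trace_mul_comm]
    simp only [Matrix.mul_assoc]
  rw [h4, hdec, Finset.sum_mul, trace_sum, Complex.re_sum]
  refine Finset.sum_congr rfl fun i _ => ?_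
  rw [Matrix.smul_mul, trace_smul, trace_vec, smul_eq_mul, Complex.re_ofReal_mul]
  rfl

theorem Psd.add_one {M : Matrix (Fin n) (Fin n) ℂ} (hM : Psd M) {ε : ℝ} (hε : 0 < ε) :
    Pd (M + (ε : ℂ) • (1 : Matrix (Fin n) (Fin n) ℂ)) ∧
      ∀ v, q (M + (ε : ℂ) • (1 : Matrix (Fin n) (Fin n) ℂ)) v = q M v + ε * ∑ i, Complex.normSq (v i) := by
  have h1 : ∀ v, q (1 : Matrix (Fin n) (Fin n) ℂ) v = ∑ i, Complex.normSq (v i) := by
    intro v
    unfold q
    rw [one_mulVec, dotProduct, Complex.re_sum]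
    refine Finset.sum_congr rfl fun i _ => ?_
    rw [Pi.star_apply]
    have : star (v i) * v i = ((Complex.normSq (v i) : ℝ) : ℂ) :=
      Complex.normSq_eq_conj_mul_self.symm
    rw [this, Complex.ofReal_re]
  refine ⟨⟨?_, fun v hv => ?_⟩, fun v => by rw [q_add, q_smul, h1]⟩
  · refine hM.1.add ?_
    unfold IsHermitian
    rw [conjTranspose_smul, conjTranspose_one]
    congr 1
    exact Complex.conj_ofReal ε
  · rw [q_add, q_smul, h1]
    have h2 := hM.2 v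
    have h3 : 0 < ∑ i, Complex.normSq (v i) := by
      obtain ⟨i, hi⟩ : ∃ i, v i ≠ 0 := by
        by_contra hcon
        push Not at hcon
        exact hv (funext hcon)
      exact Finset.sum_pos' (fun i _ => Complex.normSq_nonneg _)
        ⟨i, Finset.mem_univ _, Complex.normSq_pos.2 hi⟩
    positivity

theorem trace_lim {M H : Matrix (Fin n) (Fin n) ℂ} {c : ℝ}
    (h : ∀ ε : ℝ, 0 < ε → c ≤ ((M + (ε : ℂ) • (1 : Matrix (Fin n) (Fin n) ℂ)) * H).trace.re) :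
    c ≤ (M * H).trace.re := by
  have h1 : ∀ ε : ℝ, 0 < ε → c ≤ (M * H).trace.re + ε * |H.trace.re| := by
    intro ε hε
    refine (h ε hε).trans ?_
    rw [Matrix.add_mul, trace_add, Complex.add_re, Matrix.smul_mul, Matrix.one_mul, trace_smul,
      smul_eq_mul, Complex.re_ofReal_mul]
    have := mul_le_mul_of_nonneg_left (le_abs_self H.trace.re) hε.le
    linarith
  refine le_of_forall_pos_le_add fun δ hδ => ?_
  have h2 := h1 (δ / (|H.trace.re| + 1)) (by positivity)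
  refine h2.trans ?_
  have h3 : δ / (|H.trace.re| + 1) * |H.trace.re| ≤ δ := by
    rw [div_mul_eq_mul_div, div_le_iff₀ (by positivity)]
    nlinarith [abs_nonneg H.trace.re]
  linarith

/-- **The key inequality.** -/
theorem lemA (hn : n = 3) {M H : Matrix (Fin n) (Fin n) ℂ} (hM : Psd M) (hH : Pd H) {h : ℝ}
    (hh : 0 < h) (hmin : ∀ w, IsLat w → w ≠ 0 → h ≤ q H w) {J : Set (Fin n → ℂ)} (hJ : IsSub J)
    (hne : ∃ v, IsLat v ∧ v ∉ J) (hMJ : ∀ v, IsLat v → v ∉ J → 1 ≤ q M v) :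
    h ≤ (M * H).trace.re := by
  subst hn
  refine trace_lim fun ε hε => ?_
  obtain ⟨h1, h2⟩ := hM.add_one hε
  refine lemA_pd h1 hH hh hmin hJ hne fun v hv hvJ => ?_
  rw [h2]
  have h3 := hMJ v hv hvJ
  have h4 : 0 ≤ ∑ i, Complex.normSq (v i) := Finset.sum_nonneg fun i _ => Complex.normSq_nonneg _
  nlinarith

theorem lemA' (hn : n = 3) {M H : Matrix (Fin n) (Fin n) ℂ} (hM : Psd M)
    (hH : Pd H) {h : ℝ} (hh : 0 < h) (hmin : ∀ w, IsLat w → w ≠ 0 → h ≤ q H w)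
    (hM1 : ∀ v, IsLat v → v ≠ 0 → 1 ≤ q M v) : 3 / 2 * h ≤ (M * H).trace.re := by
  subst hn
  refine trace_lim fun ε hε => ?_
  obtain ⟨h1, h2⟩ := hM.add_one hε
  refine lemA_pd' h1 hH hh hmin fun v hv hv0 => ?_
  rw [h2]
  have h3 := hM1 v hv hv0
  have h4 : 0 ≤ ∑ i, Complex.normSq (v i) := Finset.sum_nonneg fun i _ => Complex.normSq_nonneg _
  nlinarith

end limit

end Pool.Agent.K6.H19.GI
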