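import Pool.Agent.K6.H19.GI.Core

/-!
# The nef cone and the effective cone
-/

set_option autoImplicit false

namespace Pool.Agent.K6.H19.GI

open Pool.Agent.R895 (act BlBundle IsClass N1s N1 form coef integral semiample effective span nefCone
  effCone Normalizes IsPullback)

open Matrix hiding IsHermitian
open Filter Topology
open Pool.Agent.W594.SYZ2 (IsHermitian)
open Pool.Agent.W594.SYZ2.TQ (h_add_right h_smul_right h_zero_left h_zero_right)
open Pool.Agent.Y167 (CData cone AffGrp Pol Cp cone_ind cone_add cone_smul cone_sum cone_le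
  mem_cone_self mem_cone_of_sum zero_mem_cone cone_cut cone_image cone_mono)
open Pool.Agent.Y167.CC (LinGrp Preserves IsFundDomain)

section top

variable {V E : Type*} [NormedAddCommGroup V] [NormedSpace ℂ V]
  [NormedAddCommGroup E] [NormedSpace ℂ E] {Γ : AffGrp V} {j : E →ₗ[ℂ] V}

instance : IsTopologicalAddGroup (N1 Γ j) :=
  inferInstanceAs (IsTopologicalAddGroup (N1s Γ j))

instance : ContinuousSMul ℝ (N1 Γ j) :=
  inferInstanceAs (ContinuousSMul ℝ (N1s Γ j))

theorem continuous_form (u w : E) : Continuous fun x : N1 Γ j => form x u w :=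
  (continuous_apply w).comp ((continuous_apply u).comp (continuous_fst.comp continuous_subtype_val))

theorem continuous_coef : Continuous fun x : N1 Γ j => coef x :=
  continuous_snd.comp continuous_subtype_val

theorem span_add {A : Set (N1 Γ j)} {x y : N1 Γ j} (hx : x ∈ span A) (hy : y ∈ span A) :
    x + y ∈ span A := by
  classical
  obtain ⟨S, hS, hx⟩ := hx
  obtain ⟨T, hT, hy⟩ := hy
  refine ⟨S ∪ T, ?_, cone_add (cone_mono Finset.subset_union_left hx)
    (cone_mono Finset.subset_union_right hy)⟩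
  rw [Finset.coe_union]
  exact Set.union_subset hS hT

theorem span_smul {A : Set (N1 Γ j)} {x : N1 Γ j} (hx : x ∈ span A) {t : ℝ} (ht : 0 ≤ t) :
    t • x ∈ span A := by
  obtain ⟨S, hS, hx⟩ := hx
  exact ⟨S, hS, cone_smul hx ht⟩

theorem span_zero {A : Set (N1 Γ j)} : (0 : N1 Γ j) ∈ span A :=
  ⟨∅, by simp, zero_mem_cone _⟩

theorem span_self {A : Set (N1 Γ j)} {x : N1 Γ j} (hx : x ∈ A) : x ∈ span A :=
  ⟨{x}, by simpa using hx, mem_cone_self (Finset.mem_singleton_self x)⟩

theorem nef_add {x y : N1 Γ j} (hx : x ∈ nefCone Γ j) (hy : y ∈ nefCone Γ j) :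
    x + y ∈ nefCone Γ j :=
  map_mem_closure₂ continuous_add hx hy fun _ ha _ hb => span_add ha hb

theorem nef_smul {x : N1 Γ j} (hx : x ∈ nefCone Γ j) {t : ℝ} (ht : 0 ≤ t) :
    t • x ∈ nefCone Γ j :=
  map_mem_closure (continuous_const_smul t) hx fun _ ha => span_smul ha ht

theorem nef_zero : (0 : N1 Γ j) ∈ nefCone Γ j := subset_closure span_zero

theorem cone_nef {S : Finset (N1 Γ j)} (hS : ∀ a ∈ S, a ∈ nefCone Γ j) {x : N1 Γ j}
    (hx : x ∈ cone S) : x ∈ nefCone Γ j :=
  cone_ind (p := fun x => x ∈ nefCone Γ j) nef_zero (fun _ _ h1 h2 => nef_add h1 h2)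
    (fun _ _ ht h => nef_smul h ht) hS hx

theorem cone_span {S : Finset (N1 Γ j)} {A : Set (N1 Γ j)} (hS : ∀ a ∈ S, a ∈ span A) {x : N1 Γ j}
    (hx : x ∈ cone S) : x ∈ span A :=
  cone_ind (p := fun x => x ∈ span A) span_zero (fun _ _ h1 h2 => span_add h1 h2)
    (fun _ _ ht h => span_smul h ht) hS hx

/-- A limit along a ray. -/
theorem mem_closed {A : Set (N1 Γ j)} (hA : IsClosed A) {x y : N1 Γ j}
    (h : ∀ n : ℕ, x + (1 / ((n : ℝ) + 1)) • y ∈ A) : x ∈ A := by
  have h1 : Tendsto (fun n : ℕ => x + (1 / ((n : ℝ) + 1)) • y) atTop (𝓝 (x + (0 : ℝ) • y)) :=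
    (tendsto_one_div_add_atTop_nhds_zero_nat.smul_const y).const_add x
  rw [zero_smul, add_zero] at h1
  exact hA.mem_of_tendsto h1 (Eventually.of_forall h)

end top

variable {ι : Type*} [Fintype ι] {r m : ℕ} {ρ : Fin r → ι}
  {j : (Fin r → ℂ) →ₗ[ℂ] (ι → ℂ)}

theorem continuous_frm (v : Fin r → ℂ) : Continuous fun x : N1 (kum ι m) j => (frm x v v).re := by
  unfold frm
  exact Complex.continuous_re.comp ((continuous_form v v).div_const _)

theorem isClosed_Nf : IsClosed (Nf m j) := by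
  have h1 : Nf m j = (⋂ v, {x : N1 (kum ι m) j | 0 ≤ (frm x v v).re}) ∩ ({x | 0 ≤ coef x} ∩
      ⋂ v : {v : Fin r → ℂ // Lat v ∧ v ≠ 0}, {x | coef x ≤ (frm x v.1 v.1).re}) := by
    ext x
    simp only [Nf, Set.mem_inter_iff, Set.mem_iInter, Set.mem_ofPred_eq, Subtype.forall, and_imp]
  rw [h1]
  refine IsClosed.inter (isClosed_iInter fun v => ?_) (IsClosed.inter ?_
    (isClosed_iInter fun v => ?_))
  · exact isClosed_le continuous_const (continuous_frm v)
  · exact isClosed_le continuous_const continuous_coef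
  · exact isClosed_le continuous_coef (continuous_frm v.1)

theorem nefCone_le [Nonempty ι] (hj : IsExt ρ j) (hρ : Function.Injective ρ) :
    nefCone (kum ι m) j ⊆ Nf m j := by
  refine closure_minimal ?_ isClosed_Nf
  rintro x ⟨S, hS, hx⟩
  exact cone_ind (p := fun x => x ∈ Nf m j) Nf_zero (fun _ _ h1 h2 => Nf_add h1 h2)
    (fun _ _ ht h => Nf_smul ht h) (fun a ha => semiample_Nf hj hρ (hS ha)) hx

theorem re_eight (z : ℂ) : (8 * z).re = 8 * z.re := by
  have : (8 : ℂ) = ((8 : ℝ) : ℂ) := by norm_num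
  rw [this, Complex.re_ofReal_mul]

theorem coef_nat {a : N1 (kum ι m) j} (ha : a ∈ Nf m j) {n : ℤ} (hn : coef a = n) :
    ∃ b : ℕ, coef a = b := by
  have h1 := ha.2.1
  rw [hn] at h1
  have h2 : 0 ≤ n := by exact_mod_cast h1
  obtain ⟨b, rfl⟩ := Int.eq_ofNat_of_zero_le h2
  exact ⟨b, by rw [hn]; simp⟩

/-- An integral class in the cone `Nf` is nef. -/
theorem nef_of_int [Nonempty ι] (hj : IsExt ρ j) (hρ : Function.Injective ρ) (hr : r = 3)
    {a : N1 (kum ι m) j} (ha : a ∈ AddSubgroup.closure (integral (kum ι m) j))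
    (haN : a ∈ Nf m j) : a ∈ nefCone (kum ι m) j := by
  obtain ⟨y₀, -, hy1, hy2⟩ := exists_y₀ m hj hρ
  obtain ⟨D, n, hn⟩ := eis_of_mem hj ha
  obtain ⟨b, hb⟩ := coef_nat haN hn
  refine mem_closed (y := y₀) isClosed_closure fun k => subset_closure ?_
  set K : ℕ := k + 1 with hK
  have hKr : ((K : ℕ) : ℝ) = (k : ℝ) + 1 := by rw [hK]; push_cast; rfl
  have hK0 : (0 : ℝ) < K := by rw [hKr]; positivity
  have D' : Dat fun u w => (K : ℂ) * frm a u w + ((8 : ℕ) : ℂ) * std u w :=
    (D.natMul K).add (std_dat.natMul 8)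
  have hre : ∀ v, ((K : ℂ) * frm a v v + ((8 : ℕ) : ℂ) * std v v).re =
      K * (frm a v v).re + 8 * (std v v).re := by
    intro v
    rw [Complex.add_re, re_natMul, re_natMul]
    norm_num
  have hsa : (4 : ℝ) • ((K : ℝ) • a + y₀) ∈ semiample (kum ι m) j := by
    refine semiample_cls hj hρ hr D' (K * b + 4) (fun v hv => ?_) (fun v hv hv0 => ?_)
      (fun u w => ?_) ?_
    · rw [hre]
      have h1 := haN.1 v
      have h2 := std_pos hv
      positivity
    · rw [hre]
      have h1 := haN.2.2 v hv hv0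
      rw [hb] at h1
      have h2 := one_le_std hv hv0
      push_cast
      nlinarith
    · rw [frm_smul, frm_add, frm_smul, hy1]
      push_cast
      ring
    · rw [coef_smul, coef_add, coef_smul, hb, hy2]
      push_cast
      ring
  have h1 := span_smul (span_self hsa) (t := 1 / (4 * K)) (by positivity)
  have h2 : (1 / (4 * (K : ℝ))) • (4 : ℝ) • ((K : ℝ) • a + y₀) =
      a + (1 / ((k : ℝ) + 1)) • y₀ := by
    rw [← hKr, smul_smul, smul_add, smul_smul]
    have e1 : 1 / (4 * (K : ℝ)) * 4 * K = 1 := by field_simp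
    have e2 : 1 / (4 * (K : ℝ)) * 4 = 1 / K := by field_simp
    rw [e1, e2, one_smul]
  rwa [h2] at h1

/-- An integral class in the cone `Nf` is effective. -/
theorem eff_of_int [Nonempty ι] (hj : IsExt ρ j) (hρ : Function.Injective ρ) (hr : r = 3) {a : N1 (kum ι m) j} (ha : a ∈ AddSubgroup.closure (integral (kum ι m) j))
    (haN : a ∈ Nf m j) : a ∈ effCone (kum ι m) j := by
  obtain ⟨D, n, hn⟩ := eis_of_mem hj ha
  obtain ⟨b, hb⟩ := coef_nat haN hn
  have key : (∀ v, v ≠ 0 → 0 < (frm a v v).re) ∧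
      (∀ v, Lat v → v ≠ 0 → (b : ℝ) ≤ (frm a v v).re) ∨ b = 0 ∧ ∀ v, 0 ≤ (frm a v v).re := by
    by_cases hpd : ∀ v, v ≠ 0 → 0 < (frm a v v).re
    · exact Or.inl ⟨hpd, fun v hv hv0 => by rw [← hb]; exact haN.2.2 v hv hv0⟩
    · push Not at hpd
      obtain ⟨v, hv, hv0⟩ := hpd
      obtain ⟨w, hw, hw0, hww⟩ := exists_ker D haN.1 hv (le_antisymm hv0 (haN.1 v))
      have h1 := haN.2.2 w hw hw0
      rw [hb, hww] at h1
      refine Or.inr ⟨?_, haN.1⟩
      have h2 : b ≤ 0 := by exact_mod_cast h1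
      omega
  obtain ⟨N, hN, heff⟩ := effective_cls (m := m) hj hρ hr D b key (y := (4 : ℝ) • a)
    (fun u w => by rw [frm_smul]; push_cast; ring) (by rw [coef_smul, hb])
  have hNr : (0 : ℝ) < N := by exact_mod_cast hN
  have h1 := span_smul (span_self heff) (t := 1 / (4 * N)) (by positivity)
  have h2 : (1 / (4 * (N : ℝ))) • (N : ℝ) • (4 : ℝ) • a = a := by
    rw [smul_smul, smul_smul]
    have e1 : 1 / (4 * (N : ℝ)) * N * 4 = 1 := by field_simp
    rw [e1, one_smul]
  rwa [h2] at h1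

/-- The element of a cone of integral classes of `Nf`. -/
theorem Cp_le [Nonempty ι] (hj : IsExt ρ j) (hρ : Function.Injective ρ) (hr : r = 3) {x : N1 (kum ι m) j}
    (hx : x ∈ Cp (AddSubgroup.closure (integral (kum ι m) j)) (Nf m j)) :
    x ∈ nefCone (kum ι m) j ∩ effCone (kum ι m) j := by
  obtain ⟨S, hS, hx⟩ := hx
  exact ⟨cone_nef (fun a ha => nef_of_int hj hρ hr (hS a ha).1 (hS a ha).2) hx,
    cone_span (fun a ha => eff_of_int hj hρ hr (hS a ha).1 (hS a ha).2) hx⟩

/-- The classes of `Nf` with a positive definite form are spanned by integral classes of `Nf`. -/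
theorem Cp_of_pd [Nonempty ι] (hj : IsExt ρ j) (hρ : Function.Injective ρ)
    {x : N1 (kum ι m) j} (hx : x ∈ Nf m j)
    (hpd : ∃ t : ℝ, 0 < t ∧ ∀ v, t * (std v v).re ≤ (frm x v v).re) :
    x ∈ Cp (AddSubgroup.closure (integral (kum ι m) j)) (Nf m j) := by
  classical
  obtain ⟨F₁, hF₁, hcov⟩ := covering m hj hρ
  obtain ⟨g, u, hg, hgx⟩ := hcov x hx hpd
  have h1 := cone_image (g.symm : N1 (kum ι m) j →ₗ[ℝ] N1 (kum ι m) j) hgx
  have h2 : (g.symm : N1 (kum ι m) j →ₗ[ℝ] N1 (kum ι m) j) (g x) = x := g.symm_apply_apply x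
  rw [h2] at h1
  refine ⟨_, fun a ha => ?_, h1⟩
  obtain ⟨a, ha', rfl⟩ := Finset.mem_image.1 ha
  exact ⟨hg.cl' (hF₁ a ha').1, hg.nf' (hF₁ a ha').2⟩

/-- The nef cone. -/
theorem nefCone_eq [Nonempty ι] (hj : IsExt ρ j) (hρ : Function.Injective ρ) (hr : r = 3) :
    nefCone (kum ι m) j = Nf m j := by
  refine Set.Subset.antisymm (nefCone_le hj hρ) fun x hx => ?_
  obtain ⟨y₀, hy0, hy1, hy2⟩ := exists_y₀ m hj hρ
  have hyN : y₀ ∈ Nf m j := by
    refine ⟨fun v => ?_, by rw [hy2]; norm_num, fun v hv hv0 => ?_⟩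
    · rw [hy1, re_eight]
      have := std_nonneg v
      positivity
    · rw [hy1, re_eight, hy2]
      have := one_le_std hv hv0
      linarith
  refine mem_closed (y := y₀) isClosed_closure fun k => ?_
  have hk : (0 : ℝ) < 1 / ((k : ℝ) + 1) := by positivity
  obtain ⟨S, hS, h1⟩ := Cp_of_pd hj hρ (Nf_add hx (Nf_smul hk.le hyN))
    ⟨1 / ((k : ℝ) + 1) * 8, by positivity, fun v => by
      rw [frm_add, Complex.add_re, frm_smul, Complex.re_ofReal_mul, hy1, re_eight]
      have := hx.1 v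
      linarith⟩
  exact cone_nef (fun a ha => nef_of_int hj hρ hr (hS a ha).1 (hS a ha).2) h1

/-- A positive definite form is bounded below. -/
theorem exists_lower {h : (Fin r → ℂ) → (Fin r → ℂ) → ℂ} (hh : IsHermitian h)
    (hp : ∀ v, v ≠ 0 → 0 < (h v v).re) :
    ∃ t : ℝ, 0 < t ∧ ∀ v, t * (std v v).re ≤ (h v v).re := by
  have hpd : Pd (Matrix.of (mx h)) := ⟨mx_herm hh, fun v hv => by
    rw [mx_q hh]
    exact hp _ (by rwa [star_ne_zero])⟩
  obtain ⟨c, hc, hlow⟩ := hpd.lower
  refine ⟨c / (r + 1), by positivity, fun v => ?_⟩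
  have h1 := hlow (star v)
  rw [mx_q hh, star_star] at h1
  refine le_trans ?_ h1
  have h2 : (std v v).re ≤ (r + 1) * ‖star v‖ ^ 2 := by
    rw [std_re]
    calc ∑ i, Complex.normSq (v i) ≤ ∑ _i : Fin r, ‖star v‖ ^ 2 := by
          refine Finset.sum_le_sum fun i _ => ?_
          rw [Complex.normSq_eq_norm_sq]
          have h3 : ‖v i‖ ≤ ‖star v‖ := by
            have := norm_le_pi_norm (star v) i
            rwa [Pi.star_apply, norm_star] at this
          exact pow_le_pow_left₀ (norm_nonneg _) h3 2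
      _ = r * ‖star v‖ ^ 2 := by simp
      _ ≤ _ := by nlinarith [sq_nonneg ‖star v‖]
  calc c / (r + 1) * (std v v).re ≤ c / (r + 1) * ((r + 1) * ‖star v‖ ^ 2) :=
        mul_le_mul_of_nonneg_left h2 (by positivity)
    _ = c * ‖star v‖ ^ 2 := by
        have : (r : ℝ) + 1 ≠ 0 := by positivity
        field_simp

/-- A nef class which is in the effective cone is spanned by integral classes of `Nf`. -/
theorem Cp_of_eff [Nonempty ι] (hj : IsExt ρ j) (hρ : Function.Injective ρ)
    {x : N1 (kum ι m) j} (hx : x ∈ Nf m j) (heff : x ∈ effCone (kum ι m) j) :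
    x ∈ Cp (AddSubgroup.closure (integral (kum ι m) j)) (Nf m j) := by
  classical
  by_cases hpd : ∀ v, v ≠ 0 → 0 < (frm x v v).re
  · exact Cp_of_pd hj hρ hx (exists_lower (frm_herm x) hpd)
  push Not at hpd
  obtain ⟨v, hv, hv0⟩ := hpd
  have hvx : (frm x v v).re = 0 := le_antisymm hv0 (hx.1 v)
  obtain ⟨S, hS, c, hc, hxc⟩ := heff
  -- the sum of the classes with a positive coefficient
  set P := S.filter fun a => c a ≠ 0 with hP
  have hxP : x = ∑ a ∈ P, c a • a := by
    rw [hxc, hP]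
    refine (Finset.sum_subset (Finset.filter_subset _ _) fun a ha ha' => ?_).symm
    rw [Finset.mem_filter, not_and, not_not] at ha'
    rw [ha' ha, zero_smul]
  have hcpos : ∀ a ∈ P, 0 < c a := fun a ha =>
    lt_of_le_of_ne (hc a) (Ne.symm (Finset.mem_filter.1 ha).2)
  have hPe : ∀ a ∈ P, a ∈ effective (kum ι m) j := fun a ha => hS (Finset.mem_filter.1 ha).1
  have hPd : ∀ a ∈ P, Dat (frm a) ∧ ∀ v, 0 ≤ (frm a v v).re := fun a ha => by
    obtain ⟨L, s, hL, -⟩ := hPe a ha
    exact ⟨(eis_of_mem hj (AddSubgroup.subset_closure ⟨L, hL⟩)).1, effective_psd hj (hPe a ha)⟩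
  have hsum : ∀ (d : N1 (kum ι m) j → ℝ) (s : Finset (N1 (kum ι m) j)) (v w : Fin r → ℂ),
      frm (∑ a ∈ s, d a • a) v w = ∑ a ∈ s, (d a : ℂ) * frm a v w := by
    intro d s v w
    induction s using Finset.induction_on with
    | empty => rw [Finset.sum_empty, Finset.sum_empty, frm_zero]
    | insert a s ha ih => rw [Finset.sum_insert ha, Finset.sum_insert ha, frm_add, ih, frm_smul]
  have hsre : ∀ (d : N1 (kum ι m) j → ℝ) (s : Finset (N1 (kum ι m) j)) (v : Fin r → ℂ),
      (∑ a ∈ s, (d a : ℂ) * frm a v v).re = ∑ a ∈ s, d a * (frm a v v).re := by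
    intro d s v
    rw [Complex.re_sum]
    exact Finset.sum_congr rfl fun a _ => Complex.re_ofReal_mul _ _
  -- each of them vanishes on `v`
  have hz : ∀ (w : Fin r → ℂ), (frm x w w).re = 0 ↔ ∀ a ∈ P, (frm a w w).re = 0 := by
    intro w
    have h1 : (frm x w w).re = ∑ a ∈ P, c a * (frm a w w).re := by
      rw [← hsre, ← hsum, ← hxP]
    rw [h1, Finset.sum_eq_zero_iff_of_nonneg fun a ha =>
      mul_nonneg (hcpos a ha).le ((hPd a ha).2 w)]
    refine forall₂_congr fun a ha => ?_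
    rw [mul_eq_zero, or_iff_right (hcpos a ha).ne']
  -- the sum of the forms
  have hD : Dat fun u w => ∑ a ∈ P, frm a u w := by
    refine ⟨⟨fun u v w => ?_, fun a v w => ?_, fun v w => ?_⟩, fun u w hu hw =>
      IsGau.sum _ _ fun a ha => (hPd a ha).1.int u w hu hw⟩
    · rw [← Finset.sum_add_distrib]
      exact Finset.sum_congr rfl fun a _ => (frm_herm a).add_left u v w
    · rw [Finset.mul_sum]
      exact Finset.sum_congr rfl fun b _ => (frm_herm b).smul_left a v w
    · rw [map_sum]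
      exact Finset.sum_congr rfl fun a _ => (frm_herm a).symm v w
  have hDre : ∀ v, (∑ a ∈ P, frm a v v).re = ∑ a ∈ P, (frm a v v).re := fun v =>
    Complex.re_sum _ _
  have hDz : ∀ w, (∑ a ∈ P, frm a w w).re = 0 ↔ ∀ a ∈ P, (frm a w w).re = 0 := by
    intro w
    rw [hDre, Finset.sum_eq_zero_iff_of_nonneg fun a ha => (hPd a ha).2 w]
  obtain ⟨w, hw, hw0, hww⟩ := exists_ker hD (fun v => by
    rw [hDre]
    exact Finset.sum_nonneg fun a ha => (hPd a ha).2 v) hv ((hDz v).2 ((hz v).1 hvx))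
  have hxw : (frm x w w).re = 0 := (hz w).2 ((hDz w).1 hww)
  have hcx : coef x = 0 := by
    have h1 := hx.2.2 w hw hw0
    rw [hxw] at h1
    exact le_antisymm h1 hx.2.1
  -- the classes with coefficient zero
  choose! y hy1 hy2 hy3' using fun a (ha : a ∈ P) => exists_cls m hj hρ (hPd a ha).1 0
  have hy3 : ∀ a ∈ P, coef (y a) = 0 := fun a ha => by rw [hy3' a ha]; norm_num
  refine ⟨P.image y, fun b hb => ?_, ?_⟩
  · obtain ⟨a, ha, rfl⟩ := Finset.mem_image.1 hb
    refine ⟨AddSubgroup.subset_closure (hy1 a ha), fun v => ?_, by rw [hy3 a ha],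
      fun v _ _ => ?_⟩
    · rw [hy2 a ha, re_four]
      have := (hPd a ha).2 v
      positivity
    · rw [hy2 a ha, re_four, hy3 a ha]
      have := (hPd a ha).2 v
      positivity
  · have h1 : x = ∑ a ∈ P, (c a / 4) • y a := by
      have hf : ∀ (s : Finset (N1 (kum ι m) j)) (v w : Fin r → ℂ), s ⊆ P →
          frm (∑ a ∈ s, (c a / 4) • y a) v w = ∑ a ∈ s, (c a : ℂ) * frm a v w := by
        intro s v w
        induction s using Finset.induction_on with
        | empty => intro _; rw [Finset.sum_empty, Finset.sum_empty, frm_zero]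
        | insert a s ha ih =>
          intro hs
          rw [Finset.sum_insert ha, Finset.sum_insert ha, frm_add,
            ih fun a ha => hs (Finset.mem_insert_of_mem ha), frm_smul,
            hy2 a (hs (Finset.mem_insert_self _ _))]
          push_cast
          ring
      have hcs : ∀ s : Finset (N1 (kum ι m) j), s ⊆ P → coef (∑ a ∈ s, (c a / 4) • y a) = 0 := by
        intro s
        induction s using Finset.induction_on with
        | empty => intro _; rw [Finset.sum_empty, coef_zero]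
        | insert a s ha ih =>
          intro hs
          rw [Finset.sum_insert ha, coef_add, ih fun a ha => hs (Finset.mem_insert_of_mem ha),
            coef_smul, hy3 a (hs (Finset.mem_insert_self _ _))]
          ring
      refine N1_ext' (fun v w => ?_) ?_
      · rw [hf P v w (Finset.Subset.refl _), ← hsum, ← hxP]
      · rw [hcx, hcs P (Finset.Subset.refl _)]
    rw [h1]
    exact mem_cone_of_sum P _ _ (fun a ha => Finset.mem_image_of_mem _ ha)
      fun a _ => div_nonneg (hc a) (by norm_num)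

theorem mem_Cp_iff [Nonempty ι] (hj : IsExt ρ j) (hρ : Function.Injective ρ) (hr : r = 3) (x : N1 (kum ι m) j) :
    x ∈ Cp (AddSubgroup.closure (integral (kum ι m) j)) (Nf m j) ↔
      x ∈ nefCone (kum ι m) j ∩ effCone (kum ι m) j :=
  ⟨fun h => Cp_le hj hρ hr h, fun h => Cp_of_eff hj hρ (nefCone_le hj hρ h.1) h.2⟩

/-- The multiple `4 a` of an element of the group spanned by integral classes is integral if the
coefficient is nonnegative. -/
theorem four_int [Nonempty ι] (hj : IsExt ρ j) (hρ : Function.Injective ρ) {a : N1 (kum ι m) j}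
    (ha : a ∈ AddSubgroup.closure (integral (kum ι m) j)) (haN : a ∈ Nf m j) :
    (4 : ℝ) • a ∈ integral (kum ι m) j := by
  obtain ⟨D, n, hn⟩ := eis_of_mem hj ha
  obtain ⟨b, hb⟩ := coef_nat haN hn
  obtain ⟨y, h1, h2, h3⟩ := exists_cls m hj hρ D b
  have h4 : (4 : ℝ) • a = y := by
    refine N1_ext' (fun u w => ?_) ?_
    · rw [frm_smul, h2]
      push_cast
      ring
    · rw [coef_smul, h3, hb]
  rw [h4]
  exact h1

end Pool.Agent.K6.H19.GI
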