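import Pool.Agent.K6.H19.GI.Geo
import Pool.Agent.Y167.Red

/-!
# Reduction theory and pullbacks
-/

set_option autoImplicit false

namespace Pool.Agent.K6.H19.GI

open Pool.Agent.R895 (act BlBundle IsClass N1s N1 form coef integral semiample effective span nefCone
  effCone Normalizes IsPullback)

open Matrix hiding IsHermitian
open Filter Topology
open Pool.Agent.W594.SYZ2 (IsHermitian)
open Pool.Agent.W594.SYZ2.TQ (h_add_right h_smul_right h_zero_left h_zero_right)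
open Pool.Agent.Y167 (CData cone AffGrp Pol)

section basis

/-- Coordinates of a complex number with respect to `1, i`. -/
noncomputable def eqv : ℂ ≃ₗ[ℝ] (Fin 2 → ℝ) where
  toFun z := ![z.re, z.im]
  map_add' x y := by
    funext i
    fin_cases i <;> simp
  map_smul' t x := by
    funext i
    fin_cases i <;> simp
  invFun v := v 0 + v 1 * om
  left_inv z := by
    apply Complex.ext
    · simp [om_re, om_im]
    · simp [om_re, om_im]
  right_inv v := by
    funext i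
    fin_cases i
    · simp [om_re, om_im]
    · simp [om_re, om_im]

theorem eqv_symm (v : Fin 2 → ℝ) : eqv.symm v = v 0 + v 1 * om := rfl

theorem eis_iff (z : ℂ) : IsGau z ↔ ∀ k, ∃ n : ℤ, eqv z k = n := by
  constructor
  · rintro ⟨a, b, rfl⟩ k
    have h1 : (a : ℂ) + b * om = eqv.symm ![(a : ℝ), (b : ℝ)] := by
      rw [eqv_symm]
      simp
    rw [h1, eqv.apply_symm_apply]
    fin_cases k
    · exact ⟨a, rfl⟩
    · exact ⟨b, rfl⟩
  · intro h
    obtain ⟨a, ha⟩ := h 0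
    obtain ⟨b, hb⟩ := h 1
    refine ⟨a, b, ?_⟩
    rw [← eqv.symm_apply_apply z, eqv_symm, ha, hb]
    push_cast
    rfl

/-- The lattice. -/
def lat (r : ℕ) : AddSubgroup (Fin r → ℂ) where
  carrier := {v | Lat v}
  zero_mem' := fun _ => IsGau.zero
  add_mem' := fun h1 h2 i => (h1 i).add (h2 i)
  neg_mem' := fun h i => (h i).neg

/-- A basis of the lattice. -/
noncomputable def bas0 (r : ℕ) : Module.Basis (Σ _ : Fin r, Fin 2) ℝ (Fin r → ℂ) :=
  Pi.basis fun _ : Fin r => Module.Basis.ofEquivFun eqv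

theorem bas0_repr {r : ℕ} (v : Fin r → ℂ) (i : Fin r) (k : Fin 2) :
    (bas0 r).repr v ⟨i, k⟩ = eqv (v i) k := by
  rw [bas0, Pi.basis_repr]
  rfl

theorem exists_basis (r : ℕ) : ∃ (d : ℕ) (b : Module.Basis (Fin d) ℝ (Fin r → ℂ)),
    ∀ x, x ∈ lat r ↔ ∀ i, ∃ n : ℤ, b.repr x i = n := by
  refine ⟨Fintype.card (Σ _ : Fin r, Fin 2), (bas0 r).reindex (Fintype.equivFin _), fun x => ?_⟩
  have h1 : ∀ i, ((bas0 r).reindex (Fintype.equivFin _)).repr x i =
      eqv (x ((Fintype.equivFin (Σ _ : Fin r, Fin 2)).symm i).1)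
        ((Fintype.equivFin (Σ _ : Fin r, Fin 2)).symm i).2 := by
    intro i
    rw [Module.Basis.repr_reindex_apply, ← bas0_repr]
  constructor
  · intro hx i
    rw [h1]
    exact (eis_iff _).1 (hx _) _
  · intro hx i
    rw [eis_iff]
    intro k
    obtain ⟨n, hn⟩ := hx (Fintype.equivFin _ ⟨i, k⟩)
    rw [h1, Equiv.symm_apply_apply] at hn
    exact ⟨n, hn⟩

end basis

variable {r : ℕ}

theorem exists_pol (r : ℕ) : ∃ (d : ℕ) (b : Module.Basis (Fin d) ℝ (Fin r → ℂ)),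
    Pol (fun u w : Fin r → ℂ => (kap : ℂ) * std u w) (lat r) ∅ d b := by
  obtain ⟨d, b, hb⟩ := exists_basis r
  refine ⟨d, b, ⟨⟨fun u v w => ?_, fun a v w => ?_, fun v w => ?_⟩, fun v hv => ?_, hb,
    fun x hx y hy => ?_, fun g hg => absurd hg (Set.notMem_empty g)⟩⟩
  · rw [std_herm.add_left]; ring
  · rw [std_herm.smul_left]; ring
  · rw [map_mul, ← std_herm.symm, Complex.conj_ofReal]
  · rw [Complex.re_ofReal_mul]
    exact mul_pos kap_pos (std_pos hv)
  · rw [Complex.im_ofReal_mul]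
    exact kap_im_eis (std_int x y hx hy)

variable {ι : Type*} [Fintype ι] {m : ℕ} {ρ : Fin r → ι}
  {j : (Fin r → ℂ) →ₗ[ℂ] (ι → ℂ)}

theorem form_span (hj : IsExt ρ j) (x : N1 (kum ι m) j) :
    form x ∈ Submodule.span ℝ {z | Pol.IsInt (lat r) ∅ z} := by
  obtain ⟨x, hx⟩ := x
  show x.1 ∈ _
  induction hx using Submodule.span_induction with
  | mem x hx =>
    obtain ⟨L, H, hL, h1, -⟩ := hx
    refine Submodule.subset_span ⟨⟨fun u v w => ?_, fun a v w => ?_, fun v w => ?_⟩,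
      fun g hg => absurd hg (Set.notMem_empty g), fun u hu w hw => ?_⟩
    · rw [h1, h1, h1, map_add, hL.1.add_left]
    · rw [h1, h1, map_smul, hL.1.smul_left]
    · rw [h1, h1, ← hL.1.symm]
    · rw [h1]
      exact chern_int hL (hj.lat hu) (hj.lat hw)
  | zero => exact Submodule.zero_mem _
  | add x y _ _ h1 h2 => exact Submodule.add_mem _ h1 h2
  | smul t x _ h1 => exact Submodule.smul_mem _ t h1

theorem dat_of_isInt {z : (Fin r → ℂ) → (Fin r → ℂ) → ℂ} (hz : Pol.IsInt (lat r) ∅ z) :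
    Dat fun u w => z u w / kap where
  herm := by
    refine ⟨fun u v w => ?_, fun a v w => ?_, fun v w => ?_⟩
    · rw [hz.herm.add_left, add_div]
    · rw [hz.herm.smul_left, mul_div_assoc]
    · rw [map_div₀, ← hz.herm.symm, Complex.conj_ofReal]
  int u w hu hw := by
    have e1 : ∀ z : ℂ, kap * (z / kap).im = z.im := by
      intro z
      rw [← Complex.im_ofReal_mul, mul_div_cancel₀ _ kap_ne]
    refine eis_of_kap ?_ ?_
    · obtain ⟨n, hn⟩ := hz.int u hu w hw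
      exact ⟨n, by rw [e1, hn]⟩
    · obtain ⟨n, hn⟩ := hz.int (om • u) (fun i => IsGau.omega.mul (hu i)) w hw
      exact ⟨n, by rw [← mul_div_assoc, e1, ← hn, hz.herm.smul_left]⟩

/-- **Reduction theory.** -/
theorem red_cls (hj : IsExt ρ j) (m : ℕ) :
    ∃ F : Finset ((Fin r → ℂ) → (Fin r → ℂ) → ℂ), (∀ z ∈ F, Dat z ∧ ∀ v, 0 ≤ (z v v).re) ∧
      ∀ x : N1 (kum ι m) j, (∃ t : ℝ, 0 < t ∧ ∀ v, t * (std v v).re ≤ (frm x v v).re) →
        ∃ u : (Fin r → ℂ) ≃ₗ[ℂ] (Fin r → ℂ), (∀ v, Lat v → Lat (u v)) ∧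
          (∀ v, Lat v → Lat (u.symm v)) ∧
          ∃ c : ((Fin r → ℂ) → (Fin r → ℂ) → ℂ) → ℝ, (∀ z, 0 ≤ c z) ∧
            ∀ v w, frm x v w = ∑ z ∈ F, c z * z (u v) (u w) := by
  classical
  obtain ⟨d, b, P⟩ := exists_pol r
  obtain ⟨F, hF, hred⟩ := P.red
  let sc : ((Fin r → ℂ) → (Fin r → ℂ) → ℂ) → ((Fin r → ℂ) → (Fin r → ℂ) → ℂ) :=
    fun z u w => z u w / kap
  have hsc : Function.Injective sc := by
    intro z z' hzz
    funext u w
    have h1 : z u w / kap = z' u w / kap := congrFun (congrFun hzz u) w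
    have h2 := kap_ne
    field_simp at h1
    exact h1
  refine ⟨F.image sc, fun z hz => ?_, fun x hx => ?_⟩
  · obtain ⟨z, hz', rfl⟩ := Finset.mem_image.1 hz
    obtain ⟨h1, h2⟩ := hF z hz'
    refine ⟨dat_of_isInt h1, fun v => ?_⟩
    show 0 ≤ (z v v / kap).re
    rw [re_kap_div]
    exact div_nonneg (h2 v) kap_pos.le
  · obtain ⟨t, ht, hxt⟩ := hx
    obtain ⟨u, hu1, hu2, -, c, hc, hsum⟩ := hred (form x) (form_span hj x) ⟨t, ht, fun v => by
      rw [form_frm, Complex.re_ofReal_mul, Complex.re_ofReal_mul]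
      have h1 := hxt v
      have h2 := kap_pos
      nlinarith⟩
    refine ⟨u, fun v hv => hu1 v hv, fun v hv => hu2 v hv, fun z => c fun u w => kap * z u w,
      fun z => hc _, fun v w => ?_⟩
    rw [Finset.sum_image fun z _ z' _ h => hsc h]
    unfold frm
    rw [hsum, Finset.sum_div]
    refine Finset.sum_congr rfl fun z _ => ?_
    have h2 := kap_ne
    have h3 : (fun u w => (kap : ℂ) * sc z u w) = z := by
      funext u w
      show (kap : ℂ) * (z u w / kap) = z u w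
      field_simp
    show (c z : ℂ) * z (u v) (u w) / kap =
      (c (fun u w => (kap : ℂ) * sc z u w) : ℂ) * (z (u v) (u w) / kap)
    rw [h3, mul_div_assoc]

section pull

/-- The automorphism of `ℂ^ι` given by `u` on the coordinates in the range of `ρ`. -/
noncomputable def blk (hj : IsExt ρ j) (hρ : Function.Injective ρ)
    (u : (Fin r → ℂ) ≃ₗ[ℂ] (Fin r → ℂ)) : (ι → ℂ) ≃ₗ[ℂ] (ι → ℂ) where
  toFun v := v + j (u (v ∘ ρ) - v ∘ ρ)
  map_add' v w := by
    have h1 : (v + w) ∘ ρ = v ∘ ρ + w ∘ ρ := rfl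
    rw [h1, map_add]
    simp only [map_add, map_sub]
    abel
  map_smul' a v := by
    have h1 : (a • v) ∘ ρ = a • (v ∘ ρ) := rfl
    rw [h1, map_smul, RingHom.id_apply, ← smul_sub, map_smul, smul_add]
  invFun v := v + j (u.symm (v ∘ ρ) - v ∘ ρ)
  left_inv v := by
    have h1 : (v + j (u (v ∘ ρ) - v ∘ ρ)) ∘ ρ = u (v ∘ ρ) := by
      have : (v + j (u (v ∘ ρ) - v ∘ ρ)) ∘ ρ = v ∘ ρ + j (u (v ∘ ρ) - v ∘ ρ) ∘ ρ := rfl
      rw [this, hj.comp hρ]
      abel
    show (v + j (u (v ∘ ρ) - v ∘ ρ)) + j (u.symm ((v + j (u (v ∘ ρ) - v ∘ ρ)) ∘ ρ) -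
      (v + j (u (v ∘ ρ) - v ∘ ρ)) ∘ ρ) = v
    rw [h1, u.symm_apply_apply]
    simp only [map_sub]
    abel
  right_inv v := by
    have h1 : (v + j (u.symm (v ∘ ρ) - v ∘ ρ)) ∘ ρ = u.symm (v ∘ ρ) := by
      have : (v + j (u.symm (v ∘ ρ) - v ∘ ρ)) ∘ ρ =
          v ∘ ρ + j (u.symm (v ∘ ρ) - v ∘ ρ) ∘ ρ := rfl
      rw [this, hj.comp hρ]
      abel
    show (v + j (u.symm (v ∘ ρ) - v ∘ ρ)) + j (u ((v + j (u.symm (v ∘ ρ) - v ∘ ρ)) ∘ ρ) -
      (v + j (u.symm (v ∘ ρ) - v ∘ ρ)) ∘ ρ) = v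
    rw [h1, u.apply_symm_apply]
    simp only [map_sub]
    abel

variable (hj : IsExt ρ j) (hρ : Function.Injective ρ) {u : (Fin r → ℂ) ≃ₗ[ℂ] (Fin r → ℂ)}

theorem blk_apply (v : ι → ℂ) : blk hj hρ u v = v + j (u (v ∘ ρ) - v ∘ ρ) := rfl

theorem blk_symm : (blk hj hρ u).symm = blk hj hρ u.symm := by
  ext v
  rfl

theorem blk_j (w : Fin r → ℂ) : blk hj hρ u (j w) = j (u w) := by
  rw [blk_apply, hj.comp hρ, map_sub]
  abel

theorem blk_lat (hu : ∀ v, Lat v → Lat (u v)) {v : ι → ℂ} (hv : Lat v) :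
    Lat (blk hj hρ u v) := by
  rw [blk_apply]
  have h1 : Lat (v ∘ ρ) := fun a => hv _
  have h2 : Lat (j (u (v ∘ ρ) - v ∘ ρ)) := hj.lat fun a => (hu _ h1 a).sub (h1 a)
  exact fun i => (hv i).add (h2 i)

theorem blk_co (v : ι → ℂ) {i : ι} (hi : i ∈ co ρ) : blk hj hρ u v i = v i := by
  rw [blk_apply, Pi.add_apply, hj.co _ hi, add_zero]

end pull

theorem conj_mem {f : (ι → ℂ) ≃ₗ[ℂ] (ι → ℂ)} (hf : ∀ v, Lat v → Lat (f v))
    {γ : (ι → ℂ) ≃ᵃ[ℂ] (ι → ℂ)} (hγ : γ ∈ kum ι m) :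
    f.toAffineEquiv * γ * f.toAffineEquiv⁻¹ ∈ kum ι m := by
  obtain ⟨ζ, l, h1, h2, h3, h4⟩ := hγ
  refine ⟨ζ, f l, h1, h2, hf l h3, fun v => ?_⟩
  show f (γ (f.symm v)) = _
  rw [h4, map_add, map_smul, f.apply_symm_apply]

theorem normalizes {f : (ι → ℂ) ≃ₗ[ℂ] (ι → ℂ)} (hf : ∀ v, Lat v → Lat (f v))
    (hf' : ∀ v, Lat v → Lat (f.symm v)) : Normalizes (kum ι m) f := by
  intro γ
  refine ⟨fun h => conj_mem hf h, fun h => ?_⟩
  have h1 := conj_mem hf' h
  have h2 : f.symm.toAffineEquiv * (f.toAffineEquiv * γ * f.toAffineEquiv⁻¹) *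
      f.symm.toAffineEquiv⁻¹ = γ := by
    ext v i
    show f.symm (f (γ (f.symm (f v)))) i = γ v i
    rw [f.symm_apply_apply, f.symm_apply_apply]
  rwa [h2] at h1

section pullback

variable {V E : Type*} [NormedAddCommGroup V] [NormedSpace ℂ V] [FiniteDimensional ℂ V]
  [NormedAddCommGroup E] [NormedSpace ℂ E] {Γ : AffGrp V} {j : E →ₗ[ℂ] V}

/-- The conjugate of an element of `Γ`. -/
noncomputable def cjg {f : V ≃ₗ[ℂ] V} (hf : Normalizes Γ f) (γ : Γ) : Γ :=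
  ⟨f.toAffineEquiv * γ.1 * f.toAffineEquiv⁻¹, (hf γ.1).1 γ.2⟩

omit [FiniteDimensional ℂ V] in
theorem cjg_apply {f : V ≃ₗ[ℂ] V} (hf : Normalizes Γ f) (γ : Γ) (v : V) :
    act (cjg hf γ) (f v) = f (act γ v) := by
  show f (γ.1 (f.symm (f v))) = f (γ.1 v)
  rw [f.symm_apply_apply]

omit [FiniteDimensional ℂ V] in
theorem cjg_mul {f : V ≃ₗ[ℂ] V} (hf : Normalizes Γ f) (γ δ : Γ) :
    cjg hf (γ * δ) = cjg hf γ * cjg hf δ := by
  apply Subtype.ext
  show f.toAffineEquiv * (γ.1 * δ.1) * f.toAffineEquiv⁻¹ =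
    (f.toAffineEquiv * γ.1 * f.toAffineEquiv⁻¹) * (f.toAffineEquiv * δ.1 * f.toAffineEquiv⁻¹)
  group

theorem differentiable_equiv (f : V ≃ₗ[ℂ] V) : Differentiable ℂ f :=
  (LinearMap.toContinuousLinearMap (f : V →ₗ[ℂ] V)).differentiable

/-- The pullback of a line bundle by the automorphism given by `f`. -/
noncomputable def pullB {f : V ≃ₗ[ℂ] V} (hf : Normalizes Γ f) (L : BlBundle Γ) : BlBundle Γ where
  e := fun γ v => L.e (cjg hf γ) (f v)
  k := L.k
  holo := fun γ => (L.holo _).comp (differentiable_equiv f)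
  ne_zero := fun γ v => L.ne_zero _ _
  mul := fun γ δ v => by rw [cjg_mul, L.mul, cjg_apply]
  stab := fun γ v h1 h2 => by
    refine L.stab _ _ (by rw [cjg_apply, h1]) fun δ hδ => ?_
    have h3 : f.symm.toAffineEquiv * δ.1 * f.symm.toAffineEquiv⁻¹ ∈ Γ := by
      rw [hf]
      have h4 : f.toAffineEquiv * (f.symm.toAffineEquiv * δ.1 * f.symm.toAffineEquiv⁻¹) *
          f.toAffineEquiv⁻¹ = δ.1 := by
        ext v
        show f (f.symm (δ.1 (f (f.symm v)))) = δ.1 v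
        rw [f.apply_symm_apply, f.apply_symm_apply]
      rw [h4]
      exact δ.2
    refine h2 ⟨_, h3⟩ ?_
    show f.symm (δ.1 (f 0)) = v
    have hδ' : δ.1 0 = f v := hδ
    rw [map_zero, hδ', f.symm_apply_apply]
  exc := fun γ ζ h => by
    rw [map_zero]
    refine L.exc _ ζ fun v => ?_
    have h1 := cjg_apply hf γ (f.symm v)
    rw [f.apply_symm_apply, h, map_smul, f.apply_symm_apply] at h1
    exact h1

theorem isClass_pullB {f : V ≃ₗ[ℂ] V} (hf : Normalizes Γ f) {u : E → E}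
    (hfu : ∀ e, f (j e) = j (u e)) {L : BlBundle Γ} {x : (E → E → ℂ) × ℝ}
    (hL : IsClass j L x) : IsClass j (pullB hf L) (fun v w => x.1 (u v) (u w), x.2) := by
  obtain ⟨H, ⟨hH, F, hF, hFe⟩, h1, h2⟩ := hL
  refine ⟨fun v w => H (f v) (f w), ⟨⟨fun u v w => ?_, fun a v w => ?_, fun v w => ?_⟩,
    fun v => F (f v), hF.comp (differentiable_equiv f), fun γ v => ?_⟩, fun v w => ?_, h2⟩
  · rw [map_add, hH.add_left]
  · rw [map_smul, hH.smul_left]
  · exact hH.symm _ _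
  · have h3 := hFe (cjg hf γ) (f v)
    rw [cjg_apply] at h3
    exact h3
  · show x.1 (u v) (u w) = H (f (j v)) (f (j w))
    rw [h1, hfu, hfu]

end pullback

/-- The action of `u` on the classes. -/
def pb (u : (Fin r → ℂ) → (Fin r → ℂ)) (x : ((Fin r → ℂ) → (Fin r → ℂ) → ℂ) × ℝ) :
    ((Fin r → ℂ) → (Fin r → ℂ) → ℂ) × ℝ := (fun v w => x.1 (u v) (u w), x.2)

theorem pb_mem {f : (ι → ℂ) ≃ₗ[ℂ] (ι → ℂ)} (hf : Normalizes (kum ι m) f)
    {u : (Fin r → ℂ) → (Fin r → ℂ)} (hfu : ∀ e, f (j e) = j (u e))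
    {x : ((Fin r → ℂ) → (Fin r → ℂ) → ℂ) × ℝ} (hx : x ∈ N1s (kum ι m) j) :
    pb u x ∈ N1s (kum ι m) j := by
  unfold N1s at hx
  induction hx using Submodule.span_induction with
  | mem x hx =>
    obtain ⟨L, hL⟩ := hx
    exact Submodule.subset_span ⟨_, isClass_pullB hf hfu hL⟩
  | zero => exact Submodule.zero_mem _
  | add x y _ _ h1 h2 => exact Submodule.add_mem _ h1 h2
  | smul t x _ h1 => exact Submodule.smul_mem _ t h1

/-- The action of an automorphism on the classes. -/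
theorem exists_pull (m : ℕ) (hj : IsExt ρ j) (hρ : Function.Injective ρ)
    {u : (Fin r → ℂ) ≃ₗ[ℂ] (Fin r → ℂ)} (hu : ∀ v, Lat v → Lat (u v))
    (hu' : ∀ v, Lat v → Lat (u.symm v)) : ∃ g : N1 (kum ι m) j ≃ₗ[ℝ] N1 (kum ι m) j,
      (∀ x v w, form (g x) v w = form x (u v) (u w)) ∧ (∀ x, coef (g x) = coef x) ∧
      (∀ x v w, form (g.symm x) v w = form x (u.symm v) (u.symm w)) ∧
      (∀ x, coef (g.symm x) = coef x) ∧
      (∀ x ∈ integral (kum ι m) j, g x ∈ integral (kum ι m) j) ∧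
      (∀ x ∈ integral (kum ι m) j, g.symm x ∈ integral (kum ι m) j) := by
  have hn : Normalizes (kum ι m) (blk hj hρ u) :=
    normalizes (fun v hv => blk_lat hj hρ hu hv) fun v hv => by
      rw [blk_symm]
      exact blk_lat hj hρ hu' hv
  have hn' : Normalizes (kum ι m) (blk hj hρ u.symm) :=
    normalizes (fun v hv => blk_lat hj hρ hu' hv) fun v hv => by
      rw [blk_symm]
      exact blk_lat hj hρ hu hv
  have hb : ∀ e, blk hj hρ u (j e) = j (u e) := fun e => blk_j hj hρ e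
  have hb' : ∀ e, blk hj hρ u.symm (j e) = j (u.symm e) := fun e => blk_j hj hρ e
  let g : N1 (kum ι m) j ≃ₗ[ℝ] N1 (kum ι m) j :=
    { toFun := fun x => ⟨pb u x.1, pb_mem hn hb x.2⟩
      map_add' := fun x y => rfl
      map_smul' := fun c x => rfl
      invFun := fun x => ⟨pb u.symm x.1, pb_mem hn' hb' x.2⟩
      left_inv := fun x => by
        apply Subtype.ext
        refine Prod.ext ?_ rfl
        funext v w
        show x.1.1 (u (u.symm v)) (u (u.symm w)) = x.1.1 v w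
        rw [u.apply_symm_apply, u.apply_symm_apply]
      right_inv := fun x => by
        apply Subtype.ext
        refine Prod.ext ?_ rfl
        funext v w
        show x.1.1 (u.symm (u v)) (u.symm (u w)) = x.1.1 v w
        rw [u.symm_apply_apply, u.symm_apply_apply] }
  refine ⟨g, fun _ _ _ => rfl, fun _ => rfl, fun _ _ _ => rfl, fun _ => rfl, ?_, ?_⟩
  · rintro x ⟨L, hL⟩
    exact ⟨_, isClass_pullB hn hb hL⟩
  · rintro x ⟨L, hL⟩
    exact ⟨_, isClass_pullB hn' hb' hL⟩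

end Pool.Agent.K6.H19.GI
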