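import Pool.Agent.K6.H19.GI.Main

/-!
# The relative and the absolute case
-/

set_option autoImplicit false

namespace Pool.Agent.K6.H19.GI

open Pool.Agent.R895 (act BlBundle IsClass N1s N1 form coef integral semiample effective span nefCone
  effCone Normalizes IsPullback)

open Pool.Agent.Y167 (cone AffGrp)
open Pool.Agent.Y167.CC (LinGrp Preserves IsFundDomain)

/-- The inclusion `ℂ^r → ℂ^p × ℂ^r`. -/
def incl (p r : ℕ) : (Fin r → ℂ) →ₗ[ℂ] (Fin p ⊕ Fin r → ℂ) where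
  toFun u := Sum.elim 0 u
  map_add' u w := by
    ext i
    cases i <;> simp
  map_smul' a u := by
    ext i
    cases i <;> simp

/-- The projection `ℂ^p × ℂ^r → ℂ^p`. -/
def proj (p r : ℕ) : (Fin p ⊕ Fin r → ℂ) →ₗ[ℂ] (Fin p → ℂ) where
  toFun v := fun i => v (Sum.inl i)
  map_add' _ _ := rfl
  map_smul' _ _ := rfl

theorem incl_isExt (p r : ℕ) : IsExt Sum.inr (incl p r) := by
  classical
  intro u
  funext i
  show (Sum.elim (0 : Fin p → ℂ) u) i = ext Sum.inr u i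
  unfold ext
  cases i with
  | inl a => simp
  | inr b => simp

theorem isPb_mem {ι : Type*} [Fintype ι] {r m : ℕ} {ρ : Fin r → ι}
    {j : (Fin r → ℂ) →ₗ[ℂ] (ι → ℂ)} (hj : IsExt ρ j) (hρ : Function.Injective ρ)
    {g : N1 (kum ι m) j ≃ₗ[ℝ] N1 (kum ι m) j} {u : (Fin r → ℂ) ≃ₗ[ℂ] (Fin r → ℂ)}
    (h : IsPb g u) : ∃ f : (ι → ℂ) ≃ₗ[ℂ] (ι → ℂ), Normalizes (kum ι m) f ∧
      (∀ v, ∀ i ∈ co ρ, f v i = v i) ∧ IsPullback f g := by
  refine ⟨blk hj hρ u, normalizes (fun v hv => blk_lat hj hρ h.lat hv) (fun v hv => by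
    rw [blk_symm]
    exact blk_lat hj hρ h.lat' hv), fun v i hi => blk_co hj hρ v hi,
    fun x v w v' w' hv hw => ?_, h.coef⟩
  rw [blk_j] at hv hw
  rw [h.form, hj.inj hρ hv, hj.inj hρ hw]

end Pool.Agent.K6.H19.GI
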